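import Mathlib

/-!
# Interpolation by Blaschke products

If an analytic function on the unit disc is bounded by `A` on the unit circle and at most `ε` at
`n` points whose moduli are equally spaced in `[1/8,1/4]`, then it is small everywhere inside.
-/

open Complex Metric Set Filter Topology ComplexConjugate

namespace Pool.Agent.helper23.Blaschke

/-- The Blaschke factor of the unit disc with zero `a`. -/
noncomputable def bl (a z : ℂ) : ℂ := (z - a) / (1 - conj a * z)

lemma den_ne_zero {a z : ℂ} (ha : ‖a‖ ≤ 1 / 4) (hz : ‖z‖ < 2) : 1 - conj a * z ≠ 0 := by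
  intro h
  have h1 : conj a * z = 1 := (sub_eq_zero.mp h).symm
  have h2 : ‖conj a * z‖ = 1 := by rw [h1, norm_one]
  rw [norm_mul, Complex.norm_conj] at h2
  nlinarith [norm_nonneg a, norm_nonneg z]

lemma normSq_identity (a z : ℂ) :
    ‖1 - conj a * z‖ ^ 2 - ‖z - a‖ ^ 2 = (1 - ‖a‖ ^ 2) * (1 - ‖z‖ ^ 2) := by
  rw [← Complex.normSq_eq_norm_sq, ← Complex.normSq_eq_norm_sq, ← Complex.normSq_eq_norm_sq,
    ← Complex.normSq_eq_norm_sq]
  simp only [Complex.normSq_apply, Complex.sub_re, Complex.sub_im, Complex.mul_re, Complex.mul_im,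
    Complex.one_re, Complex.one_im, Complex.conj_re, Complex.conj_im]
  ring

lemma norm_eq_of_sphere {a z : ℂ} (hz : ‖z‖ = 1) : ‖1 - conj a * z‖ = ‖z - a‖ := by
  have h := normSq_identity a z
  rw [hz] at h
  have h2 : ‖1 - conj a * z‖ ^ 2 = ‖z - a‖ ^ 2 := by nlinarith
  exact (pow_left_inj₀ (norm_nonneg _) (norm_nonneg _) (by norm_num)).mp h2

lemma norm_den_le {a z : ℂ} (ha : ‖a‖ ≤ 1 / 4) (hz : ‖z‖ ≤ 1) : ‖1 - conj a * z‖ ≤ 5 / 4 := by
  calc ‖1 - conj a * z‖ ≤ ‖(1 : ℂ)‖ + ‖conj a * z‖ := norm_sub_le _ _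
    _ = 1 + ‖a‖ * ‖z‖ := by rw [norm_one, norm_mul, Complex.norm_conj]
    _ ≤ 1 + 1 / 4 * 1 := by gcongr
    _ = 5 / 4 := by norm_num

lemma norm_bl_le_exp {a z : ℂ} (ha : ‖a‖ ≤ 1 / 4) (hz : ‖z‖ ≤ 1) :
    ‖bl a z‖ ≤ Real.exp (-(3 / 10) * (1 - ‖z‖ ^ 2)) := by
  have hden : 1 - conj a * z ≠ 0 := den_ne_zero ha (by linarith)
  have hpos : 0 < ‖1 - conj a * z‖ := norm_pos_iff.mpr hden
  have hid := normSq_identity a z
  have hle := norm_den_le ha hz
  have hz2 : 0 ≤ 1 - ‖z‖ ^ 2 := by nlinarith [norm_nonneg z]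
  have h1 : ‖bl a z‖ ^ 2 ≤ 1 - 3 / 5 * (1 - ‖z‖ ^ 2) := by
    unfold bl
    rw [norm_div, div_pow, div_le_iff₀ (by positivity)]
    have h2 : (15 : ℝ) / 16 ≤ 1 - ‖a‖ ^ 2 := by nlinarith [norm_nonneg a]
    have h3 : ‖1 - conj a * z‖ ^ 2 ≤ 25 / 16 := by nlinarith
    have h4 : 15 / 16 * (1 - ‖z‖ ^ 2) ≤ (1 - ‖a‖ ^ 2) * (1 - ‖z‖ ^ 2) := by gcongr
    have h5 : 3 / 5 * (1 - ‖z‖ ^ 2) * ‖1 - conj a * z‖ ^ 2 ≤ 3 / 5 * (1 - ‖z‖ ^ 2) * (25 / 16) := by
      gcongr
    nlinarith
  have h2 : ‖bl a z‖ ^ 2 ≤ (Real.exp (-(3 / 10) * (1 - ‖z‖ ^ 2))) ^ 2 := by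
    rw [← Real.exp_nat_mul]
    refine h1.trans ?_
    have := Real.add_one_le_exp (((2 : ℕ) : ℝ) * (-(3 / 10) * (1 - ‖z‖ ^ 2)))
    refine le_trans (le_of_eq ?_) this
    push_cast
    ring
  exact (pow_le_pow_iff_left₀ (norm_nonneg _) (Real.exp_nonneg _) (by norm_num)).mp h2

lemma norm_bl_le_one {a z : ℂ} (ha : ‖a‖ ≤ 1 / 4) (hz : ‖z‖ ≤ 1) : ‖bl a z‖ ≤ 1 := by
  refine (norm_bl_le_exp ha hz).trans ?_
  rw [Real.exp_le_one_iff]
  nlinarith [norm_nonneg z]

lemma norm_bl_ge {a z : ℂ} (ha : ‖a‖ ≤ 1 / 4) (hz : ‖z‖ ≤ 1 / 4) :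
    16 / 17 * |‖a‖ - ‖z‖| ≤ ‖bl a z‖ := by
  have hden : 1 - conj a * z ≠ 0 := den_ne_zero ha (by linarith)
  have hpos : 0 < ‖1 - conj a * z‖ := norm_pos_iff.mpr hden
  unfold bl
  rw [norm_div, le_div_iff₀ hpos]
  have h1 : ‖1 - conj a * z‖ ≤ 17 / 16 := by
    calc ‖1 - conj a * z‖ ≤ ‖(1 : ℂ)‖ + ‖conj a * z‖ := norm_sub_le _ _
      _ = 1 + ‖a‖ * ‖z‖ := by rw [norm_one, norm_mul, Complex.norm_conj]
      _ ≤ 1 + 1 / 4 * (1 / 4) := by gcongr
      _ = 17 / 16 := by norm_num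
  have h2 : |‖a‖ - ‖z‖| ≤ ‖z - a‖ := by
    rw [abs_sub_comm]
    exact abs_norm_sub_norm_le z a
  calc 16 / 17 * |‖a‖ - ‖z‖| * ‖1 - conj a * z‖ ≤ 16 / 17 * |‖a‖ - ‖z‖| * (17 / 16) := by gcongr
    _ = |‖a‖ - ‖z‖| := by ring
    _ ≤ _ := h2

lemma bl_self (a : ℂ) : bl a a = 0 := by simp [bl]

lemma differentiableOn_bl {a : ℂ} (ha : ‖a‖ ≤ 1 / 4) : DifferentiableOn ℂ (bl a) (ball 0 2) := by
  unfold bl
  intro z hz
  have hz' : ‖z‖ < 2 := by simpa using hz
  apply DifferentiableAt.differentiableWithinAt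
  apply DifferentiableAt.div
  · fun_prop
  · fun_prop
  · exact den_ne_zero ha hz'

/-- Schwarz lemma with several zeros. -/
lemma norm_le_mul_prod {M : ℝ} (ζ : ℕ → ℂ) (s : Finset ℕ) :
    ∀ D : ℂ → ℂ, DifferentiableOn ℂ D (ball 0 2) → (∀ z, ‖z‖ = 1 → ‖D z‖ ≤ M) →
      (∀ i ∈ s, ‖ζ i‖ ≤ 1 / 4) → (∀ i ∈ s, ∀ j ∈ s, ζ i = ζ j → i = j) →
      (∀ i ∈ s, D (ζ i) = 0) →
      ∀ z, ‖z‖ < 1 → ‖D z‖ ≤ M * ∏ i ∈ s, ‖bl (ζ i) z‖ := by
  classical
  induction s using Finset.induction_on with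
  | empty =>
    intro D hD hM _ _ _ z hz
    rw [Finset.prod_empty, mul_one]
    refine Complex.norm_le_of_forall_mem_frontier_norm_le (U := ball (0:ℂ) 1) isBounded_ball ?_ ?_
      (z := z) ?_
    · apply DifferentiableOn.diffContOnCl
      rw [closure_ball _ one_ne_zero]
      exact hD.mono (closedBall_subset_ball (by norm_num))
    · intro w hw
      rw [frontier_ball _ one_ne_zero] at hw
      exact hM w (by simpa using hw)
    · apply subset_closure
      simpa using hz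
  | insert a s ha ih =>
    intro D hD hM hnorm hinj hzero z hz
    have hζa : ‖ζ a‖ ≤ 1 / 4 := hnorm a (Finset.mem_insert_self a s)
    have hDa : D (ζ a) = 0 := hzero a (Finset.mem_insert_self a s)
    have hmem : ζ a ∈ ball (0 : ℂ) 2 := by
      rw [mem_ball_zero_iff]; linarith
    have hds : DifferentiableOn ℂ (dslope D (ζ a)) (ball 0 2) :=
      (Complex.differentiableOn_dslope (isOpen_ball.mem_nhds hmem)).mpr hD
    have hfac : ∀ w, D w = (w - ζ a) * dslope D (ζ a) w := by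
      intro w
      have := sub_smul_dslope D (ζ a) w
      rw [smul_eq_mul, hDa, sub_zero] at this
      exact this.symm
    have ih' := ih (fun w => dslope D (ζ a) w * (1 - conj (ζ a) * w))
      (hds.mul (by fun_prop)) (by
        intro w hw
        rw [norm_mul, norm_eq_of_sphere hw, mul_comm, ← norm_mul, ← hfac]
        exact hM w hw) (fun i hi => hnorm i (Finset.mem_insert_of_mem hi))
      (fun i hi j hj h => hinj i (Finset.mem_insert_of_mem hi) j (Finset.mem_insert_of_mem hj) h)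
      (by
        intro i hi
        have hne : ζ i ≠ ζ a := by
          intro h
          have := hinj i (Finset.mem_insert_of_mem hi) a (Finset.mem_insert_self a s) h
          rw [this] at hi
          exact ha hi
        have h0 : D (ζ i) = 0 := hzero i (Finset.mem_insert_of_mem hi)
        rw [hfac] at h0
        rcases mul_eq_zero.mp h0 with h1 | h1
        · exact absurd (sub_eq_zero.mp h1) hne
        · simp [h1]) z hz
    rw [Finset.prod_insert ha]
    have hden : 1 - conj (ζ a) * z ≠ 0 := den_ne_zero hζa (by linarith)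
    have h1 : D z = bl (ζ a) z * (dslope D (ζ a) z * (1 - conj (ζ a) * z)) := by
      rw [hfac z]
      unfold bl
      rw [div_mul_eq_mul_div, eq_div_iff hden]
      ring
    rw [h1, norm_mul]
    calc ‖bl (ζ a) z‖ * ‖dslope D (ζ a) z * (1 - conj (ζ a) * z)‖
        ≤ ‖bl (ζ a) z‖ * (M * ∏ i ∈ s, ‖bl (ζ i) z‖) := by gcongr
      _ = _ := by ring

/-- The interpolation estimate, abstract form. -/
lemma interp_bound {A ε K : ℝ} (hε : 0 ≤ ε) {G : ℂ → ℂ} (hG : DifferentiableOn ℂ G (ball 0 2))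
    (hA : ∀ z, ‖z‖ = 1 → ‖G z‖ ≤ A) (ζ : ℕ → ℂ) (n : ℕ)
    (hnorm : ∀ i < n, ‖ζ i‖ ≤ 1 / 4) (hinj : ∀ i < n, ∀ j < n, i ≠ j → ‖ζ i‖ ≠ ‖ζ j‖)
    (hsmall : ∀ i < n, ‖G (ζ i)‖ ≤ ε)
    (hK : ∑ j ∈ Finset.range n, ∏ i ∈ (Finset.range n).erase j, ‖bl (ζ i) (ζ j)‖⁻¹ ≤ K)
    (z : ℂ) (hz : ‖z‖ < 1) :
    ‖G z‖ ≤ ε * K + (A + ε * K) * ∏ i ∈ Finset.range n, ‖bl (ζ i) z‖ := by
  classical
  set P : ℂ → ℂ := fun z => ∑ j ∈ Finset.range n, G (ζ j) *
    ∏ i ∈ (Finset.range n).erase j, (bl (ζ i) z / bl (ζ i) (ζ j)) with hP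
  have hblne : ∀ j < n, ∀ i < n, i ≠ j → bl (ζ i) (ζ j) ≠ 0 := by
    intro j hj i hi hij
    have h1 := norm_bl_ge (hnorm i hi) (hnorm j hj)
    have h2 : 0 < |‖ζ i‖ - ‖ζ j‖| := abs_pos.mpr (sub_ne_zero.mpr (hinj i hi j hj hij))
    have h3 : 0 < ‖bl (ζ i) (ζ j)‖ := lt_of_lt_of_le (by positivity) h1
    exact norm_pos_iff.mp h3
  have hPnode : ∀ k < n, P (ζ k) = G (ζ k) := by
    intro k hk
    simp only [hP]
    rw [Finset.sum_eq_single k]
    · rw [Finset.prod_eq_one, mul_one]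
      intro i hi
      rw [Finset.mem_erase, Finset.mem_range] at hi
      exact div_self (hblne k hk i hi.2 hi.1)
    · intro j hj hjk
      rw [Finset.prod_eq_zero (i := k), mul_zero]
      · rw [Finset.mem_erase, Finset.mem_range]
        exact ⟨Ne.symm hjk, hk⟩
      · rw [bl_self, zero_div]
    · intro h
      exact absurd (Finset.mem_range.mpr hk) h
  have hPbound : ∀ w, ‖w‖ ≤ 1 → ‖P w‖ ≤ ε * K := by
    intro w hw
    calc ‖P w‖ ≤ ∑ j ∈ Finset.range n, ‖G (ζ j) *
          ∏ i ∈ (Finset.range n).erase j, (bl (ζ i) w / bl (ζ i) (ζ j))‖ := norm_sum_le _ _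
      _ ≤ ∑ j ∈ Finset.range n, ε * ∏ i ∈ (Finset.range n).erase j, ‖bl (ζ i) (ζ j)‖⁻¹ := by
        apply Finset.sum_le_sum
        intro j hj
        rw [norm_mul, norm_prod]
        apply mul_le_mul (hsmall j (Finset.mem_range.mp hj)) _ (by positivity) hε
        apply Finset.prod_le_prod
        · intro i _; positivity
        · intro i hi
          rw [Finset.mem_erase, Finset.mem_range] at hi
          rw [norm_div, div_eq_mul_inv]
          calc ‖bl (ζ i) w‖ * ‖bl (ζ i) (ζ j)‖⁻¹ ≤ 1 * ‖bl (ζ i) (ζ j)‖⁻¹ := by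
                gcongr
                exact norm_bl_le_one (hnorm i hi.2) hw
            _ = _ := one_mul _
      _ = ε * ∑ j ∈ Finset.range n, ∏ i ∈ (Finset.range n).erase j, ‖bl (ζ i) (ζ j)‖⁻¹ := by
        rw [Finset.mul_sum]
      _ ≤ ε * K := by gcongr
  have hPdiff : DifferentiableOn ℂ P (ball 0 2) := by
    simp only [hP]
    apply DifferentiableOn.fun_sum
    intro j _
    apply DifferentiableOn.const_mul
    apply DifferentiableOn.fun_finsetProd
    intro i hi
    rw [Finset.mem_erase, Finset.mem_range] at hi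
    exact (differentiableOn_bl (hnorm i hi.2)).div_const _
  have hD := norm_le_mul_prod (M := A + ε * K) ζ (Finset.range n) (fun w => G w - P w)
    (hG.sub hPdiff) (by
      intro w hw
      calc ‖G w - P w‖ ≤ ‖G w‖ + ‖P w‖ := norm_sub_le _ _
        _ ≤ A + ε * K := add_le_add (hA w hw) (hPbound w hw.le))
    (fun i hi => hnorm i (Finset.mem_range.mp hi))
    (by
      intro i hi j hj h
      by_contra hij
      exact hinj i (Finset.mem_range.mp hi) j (Finset.mem_range.mp hj) hij (by rw [h]))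
    (fun i hi => by simp [hPnode i (Finset.mem_range.mp hi)]) z hz
  calc ‖G z‖ = ‖P z + (G z - P z)‖ := by congr 1; ring
    _ ≤ ‖P z‖ + ‖G z - P z‖ := norm_add_le _ _
    _ ≤ ε * K + (A + ε * K) * ∏ i ∈ Finset.range n, ‖bl (ζ i) z‖ :=
      add_le_add (hPbound z hz.le) hD

/-- Product of differences. -/
lemma prod_abs_sub (n j : ℕ) (hj : j < n) :
    ∏ i ∈ (Finset.range n).erase j, |((i : ℝ) - j)| = (j.factorial : ℝ) * ((n - 1 - j).factorial) := by
  obtain ⟨m, rfl⟩ : ∃ m, n = j + 1 + m := ⟨n - (j + 1), by omega⟩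
  clear hj
  induction m with
  | zero =>
    have h1 : (Finset.range (j + 1 + 0)).erase j = Finset.range j := by
      ext i; simp; omega
    rw [h1]
    have h2 : j + 1 + 0 - 1 - j = 0 := by omega
    rw [h2, Nat.factorial_zero, Nat.cast_one, mul_one]
    rw [← Finset.prod_range_add_one_eq_factorial]
    push_cast
    rw [← Finset.prod_range_reflect]
    apply Finset.prod_congr rfl
    intro i hi
    rw [Finset.mem_range] at hi
    have h3 : ((j - 1 - i : ℕ) : ℝ) = (j : ℝ) - 1 - i := by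
      rw [Nat.sub_sub, Nat.cast_sub (by omega)]
      push_cast; ring
    rw [h3]
    have : (j : ℝ) - 1 - i - j = -(i + 1) := by ring
    rw [this, abs_neg, abs_of_nonneg (by positivity)]
  | succ m ih =>
    have h1 : (Finset.range (j + 1 + (m + 1))).erase j =
        insert (j + 1 + m) ((Finset.range (j + 1 + m)).erase j) := by
      ext i; simp; omega
    rw [h1, Finset.prod_insert (by simp), ih]
    have h2 : j + 1 + (m + 1) - 1 - j = (j + 1 + m - 1 - j) + 1 := by omega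
    have h3 : j + 1 + m - 1 - j = m := by omega
    rw [h2, h3, Nat.factorial_succ]
    push_cast
    have : (j : ℝ) + 1 + m - j = m + 1 := by ring
    rw [this, abs_of_nonneg (by positivity)]
    ring

lemma factorial_lower (n k : ℕ) : ((n : ℝ) / 2) ^ k * Real.exp (-(n / 2)) ≤ (k.factorial : ℝ) := by
  have h := Real.pow_div_factorial_le_exp ((n : ℝ) / 2) (by positivity) k
  rw [div_le_iff₀ (by positivity)] at h
  calc ((n : ℝ) / 2) ^ k * Real.exp (-(n / 2))
      ≤ (Real.exp (n / 2) * (k.factorial : ℝ)) * Real.exp (-(n / 2)) := by gcongr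
    _ = (k.factorial : ℝ) * (Real.exp (n / 2) * Real.exp (-(n / 2))) := by ring
    _ = _ := by rw [← Real.exp_add]; simp

lemma K_bound {n : ℕ} (hn : 0 < n) (ζ : ℕ → ℂ)
    (hζ : ∀ i < n, ‖ζ i‖ = 1 / 8 + (i + 1) / (8 * n)) :
    ∑ j ∈ Finset.range n, ∏ i ∈ (Finset.range n).erase j, ‖bl (ζ i) (ζ j)‖⁻¹
      ≤ Real.exp (5 * n) := by
  have hn' : (0 : ℝ) < n := by exact_mod_cast hn
  have hle : ∀ i < n, ‖ζ i‖ ≤ 1 / 4 := by
    intro i hi
    rw [hζ i hi]
    have h1 : ((i : ℝ) + 1) ≤ n := by exact_mod_cast hi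
    have h2 : ((i : ℝ) + 1) / (8 * n) ≤ 1 / 8 := by
      rw [div_le_div_iff₀ (by positivity) (by norm_num)]
      linarith
    linarith
  have hterm : ∀ j ∈ Finset.range n,
      ∏ i ∈ (Finset.range n).erase j, ‖bl (ζ i) (ζ j)‖⁻¹ ≤ Real.exp (4 * n) := by
    intro j hj
    rw [Finset.mem_range] at hj
    have hcard : ((Finset.range n).erase j).card = n - 1 := by
      rw [Finset.card_erase_of_mem (Finset.mem_range.mpr hj), Finset.card_range]
    have h1 : ∏ i ∈ (Finset.range n).erase j, ‖bl (ζ i) (ζ j)‖⁻¹ ≤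
        ∏ i ∈ (Finset.range n).erase j, (17 * n / 2 * |((i : ℝ) - j)|⁻¹) := by
      apply Finset.prod_le_prod
      · intro i _; positivity
      · intro i hi
        rw [Finset.mem_erase, Finset.mem_range] at hi
        have hb := norm_bl_ge (hle i hi.2) (hle j hj)
        rw [hζ i hi.2, hζ j hj] at hb
        have h2 : (1 / 8 + ((i : ℝ) + 1) / (8 * n) - (1 / 8 + ((j : ℝ) + 1) / (8 * n))) =
            (i - j) / (8 * n) := by field_simp; ring
        rw [h2, abs_div, abs_of_pos (show (0 : ℝ) < 8 * n by positivity)] at hb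
        have hij : (0 : ℝ) < |((i : ℝ) - j)| := by
          apply abs_pos.mpr
          rw [sub_ne_zero]
          exact_mod_cast hi.1
        have h3 : 17 * (n : ℝ) / 2 * |((i : ℝ) - j)|⁻¹ =
            (16 / 17 * (|((i : ℝ) - j)| / (8 * n)))⁻¹ := by
          field_simp
          norm_num
        rw [h3]
        exact inv_anti₀ (by positivity) hb
    refine h1.trans ?_
    rw [Finset.prod_mul_distrib, Finset.prod_const, hcard, Finset.prod_inv_distrib,
      prod_abs_sub n j hj]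
    have hf1 := factorial_lower n j
    have hf2 := factorial_lower n (n - 1 - j)
    have hf : ((n : ℝ) / 2) ^ (n - 1) * Real.exp (-n) ≤
        (j.factorial : ℝ) * ((n - 1 - j).factorial) := by
      calc ((n : ℝ) / 2) ^ (n - 1) * Real.exp (-n)
          = (((n : ℝ) / 2) ^ j * Real.exp (-(n / 2))) *
            (((n : ℝ) / 2) ^ (n - 1 - j) * Real.exp (-(n / 2))) := by
            have e1 : ((n : ℝ) / 2) ^ (n - 1) = ((n : ℝ) / 2) ^ j * ((n : ℝ) / 2) ^ (n - 1 - j) := by
              rw [← pow_add]; congr 1; omega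
            have e2 : Real.exp (-n) = Real.exp (-(n / 2)) * Real.exp (-(n / 2)) := by
              rw [← Real.exp_add]; congr 1; ring
            rw [e1, e2]; ring
        _ ≤ _ := by gcongr
    have hpos : 0 < ((n : ℝ) / 2) ^ (n - 1) * Real.exp (-n) := by positivity
    calc (17 * (n : ℝ) / 2) ^ (n - 1) * ((j.factorial : ℝ) * ((n - 1 - j).factorial))⁻¹
        ≤ (17 * (n : ℝ) / 2) ^ (n - 1) * (((n : ℝ) / 2) ^ (n - 1) * Real.exp (-n))⁻¹ := by
          gcongr
      _ = 17 ^ (n - 1) * Real.exp n := by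
          rw [mul_inv, Real.exp_neg, inv_inv]
          have : (17 * (n : ℝ) / 2) ^ (n - 1) = 17 ^ (n - 1) * ((n : ℝ) / 2) ^ (n - 1) := by
            rw [← mul_pow]; congr 1; ring
          rw [this]
          field_simp
      _ ≤ (Real.exp 3) ^ (n - 1) * Real.exp n := by
          gcongr
          have h3 : (2.7182818283 : ℝ) < Real.exp 1 := Real.exp_one_gt_d9
          have : Real.exp 3 = Real.exp 1 ^ 3 := by rw [← Real.exp_nat_mul]; norm_num
          rw [this]
          calc (17 : ℝ) ≤ 2.7182818283 ^ 3 := by norm_num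
            _ ≤ _ := by gcongr
      _ ≤ (Real.exp 3) ^ n * Real.exp n := by
          gcongr
          · exact Real.one_le_exp (by norm_num)
          · omega
      _ = Real.exp (4 * n) := by
          rw [← Real.exp_nat_mul, ← Real.exp_add]; congr 1; ring
  calc ∑ j ∈ Finset.range n, ∏ i ∈ (Finset.range n).erase j, ‖bl (ζ i) (ζ j)‖⁻¹
      ≤ ∑ j ∈ Finset.range n, Real.exp (4 * n) := Finset.sum_le_sum hterm
    _ = n * Real.exp (4 * n) := by simp
    _ ≤ Real.exp n * Real.exp (4 * n) := by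
        gcongr
        have := Real.add_one_le_exp (n : ℝ)
        linarith
    _ = Real.exp (5 * n) := by rw [← Real.exp_add]; congr 1; ring

/-- **Interpolation estimate** in the disc of centre `w` and radius `h`: if `F` is analytic and
bounded by `A` on the closed disc and at most `ε` in modulus at one point of each of the circles
of radius `h/8 + h (i+1)/(8n)`, `i < n`, then `F` is small on the segment from `w` to the
boundary point `w - h`. -/
theorem segment_bound {F : ℂ → ℂ} (hF : Differentiable ℂ F) {w : ℂ} {h A ε : ℝ} (hh : 0 < h)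
    (hε : 0 ≤ ε) (hA : ∀ z ∈ sphere w h, ‖F z‖ ≤ A) {n : ℕ} (hn : 0 < n)
    (hsmall : ∀ i < n, ∃ z, dist z w = h / 8 + h * (i + 1) / (8 * n) ∧ ‖F z‖ ≤ ε)
    {s : ℝ} (hs0 : 0 < s) (hsh : s ≤ h) :
    ‖F (w - h + s)‖ ≤ ε * Real.exp (5 * n) +
      (A + ε * Real.exp (5 * n)) * Real.exp (-(3 / 10) * n * (s / h)) := by
  classical
  have hn' : (0 : ℝ) < n := by exact_mod_cast hn
  choose! z hz1 hz2 using hsmall
  set ζ : ℕ → ℂ := fun i => (z i - w) / h with hζdef
  have hhC : (h : ℂ) ≠ 0 := by exact_mod_cast hh.ne'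
  have hζ : ∀ i < n, ‖ζ i‖ = 1 / 8 + (i + 1) / (8 * n) := by
    intro i hi
    simp only [hζdef]
    rw [norm_div, ← dist_eq_norm, hz1 i hi, Complex.norm_real, Real.norm_of_nonneg hh.le]
    field_simp
  have hle : ∀ i < n, ‖ζ i‖ ≤ 1 / 4 := by
    intro i hi
    rw [hζ i hi]
    have h1 : ((i : ℝ) + 1) ≤ n := by exact_mod_cast hi
    have h2 : ((i : ℝ) + 1) / (8 * n) ≤ 1 / 8 := by
      rw [div_le_div_iff₀ (by positivity) (by norm_num)]
      linarith
    linarith
  set G : ℂ → ℂ := fun u => F (w + h * u) with hGdef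
  have hG : Differentiable ℂ G := by
    intro u
    simp only [hGdef]
    exact (hF _).comp u (by fun_prop)
  have hGA : ∀ u, ‖u‖ = 1 → ‖G u‖ ≤ A := by
    intro u hu
    apply hA
    rw [mem_sphere, dist_eq_norm]
    simp [hu, abs_of_pos hh]
  have hGsmall : ∀ i < n, ‖G (ζ i)‖ ≤ ε := by
    intro i hi
    have : w + h * ζ i = z i := by
      simp only [hζdef]
      field_simp
      ring
    simp only [hGdef]
    rw [this]
    exact hz2 i hi
  set σ : ℂ := ((s / h - 1 : ℝ) : ℂ) with hσ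
  have hsh1 : s / h ≤ 1 := (div_le_one hh).mpr hsh
  have hsh0 : 0 < s / h := div_pos hs0 hh
  have hσn : ‖σ‖ = 1 - s / h := by
    rw [hσ, Complex.norm_real, Real.norm_eq_abs, abs_of_nonpos (by linarith)]
    ring
  have hσ1 : ‖σ‖ < 1 := by rw [hσn]; linarith
  have hmain := interp_bound hε hG.differentiableOn hGA ζ n hle (by
      intro i hi j hj hij heq
      rw [hζ i hi, hζ j hj] at heq
      apply hij
      have h1 : ((i : ℝ) + 1) / (8 * n) = (j + 1) / (8 * n) := by linarith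
      rw [div_left_inj' (by positivity)] at h1
      have : (i : ℝ) = j := by linarith
      exact_mod_cast this) hGsmall (K_bound hn ζ hζ) σ hσ1
  have hpt : w + h * σ = w - h + s := by
    rw [hσ]
    push_cast
    field_simp
    ring
  simp only [hGdef] at hmain
  rw [hpt] at hmain
  have hA0 : 0 ≤ A := by
    have hmem : w + h ∈ sphere w h := by
      rw [mem_sphere, dist_eq_norm]
      simp [abs_of_pos hh]
    exact (norm_nonneg _).trans (hA _ hmem)
  refine hmain.trans ?_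
  gcongr
  calc ∏ i ∈ Finset.range n, ‖bl (ζ i) σ‖
      ≤ ∏ i ∈ Finset.range n, Real.exp (-(3 / 10) * (s / h)) := by
        apply Finset.prod_le_prod
        · intro i _; positivity
        · intro i hi
          refine (norm_bl_le_exp (hle i (Finset.mem_range.mp hi)) hσ1.le).trans ?_
          apply Real.exp_le_exp.mpr
          rw [hσn]
          nlinarith
    _ = Real.exp (-(3 / 10) * n * (s / h)) := by
        rw [Finset.prod_const, Finset.card_range, ← Real.exp_nat_mul]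
        congr 1
        ring

end Pool.Agent.helper23.Blaschke
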