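import Mathlib

/-!
# A minimal argument principle on circles

For entire functions without zeros on a circle we use `ind f c R = ∮ f'/f` on the circle
`C(c,R)`.  It is additive, does not change under perturbations smaller than the modulus, and it
is nonzero as soon as the function has a zero inside the circle.
-/

open Complex MeasureTheory Metric Set Filter Topology

namespace Pool.Agent.helper23.CircleIndex

/-- The integral of the logarithmic derivative along the circle. -/
noncomputable def ind (f : ℂ → ℂ) (c : ℂ) (R : ℝ) : ℂ := ∮ z in C(c, R), deriv f z / f z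

lemma continuous_deriv {f : ℂ → ℂ} (hf : Differentiable ℂ f) : Continuous (deriv f) := by
  have h : ContDiff ℂ 1 f := hf.contDiff
  exact h.continuous_deriv le_rfl

lemma circleIntegrable_div {f : ℂ → ℂ} (hf : Differentiable ℂ f) {c : ℂ} {R : ℝ} (hR : 0 ≤ R)
    (h0 : ∀ z ∈ sphere c R, f z ≠ 0) :
    CircleIntegrable (fun z => deriv f z / f z) c R := by
  apply ContinuousOn.circleIntegrable hR
  exact (continuous_deriv hf).continuousOn.div hf.continuous.continuousOn h0

/-- Invariance under small perturbations. -/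
lemma ind_eq_of_close {f g : ℂ → ℂ} (hf : Differentiable ℂ f) (hg : Differentiable ℂ g)
    {c : ℂ} {R : ℝ} (hR : 0 ≤ R) (h : ∀ z ∈ sphere c R, ‖f z - g z‖ < ‖g z‖) :
    ind f c R = ind g c R := by
  have hg0 : ∀ z ∈ sphere c R, g z ≠ 0 := by
    intro z hz h0
    have := h z hz
    rw [h0, norm_zero] at this
    exact absurd this (not_lt.mpr (norm_nonneg _))
  have hf0 : ∀ z ∈ sphere c R, f z ≠ 0 := by
    intro z hz h0
    have := h z hz
    rw [h0, zero_sub, norm_neg] at this
    exact lt_irrefl _ this
  have key : (∮ z in C(c, R), (deriv f z / f z - deriv g z / g z)) = 0 := by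
    refine circleIntegral.integral_eq_zero_of_hasDerivWithinAt (f := fun z => Complex.log (f z / g z))
      hR ?_
    intro z hz
    have hgz := hg0 z hz
    have hfz := hf0 z hz
    have hslit : f z / g z ∈ slitPlane := by
      have h1 : ‖f z / g z - 1‖ < 1 := by
        have : f z / g z - 1 = (f z - g z) / g z := by field_simp
        rw [this, norm_div]
        rw [div_lt_one (norm_pos_iff.mpr hgz)]
        exact h z hz
      have : 0 < (f z / g z).re := by
        have h2 := Complex.abs_re_le_norm (f z / g z - 1)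
        rw [Complex.sub_re, Complex.one_re] at h2
        have h3 := neg_abs_le ((f z / g z).re - 1)
        linarith
      exact Or.inl this
    have hd : HasDerivAt (fun z => f z / g z)
        ((deriv f z * g z - f z * deriv g z) / (g z) ^ 2) z :=
      (hf z).hasDerivAt.div (hg z).hasDerivAt hgz
    have hl := hd.clog hslit
    have heq : (deriv f z * g z - f z * deriv g z) / (g z) ^ 2 / (f z / g z) =
        deriv f z / f z - deriv g z / g z := by
      field_simp
    rw [heq] at hl
    exact hl.hasDerivWithinAt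
  rw [circleIntegral.integral_sub (circleIntegrable_div hf hR hf0)
    (circleIntegrable_div hg hR hg0)] at key
  exact sub_eq_zero.mp key

/-- Additivity. -/
lemma ind_mul {f g : ℂ → ℂ} (hf : Differentiable ℂ f) (hg : Differentiable ℂ g)
    {c : ℂ} {R : ℝ} (hR : 0 ≤ R) (hf0 : ∀ z ∈ sphere c R, f z ≠ 0)
    (hg0 : ∀ z ∈ sphere c R, g z ≠ 0) :
    ind (fun z => f z * g z) c R = ind f c R + ind g c R := by
  unfold ind
  rw [← circleIntegral.integral_add (circleIntegrable_div hf hR hf0)
    (circleIntegrable_div hg hR hg0)]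
  apply circleIntegral.integral_congr hR
  intro z hz
  have hgz := hg0 z hz
  have hfz := hf0 z hz
  have hd : deriv (fun z => f z * g z) z = deriv f z * g z + f z * deriv g z :=
    deriv_fun_mul (hf z) (hg z)
  simp only [hd]
  field_simp

lemma ind_const (a : ℂ) (c : ℂ) (R : ℝ) : ind (fun _ => a) c R = 0 := by
  unfold ind
  simp [circleIntegral]

lemma ind_sub_of_mem_ball {c w : ℂ} {R : ℝ} (hw : w ∈ ball c R) :
    ind (fun z => z - w) c R = 2 * Real.pi * I := by
  unfold ind
  rw [← circleIntegral.integral_sub_inv_of_mem_ball hw]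
  congr 1
  ext z
  simp

lemma ind_sub_of_not_mem_closedBall {c w : ℂ} {R : ℝ} (hR : 0 ≤ R) (hw : w ∉ closedBall c R) :
    ind (fun z => z - w) c R = 0 := by
  unfold ind
  have h1 : (fun z => deriv (fun z => z - w) z / (z - w)) = fun z : ℂ => (z - w)⁻¹ := by
    ext z; simp
  rw [h1]
  apply DiffContOnCl.circleIntegral_eq_zero hR
  apply DifferentiableOn.diffContOnCl
  intro z hz
  have hz' : z ∈ closedBall c R := closure_ball_subset_closedBall hz
  have : z - w ≠ 0 := by
    intro h
    apply hw
    rw [← sub_eq_zero.mp h]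
    exact hz'
  exact ((differentiableAt_id.sub_const w).inv this).differentiableWithinAt

/-- For polynomials the index is `2πi` times a natural number, positive if there is a root
inside. -/
lemma ind_polynomial {c : ℂ} {R : ℝ} (hR : 0 ≤ R) :
    ∀ (n : ℕ) (P : Polynomial ℂ), P.natDegree = n → (∀ z ∈ sphere c R, P.eval z ≠ 0) → P ≠ 0 →
      ∃ k : ℕ, ind (fun z => P.eval z) c R = 2 * Real.pi * I * k ∧
        ((∃ w ∈ ball c R, P.eval w = 0) → 1 ≤ k) := by
  intro n
  induction n with
  | zero =>
    intro P hP _ hP0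
    rw [Polynomial.eq_C_of_natDegree_eq_zero hP] at hP0 ⊢
    refine ⟨0, ?_, ?_⟩
    · simp [ind_const]
    · rintro ⟨w, _, hw⟩
      exfalso
      apply hP0
      rw [Polynomial.eval_C] at hw
      rw [hw, Polynomial.C_0]
  | succ n ih =>
    intro P hP hs hP0
    -- choose a root, inside if possible
    have hdeg : P.degree ≠ 0 := by
      intro h
      have := Polynomial.natDegree_eq_zero_iff_degree_le_zero.mpr (le_of_eq h)
      omega
    obtain ⟨w, hw, hwin⟩ : ∃ w, P.eval w = 0 ∧ ((∃ w ∈ ball c R, P.eval w = 0) → w ∈ ball c R) := by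
      by_cases h : ∃ w ∈ ball c R, P.eval w = 0
      · obtain ⟨w, h1, h2⟩ := h
        exact ⟨w, h2, fun _ => h1⟩
      · obtain ⟨w, hw⟩ := IsAlgClosed.exists_root P hdeg
        exact ⟨w, hw, fun h' => absurd h' h⟩
    obtain ⟨Q, hQ⟩ := Polynomial.dvd_iff_isRoot.mpr (show P.IsRoot w from hw)
    have hQ0 : Q ≠ 0 := by
      rintro rfl
      exact hP0 (by rw [hQ, mul_zero])
    have hQdeg : Q.natDegree = n := by
      have h1 : P.natDegree = (Polynomial.X - Polynomial.C w).natDegree + Q.natDegree := by
        rw [hQ, Polynomial.natDegree_mul (Polynomial.X_sub_C_ne_zero w) hQ0]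
      rw [Polynomial.natDegree_X_sub_C] at h1
      omega
    have heval : ∀ z, P.eval z = (z - w) * Q.eval z := by
      intro z
      rw [hQ]; simp
    have hQs : ∀ z ∈ sphere c R, Q.eval z ≠ 0 := by
      intro z hz h
      apply hs z hz
      rw [heval, h, mul_zero]
    have hws : ∀ z ∈ sphere c R, z - w ≠ 0 := by
      intro z hz h
      apply hs z hz
      rw [heval, h, zero_mul]
    obtain ⟨k, hk, -⟩ := ih Q hQdeg hQs hQ0
    have hind : ind (fun z => P.eval z) c R =
        ind (fun z => z - w) c R + ind (fun z => Q.eval z) c R := by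
      have : (fun z => P.eval z) = fun z => (z - w) * Q.eval z := by
        ext z; exact heval z
      rw [this]
      exact ind_mul (differentiable_id.sub_const w) Q.differentiable hR hws hQs
    by_cases hwb : w ∈ ball c R
    · refine ⟨k + 1, ?_, fun _ => by omega⟩
      rw [hind, ind_sub_of_mem_ball hwb, hk]
      push_cast
      ring
    · have hwc : w ∉ closedBall c R := by
        intro h
        apply hws w _ (sub_self w)
        rw [mem_closedBall] at h
        rw [mem_ball, not_lt] at hwb
        rw [mem_sphere]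
        exact le_antisymm h hwb
      refine ⟨k, ?_, fun h => absurd (hwin h) hwb⟩
      rw [hind, ind_sub_of_not_mem_closedBall hR hwc, hk, zero_add]

/-- Uniform approximation of an entire function by polynomials on a closed disc. -/
lemma exists_polynomial_approx {f : ℂ → ℂ} (hf : Differentiable ℂ f) (c : ℂ) (R : ℝ)
    {ε : ℝ} (hε : 0 < ε) : ∃ P : Polynomial ℂ, ∀ z ∈ closedBall c R, ‖f z - P.eval z‖ < ε := by
  obtain ⟨r, hr⟩ : ∃ r : NNReal, |R| < r :=
    ⟨Real.toNNReal (|R| + 1), by rw [Real.coe_toNNReal _ (by positivity)]; linarith⟩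
  have hps := hf.hasFPowerSeriesOnBall c (R := 1) (by norm_num)
  have h := hps.tendstoUniformlyOn' (r' := r) (by exact ENNReal.coe_lt_top)
  rw [Metric.tendstoUniformlyOn_iff] at h
  obtain ⟨n, hn⟩ := (h ε hε).exists
  set p := cauchyPowerSeries f c ((1 : NNReal) : ℝ) with hp
  refine ⟨∑ k ∈ Finset.range n, Polynomial.C (p.coeff k) * (Polynomial.X - Polynomial.C c) ^ k, ?_⟩
  intro z hz
  have hz' : z ∈ ball c r := by
    rw [mem_closedBall] at hz
    rw [mem_ball]
    exact lt_of_le_of_lt (hz.trans (le_abs_self R)) hr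
  have h1 := hn z hz'
  rw [dist_eq_norm] at h1
  have h2 : p.partialSum n (z - c) = Polynomial.eval z
      (∑ k ∈ Finset.range n, Polynomial.C (p.coeff k) * (Polynomial.X - Polynomial.C c) ^ k) := by
    rw [Polynomial.eval_finsetSum]
    unfold FormalMultilinearSeries.partialSum
    apply Finset.sum_congr rfl
    intro k _
    rw [FormalMultilinearSeries.apply_eq_pow_smul_coeff]
    simp
    ring
  rw [h2] at h1
  exact h1

/-- If an entire function without zeros on the circle has a zero inside, its index is nonzero. -/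
lemma ind_ne_zero {f : ℂ → ℂ} (hf : Differentiable ℂ f) {c : ℂ} {R : ℝ}
    (h0 : ∀ z ∈ sphere c R, f z ≠ 0) {w : ℂ} (hw : w ∈ ball c R) (hfw : f w = 0) :
    ind f c R ≠ 0 := by
  have hR : 0 ≤ R := dist_nonneg.trans (le_of_lt hw)
  obtain ⟨m, hm, hmf⟩ : ∃ m > 0, ∀ z ∈ sphere c R, m ≤ ‖f z‖ := by
    by_cases hne : (sphere c R).Nonempty
    · obtain ⟨z0, hz0, hmin⟩ := (isCompact_sphere c R).exists_isMinOn hne
        (hf.continuous.norm.continuousOn)
      exact ⟨‖f z0‖, norm_pos_iff.mpr (h0 z0 hz0), fun z hz => hmin hz⟩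
    · exact ⟨1, one_pos, fun z hz => absurd ⟨z, hz⟩ hne⟩
  obtain ⟨T, hT⟩ := exists_polynomial_approx hf c R (ε := m / 2) (by positivity)
  set P : Polynomial ℂ := T - Polynomial.C (T.eval w) with hP
  have hPw : P.eval w = 0 := by simp [hP]
  have hwc : w ∈ closedBall c R := ball_subset_closedBall hw
  have hclose : ∀ z ∈ sphere c R, ‖P.eval z - f z‖ < ‖f z‖ := by
    intro z hz
    have h1 := hT z (sphere_subset_closedBall hz)
    have h2 := hT w hwc
    rw [hfw, zero_sub, norm_neg] at h2
    have h3 : P.eval z - f z = -(f z - T.eval z) - T.eval w := by simp [hP]; ring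
    calc ‖P.eval z - f z‖ = ‖-(f z - T.eval z) - T.eval w‖ := by rw [h3]
      _ ≤ ‖-(f z - T.eval z)‖ + ‖T.eval w‖ := norm_sub_le _ _
      _ = ‖f z - T.eval z‖ + ‖T.eval w‖ := by rw [norm_neg]
      _ < m / 2 + m / 2 := add_lt_add h1 h2
      _ = m := by ring
      _ ≤ ‖f z‖ := hmf z hz
  have hPs : ∀ z ∈ sphere c R, P.eval z ≠ 0 := by
    intro z hz h
    have := hclose z hz
    rw [h, zero_sub, norm_neg] at this
    exact lt_irrefl _ this
  have hPne : P ≠ 0 := by
    intro h
    have hRpos : 0 < R := dist_nonneg.trans_lt hw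
    have hmem : c + R ∈ sphere c R := by
      rw [mem_sphere, dist_eq_norm]
      simp [abs_of_pos hRpos]
    apply hPs _ hmem
    rw [h]; simp
  obtain ⟨k, hk, hk1⟩ := ind_polynomial hR P.natDegree P rfl hPs hPne
  have hk2 := hk1 ⟨w, hw, hPw⟩
  have heq : ind (fun z => P.eval z) c R = ind f c R :=
    ind_eq_of_close P.differentiable hf hR hclose
  rw [← heq, hk]
  have hpi : (Real.pi : ℂ) ≠ 0 := by exact_mod_cast Real.pi_ne_zero
  have hkne : (k : ℂ) ≠ 0 := by
    have : k ≠ 0 := by omega
    exact_mod_cast this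
  simp [hkne, I_ne_zero]

/-- **Index lemma**.  A finite chain of entire functions, each close to the next one on a circle,
such that the square of the first is close to the last, has no zeros inside the circle; moreover
the lower bound on the circle persists inside. -/
theorem chain_lower_bound {m : ℕ} (f : ℕ → ℂ → ℂ) (hf : ∀ i, Differentiable ℂ (f i))
    {c : ℂ} {R β : ℝ} (hR : 0 < R) (hβ : 0 < β)
    (hlow : ∀ i ≤ m, ∀ z ∈ sphere c R, β ≤ ‖f i z‖)
    (hstep : ∀ i < m, ∀ z ∈ sphere c R, ‖f i z - f (i + 1) z‖ < β)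
    (hsq : ∀ z ∈ sphere c R, ‖f 0 z * f 0 z - f m z‖ < β) :
    ∀ i ≤ m, ∀ z ∈ closedBall c R, β ≤ ‖f i z‖ := by
  have hne : ∀ i ≤ m, ∀ z ∈ sphere c R, f i z ≠ 0 := by
    intro i hi z hz h
    have := hlow i hi z hz
    rw [h, norm_zero] at this
    linarith
  have hind : ∀ i ≤ m, ind (f i) c R = ind (f 0) c R := by
    intro i
    induction i with
    | zero => intro _; rfl
    | succ i ih =>
      intro hi
      rw [← ih (by omega)]
      symm
      apply ind_eq_of_close (hf i) (hf (i + 1)) hR.le
      intro z hz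
      exact (hstep i (by omega) z hz).trans_le (hlow (i + 1) hi z hz)
  have hsq' : ind (fun z => f 0 z * f 0 z) c R = ind (f m) c R := by
    apply ind_eq_of_close ((hf 0).mul (hf 0)) (hf m) hR.le
    intro z hz
    exact (hsq z hz).trans_le (hlow m le_rfl z hz)
  have h2 : ind (fun z => f 0 z * f 0 z) c R = ind (f 0) c R + ind (f 0) c R :=
    ind_mul (hf 0) (hf 0) hR.le (hne 0 (Nat.zero_le _)) (hne 0 (Nat.zero_le _))
  have hzero : ind (f 0) c R = 0 := by
    have h3 : ind (f 0) c R + ind (f 0) c R = ind (f 0) c R := by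
      rw [← h2, hsq', hind m le_rfl]
    exact left_eq_add.mp h3.symm
  intro i hi z hz
  have hnz : ∀ z ∈ closedBall c R, f i z ≠ 0 := by
    intro z hz h
    rcases lt_or_eq_of_le (mem_closedBall.mp hz) with h1 | h1
    · exact ind_ne_zero (hf i) (hne i hi) (mem_ball.mpr h1) h (by rw [hind i hi, hzero])
    · exact hne i hi z (mem_sphere.mpr h1) h
  -- maximum principle for the inverse
  have hd : DiffContOnCl ℂ (fun z => (f i z)⁻¹) (ball c R) := by
    apply DifferentiableOn.diffContOnCl
    rw [closure_ball c hR.ne']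
    intro z hz
    exact ((hf i z).inv (hnz z hz)).differentiableWithinAt
  have hmax := Complex.norm_le_of_forall_mem_frontier_norm_le isBounded_ball hd
    (C := β⁻¹) (by
      intro z hz
      rw [frontier_ball c hR.ne'] at hz
      rw [norm_inv]
      exact inv_anti₀ hβ (hlow i hi z hz)) (z := z) (by rw [closure_ball c hR.ne']; exact hz)
  rw [norm_inv] at hmax
  have hpos : 0 < ‖f i z‖ := norm_pos_iff.mpr (hnz z hz)
  exact (inv_le_inv₀ hpos hβ).mp hmax

end Pool.Agent.helper23.CircleIndex
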