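import Mathlib

/-!
# Dirichlet-type transforms of summable families on `ℚ ∩ (0,1)`
-/

open Complex Metric Set Filter Topology

namespace Pool.Agent.helper23.DirTransform

/-- `L c z = ∑ c_r e^{-rz}`. -/
noncomputable def L (c : ℚ → ℂ) (z : ℂ) : ℂ := ∑' r : ℚ, c r * Complex.exp (-(r : ℂ) * z)

/-- Families supported in `(0,1)` and absolutely summable. -/
structure Good (c : ℚ → ℂ) : Prop where
  supp : ∀ r, ¬ (0 < r ∧ r < 1) → c r = 0
  summ : Summable fun r => ‖c r‖

variable {c d : ℚ → ℂ}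

lemma norm_exp_eq (r : ℚ) (z : ℂ) : ‖Complex.exp (-(r : ℂ) * z)‖ = Real.exp (-(r : ℝ) * z.re) := by
  rw [Complex.norm_exp]
  congr 1
  have : (-(r : ℂ) * z) = ((-(r : ℝ) : ℝ) : ℂ) * z := by push_cast; ring
  rw [this, Complex.re_ofReal_mul]

lemma term_bound (hc : Good c) (r : ℚ) (z : ℂ) :
    ‖c r * Complex.exp (-(r : ℂ) * z)‖ ≤ ‖c r‖ * Real.exp ‖z‖ := by
  rw [norm_mul, norm_exp_eq]
  by_cases h : 0 < r ∧ r < 1
  · have h0 : (0 : ℝ) < r := by exact_mod_cast h.1
    have h1 : (r : ℝ) < 1 := by exact_mod_cast h.2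
    gcongr
    have h2 := Complex.abs_re_le_norm z
    have h3 := neg_abs_le z.re
    nlinarith [norm_nonneg z, abs_nonneg z.re]
  · rw [hc.supp r h]; simp

lemma summable_term (hc : Good c) (z : ℂ) :
    Summable fun r : ℚ => c r * Complex.exp (-(r : ℂ) * z) :=
  Summable.of_norm_bounded (hc.summ.mul_right (Real.exp ‖z‖)) (fun r => term_bound hc r z)

lemma term_bound_half (hc : Good c) (r : ℚ) {z : ℂ} (hz : 0 ≤ z.re) :
    ‖c r * Complex.exp (-(r : ℂ) * z)‖ ≤ ‖c r‖ := by
  rw [norm_mul, norm_exp_eq]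
  by_cases h : 0 < r ∧ r < 1
  · have h0 : (0 : ℝ) < r := by exact_mod_cast h.1
    have : Real.exp (-(r : ℝ) * z.re) ≤ 1 := by
      rw [Real.exp_le_one_iff]
      nlinarith
    calc _ ≤ ‖c r‖ * 1 := by gcongr
      _ = _ := mul_one _
  · rw [hc.supp r h]; simp

lemma norm_L_le (hc : Good c) {z : ℂ} (hz : 0 ≤ z.re) : ‖L c z‖ ≤ ∑' r, ‖c r‖ := by
  unfold L
  exact tsum_of_norm_bounded hc.summ.hasSum (fun r => term_bound_half hc r hz)

lemma norm_L_le_exp (hc : Good c) (z : ℂ) : ‖L c z‖ ≤ (∑' r, ‖c r‖) * Real.exp ‖z‖ := by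
  unfold L
  exact tsum_of_norm_bounded (hc.summ.hasSum.mul_right _) (fun r => term_bound hc r z)

lemma differentiable_L (hc : Good c) : Differentiable ℂ (L c) := by
  intro z
  have h := differentiableOn_tsum_of_summable_norm (F := fun (r : ℚ) (z : ℂ) =>
    c r * Complex.exp (-(r : ℂ) * z)) (u := fun r => ‖c r‖ * Real.exp (‖z‖ + 1))
    (U := ball (0 : ℂ) (‖z‖ + 1)) (hc.summ.mul_right _)
    (fun r => by fun_prop) isOpen_ball (by
      intro r w hw
      rw [mem_ball_zero_iff] at hw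
      refine (term_bound hc r w).trans ?_
      gcongr)
  have hz : z ∈ ball (0 : ℂ) (‖z‖ + 1) := by rw [mem_ball_zero_iff]; linarith
  exact (h z hz).differentiableAt (isOpen_ball.mem_nhds hz)

lemma good_sub (hc : Good c) (hd : Good d) : Good (fun r => c r - d r) where
  supp r h := by rw [hc.supp r h, hd.supp r h, sub_zero]
  summ := by
    refine Summable.of_nonneg_of_le (fun r => norm_nonneg _) (fun r => norm_sub_le _ _)
      (hc.summ.add hd.summ)

lemma L_sub (hc : Good c) (hd : Good d) (z : ℂ) : L (fun r => c r - d r) z = L c z - L d z := by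
  unfold L
  rw [← (summable_term hc z).tsum_sub (summable_term hd z)]
  congr 1
  ext r
  ring

lemma norm_L_sub_le (hc : Good c) (hd : Good d) {z : ℂ} (hz : 0 ≤ z.re) :
    ‖L c z - L d z‖ ≤ ∑' r, ‖c r - d r‖ := by
  rw [← L_sub hc hd]
  exact norm_L_le (good_sub hc hd) hz

/-- Averages of powers of a unimodular number different from `1` tend to `0`. -/
lemma tendsto_average {w : ℂ} (hw : ‖w‖ = 1) (hw1 : w ≠ 1) :
    Tendsto (fun n : ℕ => (n : ℂ)⁻¹ * ∑ k ∈ Finset.range n, w ^ k) atTop (𝓝 0) := by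
  have hpos : 0 < ‖w - 1‖ := norm_pos_iff.mpr (sub_ne_zero.mpr hw1)
  apply squeeze_zero_norm (a := fun n : ℕ => (n : ℝ)⁻¹ * (2 / ‖w - 1‖))
  · intro n
    rw [norm_mul, norm_inv, Complex.norm_natCast]
    gcongr
    rw [geom_sum_eq hw1, norm_div]
    gcongr
    calc ‖w ^ n - 1‖ ≤ ‖w ^ n‖ + ‖(1 : ℂ)‖ := norm_sub_le _ _
      _ = 2 := by rw [norm_pow, hw, one_pow, norm_one]; norm_num
  · have := (tendsto_inv_atTop_nhds_zero_nat (𝕜 := ℝ)).mul_const (2 / ‖w - 1‖)
    rw [zero_mul] at this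
    exact this

lemma norm_average_le {w : ℂ} (hw : ‖w‖ = 1) (n : ℕ) :
    ‖(n : ℂ)⁻¹ * ∑ k ∈ Finset.range n, w ^ k‖ ≤ 1 := by
  rcases Nat.eq_zero_or_pos n with rfl | hn
  · simp
  have hn' : (0 : ℝ) < n := by exact_mod_cast hn
  rw [norm_mul, norm_inv, Complex.norm_natCast]
  calc (n : ℝ)⁻¹ * ‖∑ k ∈ Finset.range n, w ^ k‖
      ≤ (n : ℝ)⁻¹ * ∑ k ∈ Finset.range n, ‖w ^ k‖ := by gcongr; exact norm_sum_le _ _
    _ = (n : ℝ)⁻¹ * n := by simp [norm_pow, hw]
    _ = 1 := by field_simp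

/-- Coefficient extraction by discrete averages. -/
lemma tendsto_coeff (hc : Good c) (r₀ : ℚ) (hr0 : 0 < r₀ ∧ r₀ < 1) {x : ℝ} (hx : 0 ≤ x) :
    Tendsto (fun n : ℕ => (n : ℂ)⁻¹ * ∑ k ∈ Finset.range n,
      L c (x + k * I) * Complex.exp ((r₀ : ℂ) * (k * I))) atTop
      (𝓝 (c r₀ * Complex.exp (-(r₀ : ℂ) * x))) := by
  set w : ℚ → ℂ := fun r => Complex.exp (-((r : ℂ) - r₀) * I) with hw
  have hwn : ∀ r, ‖w r‖ = 1 := by
    intro r
    simp only [hw]
    have : -((r : ℂ) - r₀) * I = ((-((r : ℝ) - r₀) : ℝ) : ℂ) * I := by push_cast; ring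
    rw [this, Complex.norm_exp_ofReal_mul_I]
  have hrew : ∀ n : ℕ, (n : ℂ)⁻¹ * ∑ k ∈ Finset.range n,
      L c (x + k * I) * Complex.exp ((r₀ : ℂ) * (k * I)) =
      ∑' r : ℚ, (c r * Complex.exp (-(r : ℂ) * x)) *
        ((n : ℂ)⁻¹ * ∑ k ∈ Finset.range n, (w r) ^ k) := by
    intro n
    have h1 : ∀ k : ℕ, L c (x + k * I) * Complex.exp ((r₀ : ℂ) * (k * I)) =
        ∑' r : ℚ, (c r * Complex.exp (-(r : ℂ) * x)) * (w r) ^ k := by
      intro k
      unfold L
      rw [← tsum_mul_right]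
      congr 1
      ext r
      simp only [hw]
      rw [← Complex.exp_nat_mul, mul_assoc, mul_assoc, ← Complex.exp_add, ← Complex.exp_add]
      congr 2
      ring
    simp_rw [h1]
    rw [← Summable.tsum_finsetSum]
    · rw [← tsum_mul_left]
      congr 1
      ext r
      rw [← Finset.mul_sum]
      ring
    · intro k _
      apply Summable.of_norm_bounded hc.summ
      intro r
      rw [norm_mul, norm_pow, hwn, one_pow, mul_one]
      exact term_bound_half hc r (by simpa using hx)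
  simp_rw [hrew]
  have hlim : (c r₀ * Complex.exp (-(r₀ : ℂ) * x)) =
      ∑' r : ℚ, (c r * Complex.exp (-(r : ℂ) * x)) * (if r = r₀ then 1 else 0) := by
    rw [tsum_eq_single r₀]
    · simp
    · intro r hr
      simp [hr]
  rw [hlim]
  apply tendsto_tsum_of_dominated_convergence (bound := fun r => ‖c r‖) hc.summ
  · intro r
    apply Tendsto.const_mul
    by_cases hr : r = r₀
    · subst hr
      simp only [if_true]
      apply tendsto_const_nhds.congr'
      filter_upwards [eventually_gt_atTop 0] with n hn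
      have : w r = 1 := by simp [hw]
      rw [this]
      have hn' : (n : ℂ) ≠ 0 := by exact_mod_cast hn.ne'
      simp [hn']
    · simp only [hr, if_false]
      apply tendsto_average (hwn r)
      intro h1
      simp only [hw] at h1
      rw [Complex.exp_eq_one_iff] at h1
      obtain ⟨m, hm⟩ := h1
      have h2 : (-((r : ℂ) - r₀)) = m * (2 * Real.pi) := by
        have h3 : (-((r : ℂ) - r₀)) * I = (m * (2 * Real.pi)) * I := by rw [hm]; ring
        exact mul_right_cancel₀ I_ne_zero h3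
      have h4 : (-((r : ℝ) - r₀)) = m * (2 * Real.pi) := by exact_mod_cast h2
      by_cases hm0 : m = 0
      · rw [hm0] at h4
        have h5 : (r : ℝ) = r₀ := by push_cast at h4; linarith
        exact hr (by exact_mod_cast h5)
      · have hirr := irrational_pi
        apply hirr
        refine ⟨-(r - r₀) / (2 * m), ?_⟩
        have hm0' : (m : ℝ) ≠ 0 := by exact_mod_cast hm0
        push_cast
        field_simp
        linarith
  · filter_upwards with n r
    rw [norm_mul]
    calc _ ≤ ‖c r‖ * 1 := by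
          gcongr
          · exact term_bound_half hc r (by simpa using hx)
          · exact norm_average_le (hwn r) n
      _ = _ := mul_one _

end Pool.Agent.helper23.DirTransform
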