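import Mathlib
import Pool.Agent.helper23.DirTransform

/-!
# Uniqueness on the real axis, uniformly over all vertical translates
-/

open Complex Metric Set Filter Topology

namespace Pool.Agent.helper23.DirTransform

variable {c d : ℚ → ℂ}

/-- If the transform decays like `e^{-ηs}` on the real axis, then all coefficients below `η`
vanish. -/
lemma coeff_eq_zero_of_decay (hc : Good c) {η N : ℝ}
    (h : ∀ s : ℝ, N ≤ s → ‖L c s‖ ≤ Real.exp (-(η * s))) :
    ∀ r : ℚ, (r : ℝ) < η → c r = 0 := by
  set C : ℝ := ∑' r, ‖c r‖ with hC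
  have hC0 : 0 ≤ C := tsum_nonneg (fun r => norm_nonneg _)
  -- Phragmen-Lindelof
  have hPL : ∀ z : ℂ, 0 ≤ z.re → ‖Complex.exp ((η : ℂ) * z) * L c z‖ ≤ C := by
    intro z hz
    refine PhragmenLindelof.right_half_plane_of_bounded_on_real
      (f := fun z => Complex.exp ((η : ℂ) * z) * L c z) ?_ ?_ ?_ ?_ hz
    · apply Differentiable.diffContOnCl
      exact (by fun_prop : Differentiable ℂ fun z : ℂ => Complex.exp ((η : ℂ) * z)).mul
        (differentiable_L hc)
    · refine ⟨1, by norm_num, |η| + 1, ?_⟩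
      apply Asymptotics.IsBigO.of_bound C
      filter_upwards with w
      rw [norm_mul, Real.rpow_one, Real.norm_of_nonneg (Real.exp_nonneg _)]
      have h1 : ‖Complex.exp ((η : ℂ) * w)‖ ≤ Real.exp (|η| * ‖w‖) := by
        rw [Complex.norm_exp, Complex.re_ofReal_mul]
        apply Real.exp_le_exp.mpr
        calc η * w.re ≤ |η * w.re| := le_abs_self _
          _ = |η| * |w.re| := abs_mul _ _
          _ ≤ |η| * ‖w‖ := by gcongr; exact Complex.abs_re_le_norm w
      calc ‖Complex.exp ((η : ℂ) * w)‖ * ‖L c w‖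
          ≤ Real.exp (|η| * ‖w‖) * (C * Real.exp ‖w‖) := by
            gcongr
            exact norm_L_le_exp hc w
        _ = C * (Real.exp (|η| * ‖w‖) * Real.exp ‖w‖) := by ring
        _ = C * Real.exp ((|η| + 1) * ‖w‖) := by
            rw [← Real.exp_add]; congr 2; ring
    · refine ⟨1, ?_⟩
      rw [Filter.eventually_map]
      filter_upwards [eventually_ge_atTop N] with x hx
      rw [norm_mul]
      have h1 : ‖Complex.exp ((η : ℂ) * (x : ℂ))‖ = Real.exp (η * x) := by
        rw [Complex.norm_exp, Complex.re_ofReal_mul, Complex.ofReal_re]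
      rw [h1]
      calc Real.exp (η * x) * ‖L c x‖ ≤ Real.exp (η * x) * Real.exp (-(η * x)) := by
            gcongr
            exact h x hx
        _ = 1 := by rw [← Real.exp_add]; simp
    · intro x
      rw [norm_mul]
      have h1 : ‖Complex.exp ((η : ℂ) * (x * I))‖ = 1 := by
        have : (η : ℂ) * (x * I) = ((η * x : ℝ) : ℂ) * I := by push_cast; ring
        rw [this, Complex.norm_exp_ofReal_mul_I]
      rw [h1, one_mul]
      exact norm_L_le hc (by simp)
  intro r₀ hr0
  by_cases hs : 0 < r₀ ∧ r₀ < 1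
  swap
  · exact hc.supp r₀ hs
  -- bound on the coefficient
  have hbound : ∀ x : ℝ, 0 ≤ x → ‖c r₀‖ ≤ C * Real.exp (-((η - r₀) * x)) := by
    intro x hx
    have hlim := (tendsto_coeff hc r₀ hs hx).norm
    have hle : ‖c r₀ * Complex.exp (-(r₀ : ℂ) * x)‖ ≤ C * Real.exp (-(η * x)) := by
      apply le_of_tendsto hlim
      filter_upwards [eventually_gt_atTop 0] with n hn
      have hn' : (0 : ℝ) < n := by exact_mod_cast hn
      rw [norm_mul, norm_inv, Complex.norm_natCast]
      calc (n : ℝ)⁻¹ * ‖∑ k ∈ Finset.range n, L c (x + k * I) * Complex.exp ((r₀ : ℂ) * (k * I))‖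
          ≤ (n : ℝ)⁻¹ * ∑ k ∈ Finset.range n, C * Real.exp (-(η * x)) := by
            gcongr
            refine norm_sum_le_of_le _ ?_
            intro k _
            rw [norm_mul]
            have h1 : ‖Complex.exp ((r₀ : ℂ) * (k * I))‖ = 1 := by
              have : (r₀ : ℂ) * (k * I) = (((r₀ : ℝ) * k : ℝ) : ℂ) * I := by push_cast; ring
              rw [this, Complex.norm_exp_ofReal_mul_I]
            rw [h1, mul_one]
            have h2 := hPL (x + k * I) (by simpa using hx)
            rw [norm_mul, Complex.norm_exp, Complex.re_ofReal_mul] at h2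
            have h3 : ((x : ℂ) + k * I).re = x := by simp
            rw [h3] at h2
            calc ‖L c (x + k * I)‖
                = (Real.exp (η * x) * ‖L c (x + k * I)‖) * Real.exp (-(η * x)) := by
                  rw [mul_comm (Real.exp (η * x)), mul_assoc, ← Real.exp_add]; simp
              _ ≤ C * Real.exp (-(η * x)) := by gcongr
        _ = C * Real.exp (-(η * x)) := by
            rw [Finset.sum_const, Finset.card_range, nsmul_eq_mul]
            field_simp
    rw [norm_mul, norm_exp_eq, Complex.ofReal_re] at hle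
    calc ‖c r₀‖ = (‖c r₀‖ * Real.exp (-(r₀ : ℝ) * x)) * Real.exp (r₀ * x) := by
          rw [mul_assoc, ← Real.exp_add]; simp
      _ ≤ (C * Real.exp (-(η * x))) * Real.exp (r₀ * x) := by gcongr
      _ = C * Real.exp (-((η - r₀) * x)) := by
          rw [mul_assoc, ← Real.exp_add]; congr 2; ring
  have hlim : Tendsto (fun x : ℝ => C * Real.exp (-((η - r₀) * x))) atTop (𝓝 0) := by
    have h1 : Tendsto (fun x : ℝ => (η - r₀) * x) atTop atTop :=
      tendsto_id.const_mul_atTop (sub_pos.mpr hr0)
    have h2 := (Real.tendsto_exp_neg_atTop_nhds_zero.comp h1).const_mul C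
    rw [mul_zero] at h2
    exact h2
  have h0 : ‖c r₀‖ ≤ 0 := by
    apply ge_of_tendsto hlim
    filter_upwards [eventually_ge_atTop 0] with x hx
    exact hbound x hx
  exact norm_le_zero_iff.mp h0

/-- Uniform lower bound along all horizontal half-lines. -/
lemma exists_height (hc : Good c) {η : ℝ} {r₀ : ℚ} (hr0 : (r₀ : ℝ) < η) (hne : c r₀ ≠ 0)
    (N : ℝ) : ∃ h : ℝ, N ≤ h ∧ ∀ φ : ℝ, ∃ s : ℝ, N ≤ s ∧ s ≤ h ∧
      Real.exp (-(η * s)) < ‖L c (s + φ * I)‖ := by
  by_contra hcon
  push Not at hcon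
  choose! φ hφ using hcon
  -- ultrafilter limits of the twists
  set U : Ultrafilter ℝ := Ultrafilter.of atTop with hU
  have hUle : (U : Filter ℝ) ≤ atTop := Ultrafilter.of_le atTop
  have hξ : ∀ r : ℚ, ∃ ξ : ℂ, ‖ξ‖ = 1 ∧
      Tendsto (fun h : ℝ => Complex.exp (-(r : ℂ) * (φ h * I))) U (𝓝 ξ) := by
    intro r
    have hcomp := isCompact_sphere (0 : ℂ) 1
    have hmem : ((U.map (fun h : ℝ => Complex.exp (-(r : ℂ) * (φ h * I)))) : Filter ℂ) ≤
        𝓟 (sphere (0 : ℂ) 1) := by
      rw [Filter.le_principal_iff]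
      rw [Ultrafilter.coe_map, Filter.mem_map]
      filter_upwards with h
      simp only [mem_preimage, mem_sphere_iff_norm, sub_zero]
      have : -(r : ℂ) * (φ h * I) = ((-(r : ℝ) * φ h : ℝ) : ℂ) * I := by push_cast; ring
      rw [this, Complex.norm_exp_ofReal_mul_I]
    obtain ⟨ξ, hξ1, hξ2⟩ := isCompact_iff_ultrafilter_le_nhds.mp hcomp _ hmem
    exact ⟨ξ, by simpa using hξ1, hξ2⟩
  choose ξ hξ1 hξ2 using hξ
  set c' : ℚ → ℂ := fun r => c r * ξ r with hc'def
  have hc' : Good c' :=
    { supp := fun r h => by simp only [hc'def]; rw [hc.supp r h, zero_mul]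
      summ := by
        simp only [hc'def, norm_mul, hξ1, mul_one]
        exact hc.summ }
  have hlim : ∀ s : ℝ, Tendsto (fun h : ℝ => L c (s + φ h * I)) U (𝓝 (L c' s)) := by
    intro s
    unfold L
    apply tendsto_tsum_of_dominated_convergence (bound := fun r => ‖c r‖ * Real.exp |s|)
      (hc.summ.mul_right _)
    · intro r
      have h1 : ∀ h : ℝ, c r * Complex.exp (-(r : ℂ) * (s + φ h * I)) =
          c r * Complex.exp (-(r : ℂ) * s) * Complex.exp (-(r : ℂ) * (φ h * I)) := by
        intro h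
        rw [mul_assoc, ← Complex.exp_add]
        congr 2
        ring
      simp_rw [h1]
      have h2 : c' r * Complex.exp (-(r : ℂ) * s) =
          c r * Complex.exp (-(r : ℂ) * s) * ξ r := by
        simp only [hc'def]; ring
      rw [h2]
      exact (hξ2 r).const_mul _
    · filter_upwards with h r
      rw [norm_mul, norm_exp_eq]
      have hre : ((s : ℂ) + φ h * I).re = s := by simp
      rw [hre]
      by_cases hs : 0 < r ∧ r < 1
      · have h0 : (0 : ℝ) < r := by exact_mod_cast hs.1
        have h1 : (r : ℝ) < 1 := by exact_mod_cast hs.2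
        gcongr
        have h3 := neg_abs_le s
        nlinarith [abs_nonneg s]
      · rw [hc.supp r hs]; simp
  have hdecay : ∀ s : ℝ, N ≤ s → ‖L c' s‖ ≤ Real.exp (-(η * s)) := by
    intro s hs
    apply le_of_tendsto (hlim s).norm
    apply hUle
    filter_upwards [eventually_ge_atTop s] with h hh
    exact hφ h (hs.trans hh) s hs hh
  have h0 := coeff_eq_zero_of_decay hc' hdecay r₀ hr0
  simp only [hc'def] at h0
  rcases mul_eq_zero.mp h0 with h1 | h1
  · exact hne h1
  · have := hξ1 r₀
    rw [h1, norm_zero] at this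
    exact zero_ne_one this

/-- The change of variables `(r, q) ↦ (q, r - q)`. -/
def shear : ℚ × ℚ ≃ ℚ × ℚ where
  toFun p := (p.2, p.1 - p.2)
  invFun p := (p.1 + p.2, p.1)
  left_inv p := by
    ext
    · simp
    · simp
  right_inv p := by
    ext
    · simp
    · simp

lemma shear_apply (r q : ℚ) : shear (r, q) = (q, r - q) := rfl

/-- One term of the transform. -/
noncomputable def tm (c : ℚ → ℂ) (z : ℂ) (r : ℚ) : ℂ := c r * Complex.exp (-(r : ℂ) * z)

/-- The terms of the product. -/
noncomputable def prodTerm (c d : ℚ → ℂ) (z : ℂ) (p : ℚ × ℚ) : ℂ := tm c z p.1 * tm d z p.2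

lemma summable_tm_norm (hc : Good c) (z : ℂ) : Summable fun r => ‖tm c z r‖ :=
  (summable_term hc z).norm

lemma L_eq_tm (c : ℚ → ℂ) (z : ℂ) : L c z = ∑' r, tm c z r := rfl

/-- The truncated terms of the product. -/
noncomputable def truncTerm (c d : ℚ → ℂ) (z : ℂ) (p : ℚ × ℚ) : ℂ :=
  if p.1 + p.2 < 1 then prodTerm c d z p else 0

lemma summable_prodTerm (hc : Good c) (hd : Good d) (z : ℂ) : Summable (prodTerm c d z) := by
  have h := summable_mul_of_summable_norm (f := tm c z) (g := tm d z)
    (summable_tm_norm hc z) (summable_tm_norm hd z)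
  exact h

lemma tsum_prodTerm (hc : Good c) (hd : Good d) (z : ℂ) :
    L c z * L d z = ∑' p, prodTerm c d z p := by
  have h := tsum_mul_tsum_of_summable_norm (f := tm c z) (g := tm d z)
    (summable_tm_norm hc z) (summable_tm_norm hd z)
  rw [L_eq_tm, L_eq_tm]
  exact h

lemma summable_truncTerm (hc : Good c) (hd : Good d) (z : ℂ) : Summable (truncTerm c d z) := by
  apply Summable.of_norm_bounded (summable_prodTerm hc hd z).norm
  intro p
  unfold truncTerm
  split_ifs
  · exact le_rfl
  · rw [norm_zero]; exact norm_nonneg _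

lemma tsum_truncTerm {e : ℚ → ℂ} (hc : Good c) (hd : Good d) (he : Good e)
    (hconv : ∀ r : ℚ, 0 < r → r < 1 → e r = ∑' q : ℚ, c q * d (r - q)) (z : ℂ) :
    L e z = ∑' p, truncTerm c d z p := by
  have h1 := shear.tsum_eq (truncTerm c d z)
  have hs2 : Summable fun p : ℚ × ℚ => truncTerm c d z (shear p) := by
    have h2 := (shear.summable_iff (f := truncTerm c d z)).mpr (summable_truncTerm hc hd z)
    exact h2
  rw [← h1, hs2.tsum_prod]
  unfold L
  apply tsum_congr
  intro r
  by_cases hr : 0 < r ∧ r < 1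
  · rw [hconv r hr.1 hr.2, ← tsum_mul_right]
    apply tsum_congr
    intro q
    rw [shear_apply]
    unfold truncTerm prodTerm tm
    rw [if_pos (by simpa using hr.2)]
    have : Complex.exp (-(r : ℂ) * z) =
        Complex.exp (-(q : ℂ) * z) * Complex.exp (-((r - q : ℚ) : ℂ) * z) := by
      rw [← Complex.exp_add]; congr 1; push_cast; ring
    rw [this]
    ring
  · rw [he.supp r hr, zero_mul]
    symm
    rw [← tsum_zero (β := ℚ) (α := ℂ)]
    apply tsum_congr
    intro q
    rw [shear_apply]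
    unfold truncTerm prodTerm tm
    by_cases h1 : r < 1
    · have h0 : r ≤ 0 := by
        by_contra h
        exact hr ⟨lt_of_not_ge h, h1⟩
      by_cases hq : 0 < q
      · have : d (r - q) = 0 := hd.supp _ (by rintro ⟨h2, -⟩; linarith)
        simp [this]
      · have : c q = 0 := hc.supp _ (by rintro ⟨h2, -⟩; exact hq h2)
        simp [this]
    · rw [if_neg (by simpa using h1)]

lemma norm_diff_le (z : ℂ) (hz : 0 ≤ z.re) (p : ℚ × ℚ) :
    ‖prodTerm c d z p - truncTerm c d z p‖ ≤ ‖c p.1‖ * ‖d p.2‖ * Real.exp (-z.re) := by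
  unfold truncTerm
  split_ifs with h
  · rw [sub_self, norm_zero]; positivity
  · rw [sub_zero]
    unfold prodTerm tm
    rw [norm_mul, norm_mul, norm_mul, norm_exp_eq, norm_exp_eq]
    have h1 : (1 : ℝ) ≤ (p.1 : ℝ) + p.2 := by
      have := not_lt.mp h
      exact_mod_cast this
    calc ‖c p.1‖ * Real.exp (-(p.1 : ℝ) * z.re) * (‖d p.2‖ * Real.exp (-(p.2 : ℝ) * z.re))
        = ‖c p.1‖ * ‖d p.2‖ * (Real.exp (-(p.1 : ℝ) * z.re) * Real.exp (-(p.2 : ℝ) * z.re)) := by
          ring
      _ ≤ ‖c p.1‖ * ‖d p.2‖ * Real.exp (-z.re) := by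
          rw [← Real.exp_add]
          gcongr
          nlinarith

/-- The product formula up to the truncation error. -/
lemma norm_mul_sub_le {e : ℚ → ℂ} (hc : Good c) (hd : Good d) (he : Good e)
    (hconv : ∀ r : ℚ, 0 < r → r < 1 → e r = ∑' q : ℚ, c q * d (r - q)) {z : ℂ} (hz : 0 ≤ z.re) :
    ‖L c z * L d z - L e z‖ ≤ (∑' r, ‖c r‖) * (∑' r, ‖d r‖) * Real.exp (-z.re) := by
  rw [tsum_prodTerm hc hd z, tsum_truncTerm hc hd he hconv z,
    ← (summable_prodTerm hc hd z).tsum_sub (summable_truncTerm hc hd z)]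
  have hsum : HasSum (fun p : ℚ × ℚ => ‖c p.1‖ * ‖d p.2‖ * Real.exp (-z.re))
      ((∑' r, ‖c r‖) * (∑' r, ‖d r‖) * Real.exp (-z.re)) := by
    apply HasSum.mul_right
    have h1 : Summable fun p : ℚ × ℚ => ‖c p.1‖ * ‖d p.2‖ :=
      hc.summ.mul_of_nonneg hd.summ (fun _ => norm_nonneg _) (fun _ => norm_nonneg _)
    have h2 := hc.summ.tsum_mul_tsum hd.summ h1
    rw [h2]
    exact h1.hasSum
  exact tsum_of_norm_bounded hsum (norm_diff_le z hz)

end Pool.Agent.helper23.DirTransform
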