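import Mathlib
import Pool.Agent.helper23.DirUniqueness
import Pool.Agent.helper23.BlaschkeInterp
import Pool.Agent.helper23.CircleIndex

/-!
# No continuous real semigroups of summable families on `ℚ ∩ (0,1)`
-/

open Complex Metric Set Filter Topology

namespace Pool.Agent.helper23.NoSemigroup

open Pool.Agent.helper23.DirTransform

/-- A circle of moderate radius around `h + iφ` on which `F` is not small. -/
lemma exists_circle {F : ℂ → ℂ} (hF : Differentiable ℂ F) {A : ℝ} (hA1 : 1 ≤ A)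
    (hA : ∀ z : ℂ, 0 ≤ z.re → ‖F z‖ ≤ A) {h N φ : ℝ} (hN : 100 ≤ N)
    (hNA : 200 * Real.log (A + 2) ≤ N) (hNh : N ≤ h)
    (hs : ∃ s : ℝ, N ≤ s ∧ s ≤ h ∧ Real.exp (-(1 / 100 * s)) < ‖F (s + φ * I)‖) :
    ∃ ρ : ℝ, h / 8 ≤ ρ ∧ ρ ≤ h / 4 ∧
      ∀ z, dist z (h + φ * I) = ρ → Real.exp (-(h / 2)) < ‖F z‖ := by
  obtain ⟨s, hNs, hsh, hlow⟩ := hs
  by_contra hcon
  push Not at hcon
  have hh : 0 < h := by linarith
  have hs0 : 0 < s := by linarith
  set n : ℕ := ⌈h / 20⌉₊ with hn
  have hn1 : h / 20 ≤ n := Nat.le_ceil _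
  have hn2 : (n : ℝ) < h / 20 + 1 := Nat.ceil_lt_add_one (by positivity)
  have hnpos : 0 < n := Nat.ceil_pos.mpr (by positivity)
  have hnpos' : (0 : ℝ) < n := by exact_mod_cast hnpos
  have key := Blaschke.segment_bound (F := F) hF (w := h + φ * I) (h := h) (A := A)
    (ε := Real.exp (-(h / 2))) hh (Real.exp_nonneg _) (by
      intro z hz
      apply hA
      rw [mem_sphere, dist_eq_norm] at hz
      have h1 := Complex.abs_re_le_norm (z - (h + φ * I))
      rw [hz] at h1
      have h2 : (z - ((h : ℂ) + φ * I)).re = z.re - h := by simp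
      rw [h2] at h1
      have := neg_abs_le (z.re - h)
      linarith) hnpos (by
      intro i hi
      have hi' : ((i : ℝ) + 1) ≤ n := by exact_mod_cast hi
      apply hcon
      · have : 0 ≤ h * ((i : ℝ) + 1) / (8 * n) := by positivity
        linarith
      · have : h * ((i : ℝ) + 1) / (8 * n) ≤ h / 8 := by
          rw [div_le_div_iff₀ (by positivity) (by norm_num)]
          nlinarith
        linarith) hs0 hsh
  have hpt : (h : ℂ) + φ * I - h + s = s + φ * I := by ring
  rw [hpt] at key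
  -- estimate the two terms
  have e1 : Real.exp (-(h / 2)) * Real.exp (5 * n) ≤ Real.exp (-(h / 5)) := by
    rw [← Real.exp_add]
    apply Real.exp_le_exp.mpr
    linarith
  have e2 : Real.exp (-(3 / 10) * n * (s / h)) ≤ Real.exp (-(3 / 200 * s)) := by
    apply Real.exp_le_exp.mpr
    have h1 : s / 20 ≤ n * (s / h) := by
      calc s / 20 = (h / 20) * (s / h) := by field_simp
        _ ≤ n * (s / h) := by gcongr
    nlinarith
  have e3 : Real.exp (-(h / 5)) ≤ Real.exp (-(3 / 200 * s)) := by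
    apply Real.exp_le_exp.mpr
    linarith
  have e4 : Real.exp (-(h / 5)) ≤ 1 := by
    rw [Real.exp_le_one_iff]; linarith
  have hA2 : 0 < A + 2 := by linarith
  have e5 : A + 2 ≤ Real.exp (s / 200) := by
    rw [← Real.log_le_iff_le_exp hA2]
    linarith
  have : ‖F (s + φ * I)‖ ≤ Real.exp (-(1 / 100 * s)) := by
    calc ‖F (s + φ * I)‖ ≤ _ := key
      _ ≤ Real.exp (-(h / 5)) + (A + Real.exp (-(h / 5))) * Real.exp (-(3 / 200 * s)) := by
          gcongr
      _ ≤ Real.exp (-(3 / 200 * s)) + (A + 1) * Real.exp (-(3 / 200 * s)) := by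
          gcongr
      _ = (A + 2) * Real.exp (-(3 / 200 * s)) := by ring
      _ ≤ Real.exp (s / 200) * Real.exp (-(3 / 200 * s)) := by gcongr
      _ = Real.exp (-(1 / 100 * s)) := by
          rw [← Real.exp_add]; congr 1; ring
  linarith

lemma tsum_ite_le {f : ℚ → ℝ} (hf : Summable f) {δ : ℝ} (hδ : 0 < δ) :
    ∃ S₀ : Finset ℚ, ∀ S : Finset ℚ, S₀ ⊆ S → ∑' r, (if r ∈ S then 0 else f r) ≤ δ := by
  have h1 := hf.hasSum
  rw [HasSum, SummationFilter.unconditional_filter] at h1
  have h2 := (Metric.tendsto_atTop.mp h1) δ hδ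
  obtain ⟨S₀, hS₀⟩ := h2
  refine ⟨S₀, fun S hS => ?_⟩
  have h3 := hS₀ S hS
  rw [Real.dist_eq] at h3
  have h4 : HasSum (fun r => if r ∈ S then f r else 0) (∑ r ∈ S, f r) := by
    have := hasSum_sum_of_ne_finset_zero (L := SummationFilter.unconditional ℚ)
      (f := fun r => if r ∈ S then f r else 0) (s := S) (fun r hr => by simp [hr])
    convert this using 1
    apply Finset.sum_congr rfl
    intro r hr
    simp [hr]
  have h5 : HasSum (fun r => f r - (if r ∈ S then f r else 0)) (∑' r, f r - ∑ r ∈ S, f r) :=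
    hf.hasSum.sub h4
  have h6 : (fun r => f r - (if r ∈ S then f r else 0)) = fun r => if r ∈ S then 0 else f r := by
    ext r; split_ifs <;> simp
  rw [h6] at h5
  rw [h5.tsum_eq]
  have := neg_abs_le (∑ r ∈ S, f r - ∑' r, f r)
  linarith

/-- Simultaneous approximation by polynomials in `e^{-z/q}` without constant term. -/
lemma exists_poly_approx (m : ℕ) (c : ℕ → ℚ → ℂ) (hc : ∀ i ≤ m, Good (c i)) {δ : ℝ}
    (hδ : 0 < δ) : ∃ q : ℕ, 0 < q ∧ ∃ p : ℕ → ℂ → ℂ, (∀ i, Differentiable ℂ (p i)) ∧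
      (∀ i, p i 0 = 0) ∧
      ∀ i ≤ m, ∀ z : ℂ, 0 ≤ z.re → ‖L (c i) z - p i (Complex.exp (-(z / q)))‖ ≤ δ := by
  classical
  have h1 : ∀ i ≤ m, ∃ S₀ : Finset ℚ, ∀ S : Finset ℚ, S₀ ⊆ S →
      ∑' r, (if r ∈ S then 0 else ‖c i r‖) ≤ δ := fun i hi => tsum_ite_le (hc i hi).summ hδ
  choose! S₀ hS₀ using h1
  set T : Finset ℚ := (Finset.range (m + 1)).biUnion S₀ with hT
  set S : Finset ℚ := T.filter (fun r => 0 < r) with hS
  set q : ℕ := ∏ r ∈ S, r.den with hq
  have hqpos : 0 < q := Finset.prod_pos (fun r _ => r.den_pos)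
  have hdvd : ∀ r ∈ S, r.den ∣ q := fun r hr => Finset.dvd_prod_of_mem _ hr
  have hk : ∀ r ∈ S, ∃ k : ℕ, 1 ≤ k ∧ (k : ℚ) = q * r := by
    intro r hr
    obtain ⟨l, hl⟩ := hdvd r hr
    have hrpos : 0 < r := (Finset.mem_filter.mp hr).2
    have hnum : 0 < r.num := Rat.num_pos.mpr hrpos
    have hlpos : 0 < l := by
      rcases Nat.eq_zero_or_pos l with h | h
      · rw [h, mul_zero] at hl; omega
      · exact h
    refine ⟨l * r.num.toNat, ?_, ?_⟩
    · have : 0 < r.num.toNat := by omega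
      exact Nat.mul_pos hlpos this
    · have h2 : ((r.num.toNat : ℕ) : ℚ) = (r.num : ℚ) := by
        have : ((r.num.toNat : ℤ)) = r.num := Int.toNat_of_nonneg hnum.le
        exact_mod_cast this
      have hden : (r.den : ℚ) ≠ 0 := by exact_mod_cast r.den_ne_zero
      have h3 : r = r.num / r.den := (Rat.num_div_den r).symm
      rw [hl]
      push_cast
      rw [h2]
      have h4 : (r.den : ℚ) * r = r.num := by
        rw [mul_comm]; exact Rat.mul_den_eq_num r
      calc (l : ℚ) * r.num = l * (r.den * r) := by rw [h4]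
        _ = _ := by ring
  choose! k hk1 hk2 using hk
  refine ⟨q, hqpos, fun i y => ∑ r ∈ S, c i r * y ^ (k r), ?_, ?_, ?_⟩
  · intro i
    fun_prop
  · intro i
    apply Finset.sum_eq_zero
    intro r hr
    have := hk1 r hr
    rw [zero_pow (by omega), mul_zero]
  · intro i hi z hz
    -- the truncated family
    set c' : ℚ → ℂ := fun r => if r ∈ T then c i r else 0 with hc'
    have hgood' : Good c' :=
      { supp := by
          intro r hr
          simp only [hc']
          split_ifs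
          · exact (hc i hi).supp r hr
          · rfl
        summ := by
          refine Summable.of_nonneg_of_le (fun r => norm_nonneg _) (fun r => ?_) (hc i hi).summ
          simp only [hc']
          split_ifs
          · exact le_rfl
          · rw [norm_zero]; exact norm_nonneg _ }
    have hLc' : L c' z = ∑ r ∈ S, c i r * (Complex.exp (-(z / q))) ^ (k r) := by
      unfold L
      rw [tsum_eq_sum (s := S)]
      · apply Finset.sum_congr rfl
        intro r hr
        have hrT : r ∈ T := (Finset.mem_filter.mp hr).1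
        simp only [hc', if_pos hrT]
        rw [← Complex.exp_nat_mul]
        congr 2
        have h2 := hk2 r hr
        have h3 : (k r : ℂ) = q * r := by exact_mod_cast h2
        have hq0 : (q : ℂ) ≠ 0 := by exact_mod_cast hqpos.ne'
        rw [h3]
        field_simp
      · intro r hr
        simp only [hc']
        split_ifs with hrT
        · have hr0 : ¬ 0 < r := fun h => hr (Finset.mem_filter.mpr ⟨hrT, h⟩)
          rw [(hc i hi).supp r (fun h => hr0 h.1), zero_mul]
        · rw [zero_mul]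
    change ‖L (c i) z - ∑ r ∈ S, c i r * (Complex.exp (-(z / q))) ^ (k r)‖ ≤ δ
    rw [← hLc']
    refine (norm_L_sub_le (hc i hi) hgood' hz).trans ?_
    have hsub : S₀ i ⊆ T := by
      intro r hr
      rw [hT, Finset.mem_biUnion]
      exact ⟨i, Finset.mem_range.mpr (by omega), hr⟩
    refine le_trans (le_of_eq ?_) (hS₀ i hi T hsub)
    apply tsum_congr
    intro r
    simp only [hc']
    split_ifs <;> simp

/-- A norm continuous semigroup, over the positive reals, of summable families on `ℚ ∩ (0,1)`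
with respect to the truncated convolution. -/
structure Semi (f : ℝ → ℚ → ℂ) : Prop where
  good : ∀ t, 0 < t → Good (f t)
  mul : ∀ s t, 0 < s → 0 < t → ∀ r : ℚ, 0 < r → r < 1 →
    f (s + t) r = ∑' q : ℚ, f s q * f t (r - q)
  cont : ∀ t, 0 < t → Tendsto (fun s => ∑' r, ‖f s r - f t r‖) (𝓝 t) (𝓝 0)

variable {f : ℝ → ℚ → ℂ}

lemma summable_sub (hf : Semi f) {s t : ℝ} (hs : 0 < s) (ht : 0 < t) :
    Summable fun r => ‖f s r - f t r‖ := (good_sub (hf.good s hs) (hf.good t ht)).summ

lemma dist_nonneg' (s t : ℝ) : 0 ≤ ∑' r, ‖f s r - f t r‖ := tsum_nonneg fun _ => norm_nonneg _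

lemma dist_comm' (s t : ℝ) : ∑' r, ‖f s r - f t r‖ = ∑' r, ‖f t r - f s r‖ := by
  apply tsum_congr
  intro r
  rw [norm_sub_rev]

lemma dist_triangle' (hf : Semi f) {s t u : ℝ} (hs : 0 < s) (ht : 0 < t) (hu : 0 < u) :
    ∑' r, ‖f s r - f u r‖ ≤ ∑' r, ‖f s r - f t r‖ + ∑' r, ‖f t r - f u r‖ := by
  rw [← (summable_sub hf hs ht).tsum_add (summable_sub hf ht hu)]
  apply Summable.tsum_le_tsum _ (summable_sub hf hs hu)
    ((summable_sub hf hs ht).add (summable_sub hf ht hu))
  intro r
  calc ‖f s r - f u r‖ = ‖(f s r - f t r) + (f t r - f u r)‖ := by congr 1; ring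
    _ ≤ _ := norm_add_le _ _

lemma norm_le_add (hf : Semi f) {s t : ℝ} (hs : 0 < s) (ht : 0 < t) :
    ∑' r, ‖f s r‖ ≤ ∑' r, ‖f t r‖ + ∑' r, ‖f s r - f t r‖ := by
  rw [← (hf.good t ht).summ.tsum_add (summable_sub hf hs ht)]
  apply Summable.tsum_le_tsum _ (hf.good s hs).summ
    ((hf.good t ht).summ.add (summable_sub hf hs ht))
  intro r
  calc ‖f s r‖ = ‖f t r + (f s r - f t r)‖ := by congr 1; ring
    _ ≤ _ := norm_add_le _ _

lemma exists_bound (hf : Semi f) {a b : ℝ} (ha : 0 < a) :
    ∃ A : ℝ, 1 ≤ A ∧ ∀ t ∈ Icc a b, ∑' r, ‖f t r‖ ≤ A := by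
  have hcont : ContinuousOn (fun t => ∑' r, ‖f t r‖) (Icc a b) := by
    intro t ht
    have htpos : 0 < t := lt_of_lt_of_le ha ht.1
    apply ContinuousAt.continuousWithinAt
    unfold ContinuousAt
    rw [tendsto_iff_dist_tendsto_zero]
    apply squeeze_zero' _ _ (hf.cont t htpos)
    · filter_upwards with s
      exact dist_nonneg
    · filter_upwards [lt_mem_nhds htpos] with s hs
      rw [Real.dist_eq, abs_le]
      have h1 := norm_le_add hf hs htpos
      have h2 := norm_le_add hf htpos hs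
      rw [dist_comm' t s] at h2
      constructor <;> linarith
  obtain ⟨C, hC⟩ := isCompact_Icc.exists_bound_of_continuousOn hcont
  refine ⟨max 1 C, le_max_left _ _, fun t ht => ?_⟩
  have := hC t ht
  rw [Real.norm_eq_abs] at this
  exact ((le_abs_self _).trans this).trans (le_max_right _ _)

/-- Chains with small steps. -/
lemma exists_chain (hf : Semi f) {a b : ℝ} (ha : 0 < a) (hab : a ≤ b) {ε : ℝ} (hε : 0 < ε) :
    ∃ (m : ℕ) (t : ℕ → ℝ), t 0 = a ∧ t m = b ∧ (∀ i, t i ∈ Icc a b) ∧
      ∀ i, ∑' r, ‖f (t i) r - f (t (i + 1)) r‖ < ε := by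
  have hpos : ∀ x : Icc a b, 0 < (x : ℝ) := fun x => lt_of_lt_of_le ha x.2.1
  set c : Icc a b → Set (Icc a b) := fun x => {y | ∑' r, ‖f y r - f x r‖ < ε / 2} with hc
  have hopen : ∀ x, IsOpen (c x) := by
    intro x
    rw [isOpen_iff_mem_nhds]
    intro y hy
    simp only [hc, Set.mem_ofPred_eq] at hy
    have h1 := hf.cont y (hpos y)
    have h2 : ∀ᶠ s in 𝓝 (y : ℝ), ∑' r, ‖f s r - f y r‖ < ε / 2 - ∑' r, ‖f y r - f x r‖ :=
      h1.eventually_lt_const (by linarith)
    have h3 : ∀ᶠ s : Icc a b in 𝓝 y, ∑' r, ‖f (s : ℝ) r - f y r‖ < ε / 2 - ∑' r, ‖f y r - f x r‖ :=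
      continuous_subtype_val.continuousAt.eventually h2
    filter_upwards [h3] with s hs
    simp only [hc, Set.mem_ofPred_eq]
    have := dist_triangle' hf (hpos s) (hpos y) (hpos x)
    linarith
  have hcover : univ ⊆ ⋃ x, c x := by
    intro x _
    rw [mem_iUnion]
    refine ⟨x, ?_⟩
    simp only [hc, Set.mem_ofPred_eq, sub_self, norm_zero, tsum_zero]
    linarith
  obtain ⟨t, ht0, htm, ⟨m, hm⟩, ht⟩ := exists_monotone_Icc_subset_open_cover_Icc hab hopen hcover
  refine ⟨m, fun i => t i, ?_, ?_, fun i => (t i).2, ?_⟩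
  · exact ht0
  · exact hm m le_rfl
  · intro i
    obtain ⟨x, hx⟩ := ht i
    have h1 : t i ∈ c x := hx ⟨le_rfl, htm (Nat.le_succ i)⟩
    have h2 : t (i + 1) ∈ c x := hx ⟨htm (Nat.le_succ i), le_rfl⟩
    simp only [hc, Set.mem_ofPred_eq] at h1 h2
    have h3 := dist_triangle' hf (hpos (t i)) (hpos x) (hpos (t (i + 1)))
    rw [dist_comm' (x : ℝ)] at h3
    linarith

/-- Small exponents occur for small times. -/
lemma exists_small_exponent (hf : Semi f) {t : ℝ} (ht : 0 < t) {r : ℚ} (hr : f t r ≠ 0) (k : ℕ) :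
    ∃ r' : ℚ, r' ≤ r / 2 ^ k ∧ f (t / 2 ^ k) r' ≠ 0 := by
  induction k with
  | zero => exact ⟨r, by simp, by simpa using hr⟩
  | succ k ih =>
    obtain ⟨r', hr', hne⟩ := ih
    have ht' : 0 < t / 2 ^ (k + 1) := by positivity
    have htk : 0 < t / 2 ^ k := by positivity
    have hsupp : 0 < r' ∧ r' < 1 := by
      by_contra h
      exact hne ((hf.good _ htk).supp r' h)
    have hm := hf.mul _ _ ht' ht' r' hsupp.1 hsupp.2
    have heq : t / 2 ^ (k + 1) + t / 2 ^ (k + 1) = t / 2 ^ k := by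
      rw [pow_succ]; field_simp; ring
    rw [heq] at hm
    have hex : ∃ q : ℚ, f (t / 2 ^ (k + 1)) q * f (t / 2 ^ (k + 1)) (r' - q) ≠ 0 := by
      by_contra hcon
      push Not at hcon
      rw [hm] at hne
      apply hne
      simp [hcon]
    obtain ⟨q, hq⟩ := hex
    have h1 := left_ne_zero_of_mul hq
    have h2 := right_ne_zero_of_mul hq
    have hpow : r / 2 ^ (k + 1) = (r / 2 ^ k) / 2 := by rw [pow_succ]; field_simp
    rcases le_total q (r' / 2) with h | h
    · exact ⟨q, by rw [hpow]; linarith, h1⟩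
    · exact ⟨r' - q, by rw [hpow]; linarith, h2⟩

/-- **Main theorem**: there is no nonzero semigroup of this type. -/
theorem semi_eq_zero (hf : Semi f) : ∀ t, 0 < t → ∀ r, f t r = 0 := by
  intro t₁ ht₁ r₁
  by_contra hne1
  -- choice of the base time
  have hr1 : 0 < r₁ ∧ r₁ < 1 := by
    by_contra h
    exact hne1 ((hf.good _ ht₁).supp r₁ h)
  obtain ⟨r₀, hr0, hne0⟩ := exists_small_exponent hf ht₁ hne1 7
  set u : ℝ := t₁ / 2 ^ 7 / 2 with hu
  have hu0 : 0 < u := by positivity
  have h2u : t₁ / 2 ^ 7 = 2 * u := by rw [hu]; ring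
  rw [h2u] at hne0
  have hr0' : (r₀ : ℝ) < 1 / 100 := by
    have h1 : r₀ < 1 / 100 := by
      calc r₀ ≤ r₁ / 2 ^ 7 := hr0
        _ < 1 / 2 ^ 7 := by
            apply div_lt_div_of_pos_right hr1.2 (by positivity)
        _ < 1 / 100 := by norm_num
    have h2 : (r₀ : ℝ) < ((1 / 100 : ℚ) : ℝ) := by exact_mod_cast h1
    simpa using h2
  -- bounds
  obtain ⟨A, hA1, hA⟩ := exists_bound hf (a := u / 2) (b := 2 * u) (by positivity)
  have hA0 : 0 < A := by linarith
  have hgood : ∀ {t}, u / 2 ≤ t → Good (f t) := fun {t} ht => hf.good t (by linarith)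
  have hFA : ∀ {t}, u / 2 ≤ t → t ≤ 2 * u → ∀ z : ℂ, 0 ≤ z.re → ‖L (f t) z‖ ≤ A :=
    fun {t} h1 h2 z hz => (norm_L_le (hgood h1) hz).trans (hA t ⟨h1, h2⟩)
  -- the product formula
  have hprod : ∀ {s t}, u / 2 ≤ s → s ≤ 2 * u → u / 2 ≤ t → t ≤ 2 * u → ∀ z : ℂ, 0 ≤ z.re →
      ‖L (f s) z * L (f t) z - L (f (s + t)) z‖ ≤ A * A * Real.exp (-z.re) := by
    intro s t h1 h2 h3 h4 z hz
    have hs : 0 < s := by linarith
    have ht : 0 < t := by linarith
    refine (norm_mul_sub_le (hf.good s hs) (hf.good t ht) (hf.good (s + t) (by linarith))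
      (hf.mul s t hs ht) hz).trans ?_
    have h5 := hA s ⟨h1, h2⟩
    have h6 := hA t ⟨h3, h4⟩
    gcongr
  -- the height
  set N : ℝ := max 100 (max (200 * Real.log (A + 2)) (4 * Real.log (8 * A ^ 3))) with hN
  obtain ⟨h, hNh, hheight⟩ := exists_height (hf.good (2 * u) (by positivity)) hr0' hne0 N
  have hN1 : 100 ≤ N := le_max_left _ _
  have hN2 : 200 * Real.log (A + 2) ≤ N := (le_max_left _ _).trans (le_max_right _ _)
  have hN3 : 4 * Real.log (8 * A ^ 3) ≤ N := (le_max_right _ _).trans (le_max_right _ _)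
  have hh0 : 0 < h := by linarith
  have hE : 8 * A ^ 3 ≤ Real.exp (h / 4) := by
    rw [← Real.log_le_iff_le_exp (by positivity)]
    linarith
  set β : ℝ := Real.exp (-(h / 2)) / (2 * A) with hβ
  have hβ0 : 0 < β := by positivity
  have hβ1 : β ≤ 1 := by
    rw [hβ, div_le_one (by positivity)]
    have : Real.exp (-(h / 2)) ≤ 1 := by rw [Real.exp_le_one_iff]; linarith
    linarith
  -- smallness of the truncation error
  have herr : A * A * Real.exp (-(3 * h / 4)) ≤ β / 4 := by
    have h1 : Real.exp (-(3 * h / 4)) = Real.exp (-(h / 2)) * Real.exp (-(h / 4)) := by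
      rw [← Real.exp_add]; congr 1; ring
    have h2 : Real.exp (-(h / 4)) = (Real.exp (h / 4))⁻¹ := Real.exp_neg _
    have h3 : 8 * A ^ 3 * Real.exp (-(h / 4)) ≤ 1 := by
      rw [h2]
      exact mul_inv_le_one_of_le₀ hE (Real.exp_nonneg _)
    rw [hβ, div_div, h1, le_div_iff₀ (by positivity)]
    calc A * A * (Real.exp (-(h / 2)) * Real.exp (-(h / 4))) * (2 * A * 4)
        = Real.exp (-(h / 2)) * (8 * A ^ 3 * Real.exp (-(h / 4))) := by ring
      _ ≤ Real.exp (-(h / 2)) * 1 := by gcongr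
      _ = _ := mul_one _
  -- the chain
  obtain ⟨m, t, ht0, htm, htmem, hstep⟩ := exists_chain hf (a := u / 2) (b := u) (by positivity)
    (by linarith) (ε := β / 4) (by positivity)
  have ht1 : ∀ i, u / 2 ≤ t i := fun i => (htmem i).1
  have ht2 : ∀ i, t i ≤ u := fun i => (htmem i).2
  -- lower bound on all vertical points
  have hline : ∀ i ≤ m, ∀ φ : ℝ, β ≤ ‖L (f (t i)) (h + φ * I)‖ := by
    intro i hi φ
    obtain ⟨ρ, hρ1, hρ2, hρ⟩ := exists_circle (F := L (f (2 * u)))
      (differentiable_L (hf.good _ (by positivity))) hA1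
      (hFA (by linarith) le_rfl) hN1 hN2 hNh (hheight φ)
    have hρ0 : 0 < ρ := by linarith
    have hre : ∀ z ∈ sphere ((h : ℂ) + φ * I) ρ, 3 * h / 4 ≤ z.re := by
      intro z hz
      rw [mem_sphere, dist_eq_norm] at hz
      have h1 := Complex.abs_re_le_norm (z - (h + φ * I))
      rw [hz] at h1
      have h2 : (z - ((h : ℂ) + φ * I)).re = z.re - h := by simp
      rw [h2] at h1
      have := neg_abs_le (z.re - h)
      linarith
    have herr' : ∀ z ∈ sphere ((h : ℂ) + φ * I) ρ, A * A * Real.exp (-z.re) ≤ β / 4 := by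
      intro z hz
      refine le_trans ?_ herr
      gcongr
      exact hre z hz
    have hlow : ∀ s, u / 2 ≤ s → s ≤ u → ∀ z ∈ sphere ((h : ℂ) + φ * I) ρ,
        β ≤ ‖L (f s) z‖ := by
      intro s hs1 hs2 z hz
      have hz0 : 0 ≤ z.re := by have := hre z hz; linarith
      have h1 := hprod (s := s) (t := 2 * u - s) hs1 (by linarith) (by linarith) (by linarith)
        z hz0
      rw [show s + (2 * u - s) = 2 * u by ring] at h1
      have h2 := hρ z (mem_sphere.mp hz)
      have h3 := hFA (t := 2 * u - s) (by linarith) (by linarith) z hz0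
      have h4 := herr' z hz
      have h5 : ‖L (f (2 * u)) z‖ ≤ ‖L (f s) z * L (f (2 * u - s)) z‖ +
          ‖L (f s) z * L (f (2 * u - s)) z - L (f (2 * u)) z‖ := by
        calc ‖L (f (2 * u)) z‖ = ‖L (f s) z * L (f (2 * u - s)) z -
              (L (f s) z * L (f (2 * u - s)) z - L (f (2 * u)) z)‖ := by congr 1; ring
          _ ≤ _ := norm_sub_le _ _
      rw [norm_mul] at h5
      have h6 : ‖L (f s) z‖ * ‖L (f (2 * u - s)) z‖ ≤ ‖L (f s) z‖ * A := by gcongr
      have h7 : β * A ≤ ‖L (f s) z‖ * A := by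
        have h8 : β * A = Real.exp (-(h / 2)) / 2 := by rw [hβ]; field_simp
        have h9 : β / 4 ≤ Real.exp (-(h / 2)) / 2 := by
          rw [← h8]
          nlinarith
        linarith
      exact le_of_mul_le_mul_right h7 hA0
    have hchain := CircleIndex.chain_lower_bound (m := m) (fun i => L (f (t i)))
      (fun i => differentiable_L (hgood (ht1 i))) (c := (h : ℂ) + φ * I) (R := ρ) (β := β) hρ0 hβ0
      (fun i _ z hz => hlow (t i) (ht1 i) (ht2 i) z hz)
      (by
        intro i _ z hz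
        have hz0 : 0 ≤ z.re := by have := hre z hz; linarith
        have := norm_L_sub_le (hgood (ht1 i)) (hgood (ht1 (i + 1))) hz0
        have := hstep i
        linarith)
      (by
        intro z hz
        have hz0 : 0 ≤ z.re := by have := hre z hz; linarith
        have h1 := hprod (s := u / 2) (t := u / 2) le_rfl (by linarith) le_rfl (by linarith) z hz0
        rw [show u / 2 + u / 2 = u by ring] at h1
        rw [ht0, htm]
        have := herr' z hz
        linarith)
    exact hchain i hi _ (mem_closedBall_self hρ0.le)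
  -- polynomial approximation
  set δ : ℝ := β / (32 * A) with hδ
  have hδ0 : 0 < δ := by positivity
  have hδA : δ * A = β / 32 := by rw [hδ]; field_simp
  have hδle : δ ≤ β / 32 := by
    rw [← hδA]; nlinarith
  obtain ⟨q, hq, p, hpd, hp0, hp⟩ := exists_poly_approx m (fun i => f (t i))
    (fun i _ => hgood (ht1 i)) hδ0
  have hq' : (0 : ℝ) < q := by exact_mod_cast hq
  have hqC : (q : ℂ) ≠ 0 := by exact_mod_cast hq.ne'
  -- points of the circle
  have hpts : ∀ y ∈ sphere (0 : ℂ) (Real.exp (-(h / q))), ∃ φ : ℝ,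
      y = Complex.exp (-((h + φ * I) / q)) := by
    intro y hy
    rw [mem_sphere_zero_iff_norm] at hy
    refine ⟨-(q * Complex.arg y), ?_⟩
    calc y = (‖y‖ : ℂ) * Complex.exp (Complex.arg y * I) :=
          (Complex.norm_mul_exp_arg_mul_I y).symm
      _ = ((Real.exp (-(h / q)) : ℝ) : ℂ) * Complex.exp (Complex.arg y * I) := by rw [hy]
      _ = _ := by
          push_cast
          rw [← Complex.exp_add]
          congr 1
          field_simp
          ring
  have hfin := CircleIndex.chain_lower_bound (m := m) p hpd (c := 0)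
    (R := Real.exp (-(h / q))) (β := β / 2) (Real.exp_pos _) (by positivity)
    (by
      intro i hi y hy
      obtain ⟨φ, rfl⟩ := hpts y hy
      have h1 := hp i hi (h + φ * I) (by simp; exact hh0.le)
      have h2 := hline i hi φ
      have h3 : ‖L (f (t i)) (h + φ * I)‖ ≤ ‖p i (Complex.exp (-((h + φ * I) / q)))‖ +
          ‖L (f (t i)) (h + φ * I) - p i (Complex.exp (-((h + φ * I) / q)))‖ := by
        calc ‖L (f (t i)) (h + φ * I)‖ = ‖p i (Complex.exp (-((h + φ * I) / q))) +
              (L (f (t i)) (h + φ * I) - p i (Complex.exp (-((h + φ * I) / q))))‖ := by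
              congr 1; ring
          _ ≤ _ := norm_add_le _ _
      linarith)
    (by
      intro i hi y hy
      obtain ⟨φ, rfl⟩ := hpts y hy
      have hz0 : 0 ≤ ((h : ℂ) + φ * I).re := by simp; exact hh0.le
      have h1 := hp i hi.le (h + φ * I) hz0
      have h2 := hp (i + 1) hi (h + φ * I) hz0
      have h3 := norm_L_sub_le (hgood (ht1 i)) (hgood (ht1 (i + 1))) hz0
      have h4 := hstep i
      set y := Complex.exp (-((h + φ * I) / q)) with hy
      calc ‖p i y - p (i + 1) y‖ = ‖-(L (f (t i)) (h + φ * I) - p i y) +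
            (L (f (t i)) (h + φ * I) - L (f (t (i + 1))) (h + φ * I)) +
            (L (f (t (i + 1))) (h + φ * I) - p (i + 1) y)‖ := by congr 1; ring
        _ ≤ ‖-(L (f (t i)) (h + φ * I) - p i y)‖ +
            ‖(L (f (t i)) (h + φ * I) - L (f (t (i + 1))) (h + φ * I))‖ +
            ‖(L (f (t (i + 1))) (h + φ * I) - p (i + 1) y)‖ := norm_add₃_le
        _ < β / 2 := by rw [norm_neg]; linarith)
    (by
      intro y hy
      obtain ⟨φ, rfl⟩ := hpts y hy
      have hz0 : 0 ≤ ((h : ℂ) + φ * I).re := by simp; exact hh0.le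
      have h1 := hp 0 (Nat.zero_le _) (h + φ * I) hz0
      have h2 := hp m le_rfl (h + φ * I) hz0
      have h3 := hprod (s := u / 2) (t := u / 2) le_rfl (by linarith) le_rfl (by linarith) _ hz0
      rw [show u / 2 + u / 2 = u by ring] at h3
      have h4 : A * A * Real.exp (-((h : ℂ) + φ * I).re) ≤ β / 4 := by
        refine le_trans ?_ herr
        gcongr
        simp
        linarith
      set y := Complex.exp (-((h + φ * I) / q)) with hy
      simp only [ht0, htm] at h1 h2
      have h5 := hFA (t := u / 2) le_rfl (by linarith) _ hz0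
      have h6 : ‖p 0 y‖ ≤ A + δ := by
        calc ‖p 0 y‖ = ‖L (f (u / 2)) (h + φ * I) - (L (f (u / 2)) (h + φ * I) - p 0 y)‖ := by
              congr 1; ring
          _ ≤ ‖L (f (u / 2)) (h + φ * I)‖ + ‖L (f (u / 2)) (h + φ * I) - p 0 y‖ :=
              norm_sub_le _ _
          _ ≤ A + δ := add_le_add h5 h1
      calc ‖p 0 y * p 0 y - p m y‖ =
            ‖-((L (f (u / 2)) (h + φ * I) - p 0 y) * (L (f (u / 2)) (h + φ * I) + p 0 y)) +
            (L (f (u / 2)) (h + φ * I) * L (f (u / 2)) (h + φ * I) - L (f u) (h + φ * I)) +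
            (L (f u) (h + φ * I) - p m y)‖ := by congr 1; ring
        _ ≤ ‖-((L (f (u / 2)) (h + φ * I) - p 0 y) * (L (f (u / 2)) (h + φ * I) + p 0 y))‖ +
            ‖L (f (u / 2)) (h + φ * I) * L (f (u / 2)) (h + φ * I) - L (f u) (h + φ * I)‖ +
            ‖L (f u) (h + φ * I) - p m y‖ := norm_add₃_le
        _ ≤ δ * (A + (A + δ)) + β / 4 + δ := by
            rw [norm_neg, norm_mul]
            gcongr
            · exact (norm_add_le _ _).trans (add_le_add h5 h6)
            · exact h3.trans h4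
        _ < β / 2 := by
            have h7 : δ * δ ≤ δ := by nlinarith
            nlinarith)
  have hcontra := hfin 0 (Nat.zero_le _) 0 (mem_closedBall_self (Real.exp_nonneg _))
  rw [hp0, norm_zero] at hcontra
  linarith

end Pool.Agent.helper23.NoSemigroup
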