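import Mathlib
import Pool.Agent.helper23.NoSemigroupCore

/-!
# No continuous real semigroups in weighted `ℓ¹(ℚ⁺, w)`, for weights bounded below near `0`
-/

open Complex Metric Set Filter Topology

namespace Pool.Agent.helper23.NoSemigroup

open Pool.Agent.helper23.DirTransform

/-- Truncation and rescaling of an element of weighted `ℓ¹(ℚ⁺)`. -/
noncomputable def trunc (n : ℕ) (a : ℚ → ℂ) (r : ℚ) : ℂ := if 0 < r ∧ r < 1 then a (r / n) else 0

lemma trunc_supp (n : ℕ) (a : ℚ → ℂ) (r : ℚ) (h : ¬ (0 < r ∧ r < 1)) : trunc n a r = 0 := if_neg h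

/-- Multiplication by `n` on the rationals. -/
def scale (n : ℕ) (hn : 0 < n) : ℚ ≃ ℚ where
  toFun r := r / n
  invFun r := r * n
  left_inv r := by
    have : (n : ℚ) ≠ 0 := by exact_mod_cast hn.ne'
    field_simp
  right_inv r := by
    have : (n : ℚ) ≠ 0 := by exact_mod_cast hn.ne'
    field_simp

lemma scale_apply (n : ℕ) (hn : 0 < n) (r : ℚ) : scale n hn r = r / n := rfl

variable {w : ℚ → ℝ} {c : ℝ} {n : ℕ}

lemma norm_trunc_le (hn : 0 < n) (hc : 0 < c) (hw0 : ∀ r, 0 ≤ w r)
    (hw : ∀ r : ℚ, 0 < r → r < 1 / n → c ≤ w r) (a b : ℚ → ℂ) (r : ℚ) :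
    ‖trunc n a r - trunc n b r‖ ≤ c⁻¹ * (‖a (r / n) - b (r / n)‖ * w (r / n)) := by
  have hn' : (0 : ℚ) < n := by exact_mod_cast hn
  unfold trunc
  split_ifs with h
  · have h1 : c ≤ w (r / n) := by
      apply hw
      · exact div_pos h.1 hn'
      · exact div_lt_div_of_pos_right h.2 hn'
    rw [inv_mul_eq_div, le_div_iff₀ hc]
    gcongr
  · rw [sub_zero, norm_zero]
    have := hw0 (r / n)
    positivity

lemma good_trunc (hn : 0 < n) (hc : 0 < c) (hw0 : ∀ r, 0 ≤ w r)
    (hw : ∀ r : ℚ, 0 < r → r < 1 / n → c ≤ w r) {a : ℚ → ℂ}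
    (ha : Summable fun r => ‖a r‖ * w r) : Good (trunc n a) where
  supp r h := trunc_supp n a r h
  summ := by
    have h1 : Summable fun r => ‖a (r / n)‖ * w (r / n) := by
      have := ((scale n hn).summable_iff (f := fun r => ‖a r‖ * w r)).mpr ha
      exact this
    refine Summable.of_nonneg_of_le (fun r => norm_nonneg _) (fun r => ?_) (h1.mul_left c⁻¹)
    have := norm_trunc_le hn hc hw0 hw a 0 r
    have h2 : trunc n (0 : ℚ → ℂ) r = 0 := by
      unfold trunc; split_ifs <;> rfl
    rw [h2] at this
    simpa using this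

/-- **Theorem.** Let `w : ℚ → [0,∞)` be bounded below by a positive constant on some interval
`(0,T)`.  Then a norm continuous semigroup over `(0,∞)` in `ℓ¹(ℚ⁺, w)` vanishes identically. -/
theorem no_semigroup_weighted (w : ℚ → ℝ) (hw0 : ∀ r, 0 ≤ w r)
    (hw : ∃ c : ℝ, 0 < c ∧ ∃ T : ℚ, 0 < T ∧ ∀ r : ℚ, 0 < r → r < T → c ≤ w r)
    (a : ℝ → ℚ → ℂ)
    (supp : ∀ t, 0 < t → ∀ r : ℚ, r ≤ 0 → a t r = 0)
    (summ : ∀ t, 0 < t → Summable fun r => ‖a t r‖ * w r)
    (mul : ∀ s t, 0 < s → 0 < t → ∀ r : ℚ, a (s + t) r = ∑' q : ℚ, a s q * a t (r - q))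
    (cont : ∀ t, 0 < t → Tendsto (fun s => ∑' r, ‖a s r - a t r‖ * w r) (𝓝 t) (𝓝 0)) :
    ∀ t, 0 < t → a t = 0 := by
  obtain ⟨c, hc, T, hT, hwT⟩ := hw
  obtain ⟨n, hn⟩ := exists_nat_gt (1 / T)
  have hnpos : 0 < n := by
    have : (0 : ℚ) < n := lt_trans (by positivity) hn
    exact_mod_cast this
  have hn' : (0 : ℚ) < n := by exact_mod_cast hnpos
  have hw : ∀ r : ℚ, 0 < r → r < 1 / n → c ≤ w r := by
    intro r h1 h2
    apply hwT r h1
    refine h2.trans_le ?_
    rw [div_le_iff₀ hn']
    rw [div_lt_iff₀ hT] at hn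
    linarith
  have hsemi : Semi (fun t => trunc n (a t)) :=
    { good := fun t ht => good_trunc hnpos hc hw0 hw (summ t ht)
      mul := by
        intro s t hs ht r hr0 hr1
        have h1 : trunc n (a (s + t)) r = a (s + t) (r / n) := if_pos ⟨hr0, hr1⟩
        rw [h1, mul s t hs ht]
        have h2 := (scale n hnpos).tsum_eq (fun q => a s q * a t (r / n - q))
        rw [← h2]
        apply tsum_congr
        intro q
        rw [scale_apply]
        by_cases hq0 : 0 < q
        · by_cases hqr : q < r
          · have h3 : trunc n (a s) q = a s (q / n) := if_pos ⟨hq0, hqr.trans hr1⟩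
            have h4 : trunc n (a t) (r - q) = a t ((r - q) / n) :=
              if_pos ⟨by linarith, by linarith⟩
            rw [h3, h4, sub_div]
          · have h3 : a t (r / n - q / n) = 0 := by
              apply supp t ht
              rw [← sub_div]
              apply div_nonpos_of_nonpos_of_nonneg _ hn'.le
              linarith
            have h4 : trunc n (a t) (r - q) = 0 := trunc_supp _ _ _ (by
              rintro ⟨h5, -⟩; linarith)
            rw [h3, h4, mul_zero, mul_zero]
        · have h3 : a s (q / n) = 0 := by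
            apply supp s hs
            apply div_nonpos_of_nonpos_of_nonneg _ hn'.le
            linarith
          have h4 : trunc n (a s) q = 0 := trunc_supp _ _ _ (by
            rintro ⟨h5, -⟩; exact hq0 h5)
          rw [h3, h4, zero_mul, zero_mul]
      cont := by
        intro t ht
        have h1 := (cont t ht).const_mul c⁻¹
        rw [mul_zero] at h1
        apply squeeze_zero' _ _ h1
        · filter_upwards with s
          exact tsum_nonneg fun _ => norm_nonneg _
        · filter_upwards [lt_mem_nhds ht] with s hs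
          have h2 : ∑' r, ‖a s r - a t r‖ * w r = ∑' r, ‖a s (r / n) - a t (r / n)‖ * w (r / n) := by
            have := (scale n hnpos).tsum_eq (fun r => ‖a s r - a t r‖ * w r)
            rw [← this]
            rfl
          have h3 : Summable fun r => ‖a s r - a t r‖ * w r := by
            refine Summable.of_nonneg_of_le (fun r => mul_nonneg (norm_nonneg _) (hw0 r))
              (fun r => ?_) ((summ s hs).add (summ t ht))
            rw [← add_mul]
            exact mul_le_mul_of_nonneg_right (norm_sub_le _ _) (hw0 r)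
          have h4 : Summable fun r => ‖a s (r / n) - a t (r / n)‖ * w (r / n) := by
            have := ((scale n hnpos).summable_iff (f := fun r => ‖a s r - a t r‖ * w r)).mpr h3
            exact this
          rw [h2, ← tsum_mul_left]
          apply Summable.tsum_le_tsum _ _ (h4.mul_left _)
          · intro r
            exact norm_trunc_le hnpos hc hw0 hw (a s) (a t) r
          · exact (good_sub (good_trunc hnpos hc hw0 hw (summ s hs))
              (good_trunc hnpos hc hw0 hw (summ t ht))).summ }
  have hzero := semi_eq_zero hsemi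
  -- all coefficients in `(0, 1/n)` vanish
  have hsmall : ∀ t, 0 < t → ∀ r : ℚ, r < 1 / n → a t r = 0 := by
    intro t ht r hr
    by_cases hr0 : 0 < r
    · have h1 := hzero t ht (r * n)
      have h2 : trunc n (a t) (r * n) = a t (r * n / n) := by
        apply if_pos
        refine ⟨by positivity, ?_⟩
        rwa [lt_div_iff₀ hn'] at hr
      have h3 : r * n / n = r := by field_simp
      simp only [h2, h3] at h1
      exact h1
    · exact supp t ht r (not_lt.mp hr0)
  -- bootstrapping
  have hboot : ∀ k : ℕ, ∀ t, 0 < t → ∀ r : ℚ, r < 2 ^ k / n → a t r = 0 := by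
    intro k
    induction k with
    | zero => simpa using hsmall
    | succ k ih =>
      intro t ht r hr
      have hm := mul (t / 2) (t / 2) (by positivity) (by positivity) r
      rw [show t / 2 + t / 2 = t by ring] at hm
      rw [hm]
      have : ∀ q, a (t / 2) q * a (t / 2) (r - q) = 0 := by
        intro q
        by_cases hq : q < 2 ^ k / n
        · rw [ih (t / 2) (by positivity) q hq, zero_mul]
        · rw [ih (t / 2) (by positivity) (r - q), mul_zero]
          have h1 : (2 : ℚ) ^ (k + 1) / n = 2 ^ k / n + 2 ^ k / n := by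
            rw [pow_succ]; ring
          rw [h1] at hr
          push Not at hq
          linarith
      simp [this]
  intro t ht
  ext r
  obtain ⟨k, hk⟩ := pow_unbounded_of_one_lt (r * n) (by norm_num : (1 : ℚ) < 2)
  exact hboot k t ht r (by rwa [lt_div_iff₀ hn'])

end Pool.Agent.helper23.NoSemigroup
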