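import Mathlib

/-!
# The Banach algebra `ℓ¹(ℚ⁺, e^{-t²})`

The elements are functions `f : ℚ → ℂ` vanishing on `(-∞,0]` with `∑ |f r| e^{-r²} < ∞`; the
product is the convolution.
-/

open Filter Topology

namespace Pool.Agent.helper23.WeightedEll1

/-- The weight `e^{-r²}`. -/
noncomputable def wt (r : ℚ) : ℝ := Real.exp (-(r : ℝ) ^ 2)

lemma wt_pos (r : ℚ) : 0 < wt r := Real.exp_pos _

lemma wt_nonneg (r : ℚ) : 0 ≤ wt r := (wt_pos r).le

lemma wt_le_one (r : ℚ) : wt r ≤ 1 := by
  unfold wt
  rw [Real.exp_le_one_iff]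
  nlinarith [sq_nonneg (r : ℝ)]

lemma wt_add_le {r s : ℚ} (hr : 0 ≤ r) (hs : 0 ≤ s) : wt (r + s) ≤ wt r * wt s := by
  unfold wt
  rw [← Real.exp_add]
  apply Real.exp_le_exp.mpr
  have h1 : (0 : ℝ) ≤ r := by exact_mod_cast hr
  have h2 : (0 : ℝ) ≤ s := by exact_mod_cast hs
  push_cast
  nlinarith [mul_nonneg h1 h2]

/-- The underlying space of `ℓ¹(ℚ⁺, e^{-t²})`. -/
def ellSub : Submodule ℂ (ℚ → ℂ) where
  carrier := {f | (∀ r, r ≤ 0 → f r = 0) ∧ Summable fun r => ‖f r‖ * wt r}
  add_mem' := by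
    rintro f g ⟨hf1, hf2⟩ ⟨hg1, hg2⟩
    refine ⟨fun r hr => by simp [hf1 r hr, hg1 r hr], ?_⟩
    refine Summable.of_nonneg_of_le (fun r => mul_nonneg (norm_nonneg _) (wt_nonneg r))
      (fun r => ?_) (hf2.add hg2)
    rw [← add_mul]
    exact mul_le_mul_of_nonneg_right (norm_add_le _ _) (wt_nonneg r)
  zero_mem' := ⟨fun _ _ => rfl, by simp [summable_zero]⟩
  smul_mem' := by
    rintro c f ⟨hf1, hf2⟩
    refine ⟨fun r hr => by simp [hf1 r hr], ?_⟩
    have : (fun r => ‖(c • f) r‖ * wt r) = fun r => ‖c‖ * (‖f r‖ * wt r) := by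
      ext r; rw [Pi.smul_apply, norm_smul, mul_assoc]
    rw [this]
    exact hf2.mul_left _

/-- The space `ℓ¹(ℚ⁺, e^{-t²})`. -/
def Ell : Type := ellSub

instance : AddCommGroup Ell := inferInstanceAs (AddCommGroup ellSub)
instance : Module ℂ Ell := inferInstanceAs (Module ℂ ellSub)

/-- The coefficients of an element. -/
def coef : Ell →ₗ[ℂ] (ℚ → ℂ) := ellSub.subtype

lemma coef_injective : Function.Injective coef := Subtype.val_injective

lemma coef_mem (f : Ell) : (∀ r, r ≤ 0 → coef f r = 0) ∧ Summable fun r => ‖coef f r‖ * wt r :=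
  f.2

lemma coef_supp (f : Ell) {r : ℚ} (hr : r ≤ 0) : coef f r = 0 := (coef_mem f).1 r hr

lemma coef_summable (f : Ell) : Summable fun r => ‖coef f r‖ * wt r := (coef_mem f).2

/-- Constructor. -/
def mk (f : ℚ → ℂ) (h1 : ∀ r, r ≤ 0 → f r = 0) (h2 : Summable fun r => ‖f r‖ * wt r) : Ell :=
  ⟨f, h1, h2⟩

@[simp] lemma coef_mk (f : ℚ → ℂ) (h1 : ∀ r, r ≤ 0 → f r = 0)
    (h2 : Summable fun r => ‖f r‖ * wt r) : coef (mk f h1 h2) = f := rfl

lemma ext' {f g : Ell} (h : ∀ r, coef f r = coef g r) : f = g :=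
  coef_injective (funext h)

noncomputable instance : Norm Ell := ⟨fun f => ∑' r, ‖coef f r‖ * wt r⟩

lemma norm_def (f : Ell) : ‖f‖ = ∑' r, ‖coef f r‖ * wt r := rfl

lemma core : NormedSpace.Core ℂ Ell where
  norm_nonneg f := tsum_nonneg fun r => mul_nonneg (norm_nonneg _) (wt_nonneg r)
  norm_smul c f := by
    rw [norm_def, norm_def, ← tsum_mul_left]
    apply tsum_congr
    intro r
    rw [map_smul, Pi.smul_apply, norm_smul, mul_assoc]
  norm_triangle f g := by
    rw [norm_def, norm_def, norm_def, ← (coef_summable f).tsum_add (coef_summable g)]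
    apply Summable.tsum_le_tsum _ (coef_summable _) ((coef_summable f).add (coef_summable g))
    intro r
    rw [map_add, Pi.add_apply, ← add_mul]
    exact mul_le_mul_of_nonneg_right (norm_add_le _ _) (wt_nonneg r)
  norm_eq_zero_iff f := by
    constructor
    · intro h
      rw [norm_def] at h
      have h1 := (hasSum_zero_iff_of_nonneg
        (fun r => mul_nonneg (norm_nonneg (coef f r)) (wt_nonneg r))).mp
        (by rw [← h]; exact (coef_summable f).hasSum)
      apply ext'
      intro r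
      have h2 := congrFun h1 r
      simp only [Pi.zero_apply] at h2
      rcases mul_eq_zero.mp h2 with h3 | h3
      · rw [norm_eq_zero.mp h3, map_zero]; rfl
      · exact absurd h3 (wt_pos r).ne'
    · rintro rfl
      rw [norm_def]
      simp

noncomputable instance : NormedAddCommGroup Ell := NormedAddCommGroup.ofCore core
noncomputable instance : NormedSpace ℂ Ell := NormedSpace.ofCore core

lemma norm_def' (f : Ell) : ‖f‖ = ∑' r, ‖coef f r‖ * wt r := rfl

/-- The weighted absolute values. -/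
noncomputable def ab (f : Ell) (r : ℚ) : ℝ := ‖coef f r‖ * wt r

lemma ab_nonneg (f : Ell) (r : ℚ) : 0 ≤ ab f r := mul_nonneg (norm_nonneg _) (wt_nonneg r)

lemma ab_summable (f : Ell) : Summable (ab f) := coef_summable f

lemma tsum_ab (f : Ell) : ∑' r, ab f r = ‖f‖ := rfl

lemma ab_le_norm (f : Ell) (r : ℚ) : ab f r ≤ ‖f‖ :=
  (ab_summable f).le_tsum r (fun s _ => ab_nonneg f s)

/-- The change of variables `(r, q) ↦ (q, r - q)`. -/
def shear : ℚ × ℚ ≃ ℚ × ℚ where
  toFun p := (p.2, p.1 - p.2)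
  invFun p := (p.1 + p.2, p.1)
  left_inv p := by
    ext
    · simp
    · simp
  right_inv p := by
    ext
    · simp
    · simp

/-- The product function on `ℚ × ℚ`. -/
noncomputable def pr (F G : ℚ → ℝ) (p : ℚ × ℚ) : ℝ := F p.1 * G p.2

lemma summable_pr (f g : Ell) : Summable (pr (ab f) (ab g)) :=
  (ab_summable f).mul_of_nonneg (ab_summable g) (ab_nonneg f) (ab_nonneg g)

lemma tsum_pr (f g : Ell) : ∑' p, pr (ab f) (ab g) p = ‖f‖ * ‖g‖ := by
  rw [← tsum_ab f, ← tsum_ab g]
  exact ((ab_summable f).tsum_mul_tsum (ab_summable g) (summable_pr f g)).symm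

lemma summable_pr_shear (f g : Ell) :
    Summable fun p : ℚ × ℚ => ab f p.2 * ab g (p.1 - p.2) := by
  have h := (shear.summable_iff (f := pr (ab f) (ab g))).mpr (summable_pr f g)
  exact h

lemma tsum_pr_shear (f g : Ell) :
    ∑' p : ℚ × ℚ, ab f p.2 * ab g (p.1 - p.2) = ‖f‖ * ‖g‖ := by
  rw [← tsum_pr]
  exact shear.tsum_eq (pr (ab f) (ab g))

lemma conv_term_le (f g : Ell) (r q : ℚ) :
    ‖coef f q * coef g (r - q)‖ * wt r ≤ ab f q * ab g (r - q) := by
  rw [norm_mul]
  by_cases h1 : 0 < q
  · by_cases h2 : 0 < r - q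
    · have h3 : wt r ≤ wt q * wt (r - q) := by
        have := wt_add_le h1.le h2.le
        rwa [add_sub_cancel] at this
      unfold ab
      calc ‖coef f q‖ * ‖coef g (r - q)‖ * wt r
          ≤ ‖coef f q‖ * ‖coef g (r - q)‖ * (wt q * wt (r - q)) := by gcongr
        _ = _ := by ring
    · rw [coef_supp g (not_lt.mp h2), norm_zero, mul_zero, zero_mul]
      exact mul_nonneg (ab_nonneg _ _) (ab_nonneg _ _)
  · rw [coef_supp f (not_lt.mp h1), norm_zero, zero_mul, zero_mul]
    exact mul_nonneg (ab_nonneg _ _) (ab_nonneg _ _)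

lemma summable_conv_term (f g : Ell) (r : ℚ) :
    Summable fun q => coef f q * coef g (r - q) := by
  have h1 : Summable fun q => ab f q * ab g (r - q) := (summable_pr_shear f g).prod_factor r
  apply Summable.of_norm_bounded (h1.mul_left (wt r)⁻¹)
  intro q
  rw [inv_mul_eq_div, le_div_iff₀ (wt_pos r)]
  exact conv_term_le f g r q

/-- The convolution of two functions on the rationals. -/
noncomputable def conv (f g : ℚ → ℂ) (r : ℚ) : ℂ := ∑' q, f q * g (r - q)

lemma norm_conv_le (f g : Ell) (r : ℚ) :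
    ‖conv (coef f) (coef g) r‖ * wt r ≤ ∑' q, ab f q * ab g (r - q) := by
  have h1 : Summable fun q => ab f q * ab g (r - q) := (summable_pr_shear f g).prod_factor r
  have hs := summable_conv_term f g r
  calc ‖conv (coef f) (coef g) r‖ * wt r
      ≤ (∑' q, ‖coef f q * coef g (r - q)‖) * wt r := by
        apply mul_le_mul_of_nonneg_right _ (wt_nonneg r)
        exact norm_tsum_le_tsum_norm hs.norm
    _ = ∑' q, ‖coef f q * coef g (r - q)‖ * wt r := by rw [tsum_mul_right]
    _ ≤ _ := Summable.tsum_le_tsum (fun q => conv_term_le f g r q) (hs.norm.mul_right _) h1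

lemma summable_conv (f g : Ell) : Summable fun r => ‖conv (coef f) (coef g) r‖ * wt r := by
  refine Summable.of_nonneg_of_le (fun r => mul_nonneg (norm_nonneg _) (wt_nonneg r))
    (fun r => norm_conv_le f g r) ?_
  exact (summable_pr_shear f g).prod

noncomputable instance : Mul Ell := ⟨fun f g => mk (conv (coef f) (coef g)) (by
  intro r hr
  unfold conv
  rw [← tsum_zero (β := ℚ) (α := ℂ)]
  apply tsum_congr
  intro q
  by_cases hq : q ≤ 0
  · rw [coef_supp f hq, zero_mul]
  · rw [coef_supp g (by linarith), mul_zero]) (summable_conv f g)⟩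

lemma coef_mul (f g : Ell) (r : ℚ) : coef (f * g) r = ∑' q, coef f q * coef g (r - q) := rfl

lemma norm_mul_le' (f g : Ell) : ‖f * g‖ ≤ ‖f‖ * ‖g‖ := by
  rw [← tsum_pr_shear, (summable_pr_shear f g).tsum_prod, norm_def']
  exact Summable.tsum_le_tsum (fun r => norm_conv_le f g r) (summable_conv f g)
    (summable_pr_shear f g).prod

lemma mul_comm' (f g : Ell) : f * g = g * f := by
  apply ext'
  intro r
  rw [coef_mul, coef_mul, ← (Equiv.subLeft r).tsum_eq]
  apply tsum_congr
  intro q
  rw [Equiv.subLeft_apply, sub_sub_cancel, mul_comm]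

lemma left_distrib' (f g h : Ell) : f * (g + h) = f * g + f * h := by
  apply ext'
  intro r
  rw [coef_mul, map_add, map_add, Pi.add_apply, coef_mul, coef_mul,
    ← (summable_conv_term f g r).tsum_add (summable_conv_term f h r)]
  apply tsum_congr
  intro q
  rw [Pi.add_apply, mul_add]

lemma smul_mul' (c : ℂ) (f g : Ell) : (c • f) * g = c • (f * g) := by
  apply ext'
  intro r
  rw [coef_mul, map_smul, map_smul, Pi.smul_apply, coef_mul, smul_eq_mul, ← tsum_mul_left]
  apply tsum_congr
  intro q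
  rw [Pi.smul_apply, smul_eq_mul, mul_assoc]

/-- The triple product terms. -/
noncomputable def triple (f g h : Ell) (r : ℚ) (p : ℚ × ℚ) : ℂ :=
  coef f p.2 * coef g (p.1 - p.2) * coef h (r - p.1)

lemma triple_le (f g h : Ell) (r : ℚ) (p : ℚ × ℚ) :
    ‖triple f g h r p‖ ≤ (wt r)⁻¹ * ‖h‖ * (ab f p.2 * ab g (p.1 - p.2)) := by
  unfold triple
  have h1 := conv_term_le f g p.1 p.2
  have h0 : (wt r)⁻¹ * ‖h‖ * (ab f p.2 * ab g (p.1 - p.2)) =
      (‖h‖ * (ab f p.2 * ab g (p.1 - p.2))) / wt r := by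
    rw [div_eq_inv_mul]; ring
  rw [h0, le_div_iff₀ (wt_pos r), norm_mul]
  by_cases hp : p.1 ≤ 0
  · have : coef f p.2 * coef g (p.1 - p.2) = 0 := by
      by_cases hq : p.2 ≤ 0
      · rw [coef_supp f hq, zero_mul]
      · rw [coef_supp g (by linarith), mul_zero]
    rw [this, norm_zero, zero_mul, zero_mul]
    exact mul_nonneg (norm_nonneg _) (mul_nonneg (ab_nonneg _ _) (ab_nonneg _ _))
  · by_cases hs : r - p.1 ≤ 0
    · rw [coef_supp h hs, norm_zero, mul_zero, zero_mul]
      exact mul_nonneg (norm_nonneg _) (mul_nonneg (ab_nonneg _ _) (ab_nonneg _ _))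
    · have h3 : wt r ≤ wt p.1 * wt (r - p.1) := by
        have := wt_add_le (not_le.mp hp).le (not_le.mp hs).le
        rwa [add_sub_cancel] at this
      calc ‖coef f p.2 * coef g (p.1 - p.2)‖ * ‖coef h (r - p.1)‖ * wt r
          ≤ ‖coef f p.2 * coef g (p.1 - p.2)‖ * ‖coef h (r - p.1)‖ * (wt p.1 * wt (r - p.1)) := by
            gcongr
        _ = (‖coef f p.2 * coef g (p.1 - p.2)‖ * wt p.1) * ab h (r - p.1) := by
            unfold ab; ring
        _ ≤ (ab f p.2 * ab g (p.1 - p.2)) * ‖h‖ := by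
            apply mul_le_mul h1 (ab_le_norm h _) (ab_nonneg _ _)
              (mul_nonneg (ab_nonneg _ _) (ab_nonneg _ _))
        _ = _ := mul_comm _ _

lemma summable_triple (f g h : Ell) (r : ℚ) : Summable (triple f g h r) :=
  Summable.of_norm_bounded ((summable_pr_shear f g).mul_left _) (triple_le f g h r)

lemma mul_assoc' (f g h : Ell) : f * g * h = f * (g * h) := by
  apply ext'
  intro r
  have h1 : coef (f * g * h) r = ∑' p, ∑' q, triple f g h r (p, q) := by
    rw [coef_mul]
    apply tsum_congr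
    intro p
    rw [coef_mul, ← tsum_mul_right]
    rfl
  have h2 : coef (f * (g * h)) r = ∑' q, ∑' p, triple f g h r (p, q) := by
    rw [coef_mul]
    apply tsum_congr
    intro q
    rw [coef_mul, ← (Equiv.subRight q).tsum_eq, ← tsum_mul_left]
    apply tsum_congr
    intro p
    unfold triple
    simp only [Equiv.subRight_apply]
    rw [show r - q - (p - q) = r - p by ring]
    ring
  rw [h1, h2]
  have h3 : Summable (Function.uncurry fun p q => triple f g h r (p, q)) := by
    have h4 : (Function.uncurry fun p q => triple f g h r (p, q)) = triple f g h r := by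
      ext ⟨p, q⟩; rfl
    rw [h4]
    exact summable_triple f g h r
  exact h3.tsum_comm.symm

noncomputable instance : NonUnitalNormedCommRing Ell where
  left_distrib := left_distrib'
  right_distrib f g h := by rw [mul_comm', left_distrib', mul_comm' h f, mul_comm' h g]
  zero_mul f := by
    have := smul_mul' 0 0 f
    rwa [zero_smul, zero_smul] at this
  mul_zero f := by
    rw [mul_comm']
    have := smul_mul' 0 0 f
    rwa [zero_smul, zero_smul] at this
  mul_assoc := mul_assoc'
  mul_comm := mul_comm'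
  norm_mul_le := norm_mul_le'
  dist_eq := dist_eq_norm_neg_add

instance : IsScalarTower ℂ Ell Ell := ⟨fun c f g => by
  rw [smul_eq_mul, smul_eq_mul]; exact smul_mul' c f g⟩

instance : SMulCommClass ℂ Ell Ell := ⟨fun c f g => by
  rw [smul_eq_mul, smul_eq_mul, mul_comm f, mul_comm f]; exact (smul_mul' c g f).symm⟩

lemma coef_sub (f g : Ell) (r : ℚ) : coef (f - g) r = coef f r - coef g r := by
  rw [map_sub]; rfl

lemma coef_add (f g : Ell) (r : ℚ) : coef (f + g) r = coef f r + coef g r := by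
  rw [map_add]; rfl

lemma coef_smul (c : ℂ) (f : Ell) (r : ℚ) : coef (c • f) r = c * coef f r := by
  rw [map_smul]; rfl

/-! ### Completeness -/

/-- The embedding into the unweighted `ℓ¹`. -/
noncomputable def emb (f : Ell) : lp (fun _ : ℚ => ℂ) 1 :=
  ⟨fun r => coef f r * wt r, by
    apply memℓp_gen
    simp only [ENNReal.toReal_one, Real.rpow_one]
    have := coef_summable f
    refine this.congr (fun r => ?_)
    rw [norm_mul, Complex.norm_real, Real.norm_of_nonneg (wt_nonneg r)]⟩

lemma emb_apply (f : Ell) (r : ℚ) : emb f r = coef f r * wt r := rfl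

lemma norm_emb_sub (f g : Ell) : ‖emb f - emb g‖ = ‖f - g‖ := by
  rw [lp.norm_eq_tsum_rpow (by norm_num), norm_def']
  simp only [ENNReal.toReal_one, Real.rpow_one, div_one]
  apply tsum_congr
  intro r
  rw [lp.coeFn_sub, Pi.sub_apply, emb_apply, emb_apply, coef_sub, ← sub_mul, norm_mul,
    Complex.norm_real, Real.norm_of_nonneg (wt_nonneg r)]

lemma isometry_emb : Isometry emb := by
  apply Isometry.of_dist_eq
  intro f g
  rw [dist_eq_norm, dist_eq_norm, norm_emb_sub]

lemma range_emb : Set.range emb = {g | ∀ r : ℚ, r ≤ 0 → g r = 0} := by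
  ext g
  constructor
  · rintro ⟨f, rfl⟩ r hr
    rw [emb_apply, coef_supp f hr, zero_mul]
  · intro hg
    have hsum : Summable fun r => ‖g r‖ := by
      have := (lp.memℓp g).summable (by norm_num)
      simpa using this
    refine ⟨mk (fun r => g r / wt r) (fun r hr => by rw [hg r hr, zero_div]) ?_, ?_⟩
    · refine hsum.congr (fun r => ?_)
      rw [norm_div, Complex.norm_real, Real.norm_of_nonneg (wt_nonneg r),
        div_mul_cancel₀ _ (wt_pos r).ne']
    · apply Subtype.ext
      funext r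
      change g r / wt r * wt r = g r
      have : (wt r : ℂ) ≠ 0 := by exact_mod_cast (wt_pos r).ne'
      field_simp

lemma isClosed_range_emb : IsClosed (Set.range emb) := by
  rw [range_emb]
  have : {g : lp (fun _ : ℚ => ℂ) 1 | ∀ r : ℚ, r ≤ 0 → g r = 0} =
      ⋂ r : ℚ, ⋂ (_ : r ≤ 0), {g | g r = 0} := by
    ext g; simp
  rw [this]
  apply isClosed_iInter
  intro r
  apply isClosed_iInter
  intro _
  apply isClosed_eq _ continuous_const
  have h := (lp.uniformContinuous_coe (E := fun _ : ℚ => ℂ) (p := 1)).continuous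
  exact (continuous_apply r).comp h

instance : CompleteSpace Ell := by
  rw [completeSpace_iff_isComplete_range isometry_emb.isUniformInducing]
  exact isClosed_range_emb.isComplete

/-! ### The monomials `X^r` -/

/-- The monomial `X^r`; by convention it is `0` for `r ≤ 0`. -/
noncomputable def X (r : ℚ) : Ell :=
  mk (fun q => if q = r ∧ 0 < r then 1 else 0)
    (by
      intro q hq
      rw [if_neg]
      rintro ⟨rfl, h⟩
      linarith)
    (by
      apply summable_of_ne_finset_zero (s := {r})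
      intro q hq
      rw [if_neg, norm_zero, zero_mul]
      rintro ⟨rfl, h⟩
      exact hq (Finset.mem_singleton_self _))

lemma coef_X (r q : ℚ) : coef (X r) q = if q = r ∧ 0 < r then 1 else 0 := rfl

lemma coef_X_self {r : ℚ} (hr : 0 < r) : coef (X r) r = 1 := by
  rw [coef_X, if_pos ⟨rfl, hr⟩]

lemma coef_X_of_ne {r q : ℚ} (h : q ≠ r) : coef (X r) q = 0 := by
  rw [coef_X, if_neg]
  rintro ⟨h1, -⟩
  exact h h1

lemma norm_X {r : ℚ} (hr : 0 < r) : ‖X r‖ = wt r := by
  rw [norm_def', tsum_eq_single r]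
  · rw [coef_X_self hr, norm_one, one_mul]
  · intro q hq
    rw [coef_X_of_ne hq, norm_zero, zero_mul]

lemma X_mul_X {r s : ℚ} (hr : 0 < r) (hs : 0 < s) : X r * X s = X (r + s) := by
  apply ext'
  intro q
  rw [coef_mul, tsum_eq_single r]
  · rw [coef_X_self hr, one_mul]
    by_cases h : q = r + s
    · subst h
      rw [coef_X_self (by positivity), add_sub_cancel_left, coef_X_self hs]
    · rw [coef_X_of_ne h, coef_X_of_ne]
      intro h2
      apply h
      linarith
  · intro p hp
    rw [coef_X_of_ne hp, zero_mul]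

lemma X_ne_zero {r : ℚ} (hr : 0 < r) : X r ≠ 0 := by
  intro h
  have := norm_X hr
  rw [h, norm_zero] at this
  exact (wt_pos r).ne this

/-- Finite sums of monomials are dense. -/
lemma exists_finset_approx (f : Ell) {ε : ℝ} (hε : 0 < ε) :
    ∃ S : Finset ℚ, (∀ r ∈ S, 0 < r) ∧ ‖f - ∑ r ∈ S, coef f r • X r‖ < ε := by
  classical
  have h1 := (coef_summable f).hasSum
  rw [HasSum, SummationFilter.unconditional_filter] at h1
  obtain ⟨T, hT⟩ := (Metric.tendsto_atTop.mp h1) ε hε
  set S := T.filter (fun r => 0 < r) with hS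
  refine ⟨S, fun r hr => (Finset.mem_filter.mp hr).2, ?_⟩
  have hcoef : ∀ q, coef (f - ∑ r ∈ S, coef f r • X r) q = if q ∈ S then 0 else coef f q := by
    intro q
    rw [coef_sub, map_sum, Finset.sum_apply]
    split_ifs with hq
    · rw [Finset.sum_eq_single q]
      · rw [coef_smul, coef_X_self (Finset.mem_filter.mp hq).2, mul_one, sub_self]
      · intro r _ hr
        rw [coef_smul, coef_X_of_ne (Ne.symm hr), mul_zero]
      · intro h; exact absurd hq h
    · rw [Finset.sum_eq_zero, sub_zero]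
      intro r hr
      rw [coef_smul, coef_X_of_ne, mul_zero]
      rintro rfl
      exact hq hr
  have hsumS : ∑ r ∈ T, ‖coef f r‖ * wt r = ∑ r ∈ S, ‖coef f r‖ * wt r := by
    rw [hS, Finset.sum_filter]
    apply Finset.sum_congr rfl
    intro r _
    split_ifs with h
    · rfl
    · rw [coef_supp f (not_lt.mp h), norm_zero, zero_mul]
  have h4 : HasSum (fun r => if r ∈ S then ‖coef f r‖ * wt r else 0)
      (∑ r ∈ S, ‖coef f r‖ * wt r) := by
    have := hasSum_sum_of_ne_finset_zero (L := SummationFilter.unconditional ℚ)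
      (f := fun r => if r ∈ S then ‖coef f r‖ * wt r else 0) (s := S)
      (fun r hr => by simp [hr])
    convert this using 1
    apply Finset.sum_congr rfl
    intro r hr
    simp [hr]
  have h5 := (coef_summable f).hasSum.sub h4
  rw [norm_def']
  have h6 : (fun q => ‖coef (f - ∑ r ∈ S, coef f r • X r) q‖ * wt q) =
      fun q => ‖coef f q‖ * wt q - (if q ∈ S then ‖coef f q‖ * wt q else 0) := by
    ext q
    rw [hcoef]
    split_ifs <;> simp
  rw [h6, h5.tsum_eq, ← hsumS]
  have h7 := hT T le_rfl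
  rw [Real.dist_eq] at h7
  have := neg_abs_le (∑ r ∈ T, ‖coef f r‖ * wt r - ∑' r, ‖coef f r‖ * wt r)
  linarith

end Pool.Agent.helper23.WeightedEll1
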