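import Mathlib
import Pool.Agent.helper23.WeightedEll1

/-!
# `ℓ¹(ℚ⁺, e^{-t²})` is radical and has dense principal ideals
-/

open Filter Topology

namespace Pool.Agent.helper23.WeightedEll1

/-- The unitization with the `ℓ¹` norm. -/
abbrev Uni : Type := WithLp 1 (Unitization ℂ Ell)

noncomputable instance : NormedCommRing Uni :=
  { (inferInstance : NormedRing Uni) with
    mul_comm := by
      intro x y
      apply (WithLp.equiv 1 (Unitization ℂ Ell)).injective
      change WithLp.ofLp x * WithLp.ofLp y = WithLp.ofLp y * WithLp.ofLp x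
      exact mul_comm _ _ }

/-- The embedding of the algebra into its unitization. -/
noncomputable def inc (x : Ell) : Uni := WithLp.toLp 1 (x : Unitization ℂ Ell)

lemma inc_mul (x y : Ell) : inc (x * y) = inc x * inc y := by
  unfold inc
  apply (WithLp.equiv 1 (Unitization ℂ Ell)).injective
  change ((x * y : Ell) : Unitization ℂ Ell) = (x : Unitization ℂ Ell) * (y : Unitization ℂ Ell)
  exact Unitization.inr_mul ℂ x y

lemma inc_add (x y : Ell) : inc (x + y) = inc x + inc y := by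
  unfold inc
  rw [Unitization.inr_add]
  rfl

lemma inc_smul (c : ℂ) (x : Ell) : inc (c • x) = c • inc x := by
  unfold inc
  rw [Unitization.inr_smul]
  rfl

lemma norm_inc (x : Ell) : ‖inc x‖ = ‖x‖ := WithLp.unitization_norm_inr x

lemma X_pow_eval (χ : Uni →ₐ[ℂ] ℂ) {r : ℚ} (hr : 0 < r) (n : ℕ) :
    χ (inc (X r)) ^ (n + 1) = χ (inc (X ((n + 1) * r))) := by
  induction n with
  | zero => simp
  | succ n ih =>
    rw [pow_succ, ih, ← map_mul, ← inc_mul, X_mul_X (by positivity) hr]
    congr 3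
    push_cast
    ring

lemma char_X_eq_zero (χ : Uni →ₐ[ℂ] ℂ) {r : ℚ} (hr : 0 < r) : χ (inc (X r)) = 0 := by
  by_contra hne
  set m : ℝ := ‖χ (inc (X r))‖ with hm
  have hmpos : 0 < m := norm_pos_iff.mpr hne
  set C : ℝ := ‖(1 : Uni)‖ with hC
  have hbound : ∀ n : ℕ, m ^ (n + 1) ≤ Real.exp (-((n + 1) * r : ℝ) ^ 2) * C := by
    intro n
    have h1 := AlgHom.norm_apply_le_self_mul_norm_one χ (inc (X ((n + 1) * r)))
    rw [norm_inc, norm_X (by positivity), ← X_pow_eval χ hr n, norm_pow] at h1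
    have h2 : wt ((n + 1) * r) = Real.exp (-((n + 1) * r : ℝ) ^ 2) := by
      unfold wt
      push_cast
      rfl
    rw [h2] at h1
    exact h1
  have hr' : (0 : ℝ) < r := by exact_mod_cast hr
  have ht1 : Tendsto (fun n : ℕ => m * Real.exp (((n : ℝ) + 1) * r ^ 2)) atTop atTop := by
    apply Tendsto.const_mul_atTop hmpos
    apply Real.tendsto_exp_atTop.comp
    apply Tendsto.atTop_mul_const (by positivity)
    exact tendsto_atTop_add_const_right _ _ tendsto_natCast_atTop_atTop
  have ht2 : Tendsto (fun n : ℕ => (2 : ℝ) ^ (n + 1)) atTop atTop := by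
    exact (tendsto_pow_atTop_atTop_of_one_lt (by norm_num)).comp (tendsto_add_atTop_nat 1)
  obtain ⟨n, h1, h2⟩ := ((ht1.eventually_ge_atTop 2).and (ht2.eventually_gt_atTop C)).exists
  have h3 := hbound n
  have h4 : (m * Real.exp (((n : ℝ) + 1) * r ^ 2)) ^ (n + 1) ≤ C := by
    rw [mul_pow, ← Real.exp_nat_mul]
    calc m ^ (n + 1) * Real.exp (((n + 1 : ℕ) : ℝ) * (((n : ℝ) + 1) * r ^ 2))
        ≤ (Real.exp (-((n + 1) * r : ℝ) ^ 2) * C) *
            Real.exp (((n + 1 : ℕ) : ℝ) * (((n : ℝ) + 1) * r ^ 2)) := by gcongr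
      _ = C * (Real.exp (-((n + 1) * r : ℝ) ^ 2) *
            Real.exp (((n + 1 : ℕ) : ℝ) * (((n : ℝ) + 1) * r ^ 2))) := by ring
      _ = C := by
          rw [← Real.exp_add]
          have : (-((n + 1) * r : ℝ) ^ 2 + ((n + 1 : ℕ) : ℝ) * (((n : ℝ) + 1) * r ^ 2)) = 0 := by
            push_cast; ring
          rw [this, Real.exp_zero, mul_one]
  have h5 : (2 : ℝ) ^ (n + 1) ≤ (m * Real.exp (((n : ℝ) + 1) * r ^ 2)) ^ (n + 1) := by
    gcongr
  linarith

lemma char_eq_zero (χ : Uni →ₐ[ℂ] ℂ) (x : Ell) : χ (inc x) = 0 := by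
  have hsum : ∀ (S : Finset ℚ), (∀ r ∈ S, 0 < r) → χ (inc (∑ r ∈ S, coef x r • X r)) = 0 := by
    classical
    intro S
    induction S using Finset.induction_on with
    | empty =>
      intro _
      rw [Finset.sum_empty]
      have : inc 0 = 0 := by
        have := inc_smul 0 0
        rwa [zero_smul, zero_smul] at this
      rw [this, map_zero]
    | insert a S ha ih =>
      intro h
      rw [Finset.sum_insert ha, inc_add, map_add, inc_smul, map_smul,
        char_X_eq_zero χ (h a (Finset.mem_insert_self a S)), smul_zero, zero_add]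
      exact ih (fun r hr => h r (Finset.mem_insert_of_mem hr))
  have hle : ∀ ε : ℝ, 0 < ε → ‖χ (inc x)‖ ≤ ε * ‖(1 : Uni)‖ := by
    intro ε hε
    obtain ⟨S, hS, hn⟩ := exists_finset_approx x hε
    have h1 : x = (x - ∑ r ∈ S, coef x r • X r) + ∑ r ∈ S, coef x r • X r := by abel
    rw [h1, inc_add, map_add, hsum S hS, add_zero]
    refine (AlgHom.norm_apply_le_self_mul_norm_one χ _).trans ?_
    rw [norm_inc]
    gcongr
  by_contra hne
  have hpos : 0 < ‖χ (inc x)‖ := norm_pos_iff.mpr hne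
  have h1 := hle (‖χ (inc x)‖ / (2 * (‖(1 : Uni)‖ + 1))) (by positivity)
  have h2 : ‖χ (inc x)‖ / (2 * (‖(1 : Uni)‖ + 1)) * ‖(1 : Uni)‖ ≤ ‖χ (inc x)‖ / 2 := by
    rw [div_mul_eq_mul_div, div_le_div_iff₀ (by positivity) (by norm_num)]
    nlinarith [norm_nonneg (1 : Uni)]
  linarith

/-- The spectrum of every element is contained in `{0}`. -/
lemma spectrum_eq_zero (x : Ell) {z : ℂ} (hz : z ∈ spectrum ℂ (x : Unitization ℂ Ell)) : z = 0 := by
  have h1 : spectrum ℂ (inc x) = spectrum ℂ (x : Unitization ℂ Ell) :=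
    (AlgEquiv.spectrum_eq (WithLp.unitizationAlgEquiv (𝕜 := ℂ) (A := Ell) ℂ) (inc x)).symm
  rw [← h1] at hz
  obtain ⟨f, hf⟩ := WeakDual.CharacterSpace.mem_spectrum_iff_exists.mp hz
  rw [← hf]
  exact char_eq_zero (WeakDual.CharacterSpace.toAlgHom f) x

/-- The algebra is radical. -/
theorem spectralRadius_eq_zero (x : Ell) : spectralRadius ℂ (x : Unitization ℂ Ell) = 0 := by
  unfold spectralRadius
  simp only [ENNReal.iSup_eq_zero]
  intro z hz
  rw [spectrum_eq_zero x hz]
  simp

/-- Every element has a quasi-inverse. -/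
lemma exists_quasi_inverse (y : Ell) : ∃ z : Ell, y + z + y * z = 0 := by
  have h1 : (-1 : ℂ) ∉ spectrum ℂ (y : Unitization ℂ Ell) := by
    intro h
    have := spectrum_eq_zero y h
    norm_num at this
  rw [spectrum.notMem_iff] at h1
  have h2 : IsUnit ((1 : Unitization ℂ Ell) + y) := by
    have h3 : algebraMap ℂ (Unitization ℂ Ell) (-1) - (y : Unitization ℂ Ell) =
        -((1 : Unitization ℂ Ell) + y) := by
      rw [map_neg, map_one]; ring
    rw [h3] at h1
    exact (IsUnit.neg_iff _).mp h1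
  obtain ⟨u, hu⟩ := h2.exists_right_inv
  have hfst : u.toProd.1 = 1 := by
    have := congrArg (fun v : Unitization ℂ Ell => v.toProd.1) hu
    simpa using this
  refine ⟨u.toProd.2, ?_⟩
  have hsnd := congrArg (fun v : Unitization ℂ Ell => v.toProd.2) hu
  simp [hfst, add_mul] at hsnd
  rw [← hsnd]
  abel

/-! ### Dense principal ideals -/

/-- The set of elements whose principal ideal comes close to `X^{1/(n+1)}`. -/
def good (p : ℕ × ℕ) : Set Ell :=
  {b | ∃ x : Ell, ‖b * x - X (1 / ((p.1 : ℚ) + 1))‖ < 1 / ((p.2 : ℝ) + 1)}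

lemma isOpen_good (p : ℕ × ℕ) : IsOpen (good p) := by
  have : good p = ⋃ x : Ell, {b | ‖b * x - X (1 / ((p.1 : ℚ) + 1))‖ < 1 / ((p.2 : ℝ) + 1)} := by
    ext b; simp [good]
  rw [this]
  apply isOpen_iUnion
  intro x
  apply isOpen_lt _ continuous_const
  fun_prop

lemma dense_good (p : ℕ × ℕ) : Dense (good p) := by
  intro c
  rw [Metric.mem_closure_iff]
  intro ε hε
  obtain ⟨S, hS, hn⟩ := exists_finset_approx c (half_pos hε)
  -- a small exponent
  obtain ⟨s, hs0, hs1, hsS⟩ : ∃ s : ℚ, 0 < s ∧ s < 1 / ((p.1 : ℚ) + 1) ∧ ∀ r ∈ S, s < r := by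
    have h1 : ∃ s : ℚ, 0 < s ∧ ∀ r ∈ S, s < r := by
      by_cases hne : S.Nonempty
      · refine ⟨S.min' hne / 2, ?_, ?_⟩
        · have := hS _ (S.min'_mem hne)
          positivity
        · intro r hr
          have h2 := S.min'_le r hr
          have h3 := hS _ (S.min'_mem hne)
          linarith
      · refine ⟨1, one_pos, ?_⟩
        intro r hr
        exact absurd ⟨r, hr⟩ hne
    obtain ⟨s, h2, h3⟩ := h1
    refine ⟨min s (1 / ((p.1 : ℚ) + 1) / 2), lt_min h2 (by positivity), ?_, ?_⟩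
    · refine (min_le_right _ _).trans_lt ?_
      have : (0 : ℚ) < 1 / ((p.1 : ℚ) + 1) := by positivity
      linarith
    · intro r hr
      exact (min_le_left _ _).trans_lt (h3 r hr)
  set δ : ℝ := ε / 4 with hδ
  have hδ0 : 0 < δ := by positivity
  have hδC : (δ : ℂ) ≠ 0 := by exact_mod_cast hδ0.ne'
  set y : Ell := (δ : ℂ)⁻¹ • ∑ r ∈ S, coef c r • X (r - s) with hy
  set b : Ell := ∑ r ∈ S, coef c r • X r + (δ : ℂ) • X s with hb
  have hby : b = (δ : ℂ) • (X s + X s * y) := by
    rw [hb, hy, mul_smul_comm, smul_add, smul_smul, mul_inv_cancel₀ hδC, one_smul, add_comm,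
      Finset.mul_sum]
    congr 1
    apply Finset.sum_congr rfl
    intro r hr
    rw [mul_smul_comm, X_mul_X hs0 (sub_pos.mpr (hsS r hr)), add_sub_cancel]
  obtain ⟨z, hz⟩ := exists_quasi_inverse y
  refine ⟨b, ?_, ?_⟩
  · set t : ℚ := 1 / ((p.1 : ℚ) + 1) - s with ht
    have ht0 : 0 < t := sub_pos.mpr hs1
    refine ⟨(δ : ℂ)⁻¹ • (X t + X t * z), ?_⟩
    have h1 : b * ((δ : ℂ)⁻¹ • (X t + X t * z)) = X (1 / ((p.1 : ℚ) + 1)) := by
      rw [hby, smul_mul_smul_comm, mul_inv_cancel₀ hδC, one_smul]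
      have h2 : (X s + X s * y) * (X t + X t * z) =
          X s * X t + X s * X t * (y + z + y * z) := by
        simp only [mul_add, add_mul]
        have e1 : X s * y * X t = X s * X t * y := by
          rw [mul_assoc, mul_comm y, ← mul_assoc]
        have e2 : X s * y * (X t * z) = X s * X t * (y * z) := by
          rw [mul_assoc, mul_left_comm y, ← mul_assoc]
        rw [e1, e2, ← mul_assoc (X s) (X t) z]
        abel
      rw [h2, hz, mul_zero, add_zero, X_mul_X hs0 ht0, ht, add_sub_cancel]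
    rw [h1, sub_self, norm_zero]
    positivity
  · rw [dist_eq_norm]
    have h1 : c - b = (c - ∑ r ∈ S, coef c r • X r) - (δ : ℂ) • X s := by
      rw [hb]; abel
    rw [h1]
    calc ‖(c - ∑ r ∈ S, coef c r • X r) - (δ : ℂ) • X s‖
        ≤ ‖c - ∑ r ∈ S, coef c r • X r‖ + ‖(δ : ℂ) • X s‖ := norm_sub_le _ _
      _ ≤ ‖c - ∑ r ∈ S, coef c r • X r‖ + δ * 1 := by
          rw [norm_smul, Complex.norm_real, Real.norm_of_nonneg hδ0.le, norm_X hs0]
          gcongr
          exact wt_le_one s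
      _ < ε / 2 + ε / 4 := by
          rw [mul_one]; linarith
      _ ≤ ε := by linarith

/-- There is an element generating a dense principal ideal. -/
theorem exists_dense_ideal : ∃ b : Ell, ∀ y : Ell, y ∈ closure (Set.range fun x => b * x) := by
  have hd : Dense (⋂ p, good p) := dense_iInter_of_isOpen isOpen_good dense_good
  obtain ⟨b, hb⟩ := hd.nonempty
  rw [Set.mem_iInter] at hb
  have hX : ∀ n : ℕ, X (1 / ((n : ℚ) + 1)) ∈ closure (Set.range fun x => b * x) := by
    intro n
    rw [Metric.mem_closure_range_iff]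
    intro ε hε
    obtain ⟨k, hk⟩ := exists_nat_one_div_lt hε
    obtain ⟨x, hx⟩ := hb (n, k)
    refine ⟨x, ?_⟩
    rw [dist_comm, dist_eq_norm]
    exact hx.trans hk
  refine ⟨b, ?_⟩
  set M : Submodule ℂ Ell := (LinearMap.range (LinearMap.mulLeft ℂ b)).topologicalClosure with hM
  have hMmem : ∀ y, y ∈ M ↔ y ∈ closure (Set.range fun x => b * x) := by
    intro y
    rw [hM, ← SetLike.mem_coe, Submodule.topologicalClosure_coe]
    rfl
  have hMclosed : IsClosed (M : Set Ell) := Submodule.isClosed_topologicalClosure _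
  have hmul : ∀ y ∈ M, ∀ z, y * z ∈ M := by
    intro y hy z
    rw [hMmem] at hy ⊢
    refine map_mem_closure (f := fun y => y * z) (by fun_prop) hy ?_
    rintro _ ⟨x, rfl⟩
    exact ⟨x * z, (mul_assoc b x z).symm⟩
  have hXr : ∀ r : ℚ, 0 < r → X r ∈ M := by
    intro r hr
    obtain ⟨n, hn⟩ := exists_nat_one_div_lt hr
    have h1 : X r = X (1 / ((n : ℚ) + 1)) * X (r - 1 / ((n : ℚ) + 1)) := by
      rw [X_mul_X (by positivity) (sub_pos.mpr hn), add_sub_cancel]
    rw [h1]
    apply hmul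
    rw [hMmem]
    exact hX n
  intro y
  rw [← hMmem]
  have h2 : y ∈ closure (M : Set Ell) := by
    rw [Metric.mem_closure_iff]
    intro ε hε
    obtain ⟨S, hS, hn⟩ := exists_finset_approx y hε
    refine ⟨∑ r ∈ S, coef y r • X r, ?_, ?_⟩
    · apply Submodule.sum_mem
      intro r hr
      exact Submodule.smul_mem _ _ (hXr r (hS r hr))
    · rw [dist_eq_norm]; exact hn
  rwa [hMclosed.closure_eq] at h2

/-- There is a nonzero `b` in the closure of `b² R`. -/
theorem exists_mem_closure_sq :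
    ∃ b : Ell, b ≠ 0 ∧ b ∈ closure (Set.range fun x => b * b * x) := by
  obtain ⟨b, hb⟩ := exists_dense_ideal
  refine ⟨b, ?_, ?_⟩
  · rintro rfl
    have h1 := hb (X 1)
    have h2 : (Set.range fun x : Ell => 0 * x) ⊆ {0} := by
      rintro _ ⟨x, rfl⟩
      simp
    have h3 := closure_mono h2 h1
    rw [closure_singleton, Set.mem_singleton_iff] at h3
    exact X_ne_zero one_pos h3
  · have h1 : b ∈ closure (closure (Set.range fun x => b * b * x)) := by
      rw [Metric.mem_closure_iff]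
      intro ε hε
      obtain ⟨y, ⟨x, rfl⟩, hy⟩ := Metric.mem_closure_iff.mp (hb b) ε hε
      refine ⟨b * x, ?_, hy⟩
      refine map_mem_closure (f := fun y => b * y) (by fun_prop) (hb x) ?_
      rintro _ ⟨z, rfl⟩
      exact ⟨z, mul_assoc b b z⟩
    rwa [closure_closure] at h1

end Pool.Agent.helper23.WeightedEll1
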