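import Mathlib

/-!
# Continuous horizontally rigid functions of any number of variables are affine

Let `f : ℝⁿ → ℝ` be continuous and suppose that for a set `C` of positive ratios `c` having `0`
in its closure the graph of `x ↦ f (c x)` is isometric (in `ℝⁿ⁺¹`) to the graph of `f`. Then `f`
is affine.

Idea of the proof. Write `e` for the vertical unit vector, `F (x, t) = t - f x`, `G = {F = 0}` for
the graph and let `K` be the recession cone of the epigraph of `f`. For `γ = 1 / c` the hypothesis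
gives an affine map with linear part `O D`, `O` orthogonal and `D = stretch e γ`
(`D e = e`, `D x = γ x` for horizontal `x`), that preserves `G`; it preserves or exchanges the two
sides of `G`, so `± O D` preserves `K`. Letting `γ → ∞` and using compactness of the orthogonal
group, `K` is an orthogonal product of a ray and another cone. Transporting this splitting by
`O D` and passing to the limit once more shows that, modulo the lineality space `W` of `K`, the
vertical ray `ℝ₊ e` is a direct factor of `K` (`exists_split_e`). Direct factors that are close to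
each other are equal modulo `W`, so for suitable `j` and many `k → ∞` the symmetry
`g_j⁻¹ g_k` of `G` preserves `W + ℝ e` and acts on its orthogonal complement `X` as a similarity
of ratio `γ_k / γ_j → ∞`, while heights are multiplied by bounded factors `a_k`. This forces the
restriction of `f` to `X` to be constant (`Sim.const_of_tendsto`), and `f` is affine.
-/

open Filter Topology
open scoped RealInnerProductSpace

namespace Pool.Agent.helper23.HRigid

section Abstract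

variable {V : Type*} [NormedAddCommGroup V] [InnerProductSpace ℝ V]

/-- The linear map that multiplies the vectors orthogonal to `e` by `γ` and fixes the unit
vector `e`. -/
def stretch (e : V) (γ : ℝ) : V →ₗ[ℝ] V where
  toFun v := γ • v + ((1 - γ) * ⟪e, v⟫) • e
  map_add' u v := by
    simp only [inner_add_right, smul_add, mul_add, add_smul]; abel
  map_smul' c v := by
    simp only [inner_smul_right, RingHom.id_apply, smul_add, smul_smul]
    congr 1
    · rw [mul_comm]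
    · congr 1; ring

lemma stretch_apply (e : V) (γ : ℝ) (v : V) :
    stretch e γ v = γ • v + ((1 - γ) * ⟪e, v⟫) • e := rfl

variable {e : V} (he : ‖e‖ = 1)

include he in
lemma inner_self_one : ⟪e, e⟫ = 1 := by
  rw [real_inner_self_eq_norm_sq, he]; norm_num

include he in
lemma inner_stretch (γ : ℝ) (v : V) : ⟪e, stretch e γ v⟫ = ⟪e, v⟫ := by
  rw [stretch_apply, inner_add_right, inner_smul_right, inner_smul_right, inner_self_one he]; ring

include he in
lemma stretch_stretch (γ δ : ℝ) (v : V) :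
    stretch e γ (stretch e δ v) = stretch e (γ * δ) v := by
  rw [stretch_apply e γ, inner_stretch he, stretch_apply, stretch_apply, smul_add, smul_smul,
    smul_smul, add_assoc, ← add_smul]
  congr 2; ring

lemma stretch_one (v : V) : stretch e 1 v = v := by
  simp [stretch_apply]

include he in
lemma stretch_inv_stretch {γ : ℝ} (hγ : γ ≠ 0) (v : V) :
    stretch e γ⁻¹ (stretch e γ v) = v := by
  rw [stretch_stretch he, inv_mul_cancel₀ hγ, stretch_one]

include he in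
lemma stretch_stretch_inv {γ : ℝ} (hγ : γ ≠ 0) (v : V) :
    stretch e γ (stretch e γ⁻¹ v) = v := by
  rw [stretch_stretch he, mul_inv_cancel₀ hγ, stretch_one]

include he in
lemma stretch_self (γ : ℝ) : stretch e γ e = e := by
  rw [stretch_apply, inner_self_one he, mul_one, ← add_smul]; simp

lemma stretch_of_orthogonal (γ : ℝ) {v : V} (hv : ⟪e, v⟫ = 0) : stretch e γ v = γ • v := by
  rw [stretch_apply, hv]; simp

lemma stretch_symm (γ : ℝ) (u v : V) : ⟪stretch e γ u, v⟫ = ⟪u, stretch e γ v⟫ := by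
  simp only [stretch_apply, inner_add_left, inner_add_right, inner_smul_left, inner_smul_right,
    real_inner_comm e u]
  simp; ring

/-- The directions in which `F` is non-decreasing: for `F (x, t) = t - f x` this is the
recession cone of the epigraph of `f`. -/
def Rec (F : V → ℝ) : Set V := {v | ∀ u : V, ∀ r : ℝ, 0 ≤ r → F u ≤ F (u + r • v)}

/-- Closed convex cones. -/
structure CC (K : Set V) : Prop where
  closed : IsClosed K
  zero : (0 : V) ∈ K
  add : ∀ u ∈ K, ∀ v ∈ K, u + v ∈ K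
  smul : ∀ v ∈ K, ∀ s : ℝ, 0 ≤ s → s • v ∈ K

lemma rec_cc {F : V → ℝ} (hF : Continuous F) : CC (Rec F) where
  closed := by
    have : Rec F = ⋂ (u : V) (r : ℝ) (_ : 0 ≤ r), {v | F u ≤ F (u + r • v)} := by
      ext v; simp [Rec]
    rw [this]
    refine isClosed_iInter fun u => isClosed_iInter fun r => isClosed_iInter fun _ => ?_
    exact isClosed_le continuous_const (by fun_prop)
  zero := by
    intro u r _; simp
  add := by
    intro v hv w hw u r hr
    have h1 := hv u r hr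
    have h2 := hw (u + r • v) r hr
    rw [smul_add, ← add_assoc]
    exact h1.trans h2
  smul := by
    intro v hv s hs u r hr
    have := hv u (r * s) (mul_nonneg hr hs)
    rwa [smul_smul]

section Fun

variable {F : V → ℝ} (hF : Continuous F) (hFe : ∀ v s, F (v + s • e) = F v + s)

include hFe in
lemma e_mem_rec : e ∈ Rec F := by
  intro u r hr; rw [hFe]; linarith

include hFe in
lemma nonneg_of_smul_e_mem {t : ℝ} (h : t • e ∈ Rec F) : 0 ≤ t := by
  have := h 0 1 zero_le_one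
  rw [smul_smul, hFe] at this; linarith

include hFe in
lemma mem_rec_iff (v : V) :
    v ∈ Rec F ↔ ∀ u, F u = 0 → ∀ r : ℝ, 0 ≤ r → 0 ≤ F (u + r • v) := by
  constructor
  · intro h u hu r hr
    rw [← hu]; exact h u r hr
  · intro h u r hr
    have h1 := h (u + (-F u) • e) (by rw [hFe]; ring) r hr
    have h2 : u + (-F u) • e + r • v = (u + r • v) + (-F u) • e := by abel
    rw [h2, hFe] at h1
    linarith

include hFe in
lemma neg_mem_rec_iff (v : V) :
    -v ∈ Rec F ↔ ∀ u, F u = 0 → ∀ r : ℝ, 0 ≤ r → F (u + r • v) ≤ 0 := by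
  constructor
  · intro h u hu r hr
    have := h (u + r • v) r hr
    rw [← hu]
    simpa using this
  · intro h u r hr
    have h1 := h ((u - r • v) + (-F (u - r • v)) • e) (by rw [hFe]; ring) r hr
    have h2 : (u - r • v) + (-F (u - r • v)) • e + r • v = u + (-F (u - r • v)) • e := by abel
    rw [h2, hFe] at h1
    have h3 : u + r • -v = u - r • v := by rw [smul_neg]; abel
    rw [h3]; linarith

lemma sign_of_preconnected {X : Type*} [TopologicalSpace X] {S : Set X} (hS : IsPreconnected S)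
    {h : X → ℝ} (hc : Continuous h) (hne : ∀ x ∈ S, h x ≠ 0) :
    (∀ x ∈ S, 0 < h x) ∨ (∀ x ∈ S, h x < 0) := by
  by_contra hcon
  push Not at hcon
  obtain ⟨⟨x, hx, hx0⟩, ⟨y, hy, hy0⟩⟩ := hcon
  have := hS.intermediate_value hx hy hc.continuousOn
  obtain ⟨z, hz, hz0⟩ := this ⟨hx0, hy0⟩
  exact hne z hz hz0

include hF hFe in
lemma preconnected_pos : IsPreconnected {v | 0 < F v} := by
  have h1 : {v | 0 < F v} =
      (fun p : V × ℝ => p.1 + (p.2 - F p.1) • e) '' (Set.univ ×ˢ Set.Ioi 0) := by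
    ext v
    constructor
    · intro hv
      exact ⟨(v, F v), ⟨Set.mem_univ _, hv⟩, by simp⟩
    · rintro ⟨p, ⟨_, hp⟩, rfl⟩
      show _
      rw [Set.mem_ofPred_eq, hFe]
      have : (0 : ℝ) < p.2 := hp
      linarith
  rw [h1]
  refine (isPreconnected_univ.prod isPreconnected_Ioi).image _ ?_
  exact Continuous.continuousOn (by fun_prop)

include hF hFe in
lemma preconnected_neg : IsPreconnected {v | F v < 0} := by
  have h1 : {v | F v < 0} =
      (fun p : V × ℝ => p.1 + (p.2 - F p.1) • e) '' (Set.univ ×ˢ Set.Iio 0) := by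
    ext v
    constructor
    · intro hv
      exact ⟨(v, F v), ⟨Set.mem_univ _, hv⟩, by simp⟩
    · rintro ⟨p, ⟨_, hp⟩, rfl⟩
      show _
      rw [Set.mem_ofPred_eq, hFe]
      have : p.2 < (0 : ℝ) := hp
      linarith
  rw [h1]
  refine (isPreconnected_univ.prod isPreconnected_Iio).image _ ?_
  exact Continuous.continuousOn (by fun_prop)

include hF hFe in
lemma sign_lemma {g : V → V} (hgc : Continuous g) (hgs : Function.Surjective g)
    (hg : ∀ v, F v = 0 ↔ F (g v) = 0) :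
    (∀ v, 0 ≤ F v ↔ 0 ≤ F (g v)) ∨ (∀ v, 0 ≤ F v ↔ F (g v) ≤ 0) := by
  have hP := sign_of_preconnected (preconnected_pos hF hFe) (h := fun v => F (g v))
    (hF.comp hgc) (fun v hv h0 => by
      have h1 := (hg v).2 h0
      have h2 : 0 < F v := hv
      linarith)
  have hN := sign_of_preconnected (preconnected_neg hF hFe) (h := fun v => F (g v))
    (hF.comp hgc) (fun v hv h0 => by
      have h1 := (hg v).2 h0
      have h2 : F v < 0 := hv
      linarith)
  have hval : ∀ s : ℝ, ∃ v, F (g v) = s := by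
    intro s
    obtain ⟨v, hv⟩ := hgs (0 + (s - F 0) • e)
    exact ⟨v, by rw [hv, hFe]; ring⟩
  rcases hP with hP | hP <;> rcases hN with hN | hN
  · exfalso
    obtain ⟨v, hv⟩ := hval (-1)
    rcases lt_trichotomy (F v) 0 with h | h | h
    · have := hN v h; linarith
    · have := (hg v).1 h; linarith
    · have := hP v h; linarith
  · left
    intro v
    rcases lt_trichotomy (F v) 0 with h | h | h
    · have := hN v h
      constructor <;> intro _ <;> linarith
    · have := (hg v).1 h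
      constructor <;> intro _ <;> linarith
    · have := hP v h
      constructor <;> intro _ <;> linarith
  · right
    intro v
    rcases lt_trichotomy (F v) 0 with h | h | h
    · have := hN v h
      constructor <;> intro _ <;> linarith
    · have := (hg v).1 h
      constructor <;> intro _ <;> linarith
    · have := hP v h
      constructor <;> intro _ <;> linarith
  · exfalso
    obtain ⟨v, hv⟩ := hval 1
    rcases lt_trichotomy (F v) 0 with h | h | h
    · have := hN v h; linarith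
    · have := (hg v).1 h; linarith
    · have := hP v h; linarith

include hFe in
lemma rec_equiv_pos {A : V → V} {τ : V} (hadd : ∀ u v, A (u + v) = A u + A v)
    (hsmul : ∀ (r : ℝ) v, A (r • v) = r • A v) (hs : Function.Surjective A)
    (h0 : ∀ v, F v = 0 ↔ F (A v + τ) = 0) (h1 : ∀ v, 0 ≤ F v ↔ 0 ≤ F (A v + τ)) (v : V) :
    v ∈ Rec F ↔ A v ∈ Rec F := by
  rw [mem_rec_iff hFe, mem_rec_iff hFe]
  constructor
  · intro h u hu r hr
    obtain ⟨u', hu'⟩ := hs (u - τ)
    have hu'' : A u' + τ = u := by rw [hu']; abel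
    have h2 := (h1 _).1 (h u' ((h0 u').2 (by rw [hu'', hu])) r hr)
    rw [hadd, hsmul] at h2
    have : A u' + r • A v + τ = u + r • A v := by rw [← hu'']; abel
    rwa [this] at h2
  · intro h u hu r hr
    rw [h1, hadd, hsmul]
    have h2 := h (A u + τ) ((h0 u).1 hu) r hr
    have : A u + r • A v + τ = A u + τ + r • A v := by abel
    rwa [this]

include hFe in
lemma rec_equiv_neg {A : V → V} {τ : V} (hadd : ∀ u v, A (u + v) = A u + A v)
    (hsmul : ∀ (r : ℝ) v, A (r • v) = r • A v) (hs : Function.Surjective A)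
    (h0 : ∀ v, F v = 0 ↔ F (A v + τ) = 0) (h1 : ∀ v, 0 ≤ F v ↔ F (A v + τ) ≤ 0) (v : V) :
    v ∈ Rec F ↔ -(A v) ∈ Rec F := by
  rw [mem_rec_iff hFe, neg_mem_rec_iff hFe]
  constructor
  · intro h u hu r hr
    obtain ⟨u', hu'⟩ := hs (u - τ)
    have hu'' : A u' + τ = u := by rw [hu']; abel
    have h2 := (h1 _).1 (h u' ((h0 u').2 (by rw [hu'', hu])) r hr)
    rw [hadd, hsmul] at h2
    have : A u' + r • A v + τ = u + r • A v := by rw [← hu'']; abel
    rwa [this] at h2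
  · intro h u hu r hr
    rw [h1, hadd, hsmul]
    have h2 := h (A u + τ) ((h0 u).1 hu) r hr
    have : A u + r • A v + τ = A u + τ + r • A v := by abel
    rwa [this]

end Fun

section Cone

variable {K : Set V}

/-- The lineality space of a closed convex cone. -/
def CC.lin (hK : CC K) : Submodule ℝ V where
  carrier := {v | v ∈ K ∧ -v ∈ K}
  zero_mem' := ⟨hK.zero, by simpa using hK.zero⟩
  add_mem' := by
    rintro u v ⟨hu, hu'⟩ ⟨hv, hv'⟩
    refine ⟨hK.add _ hu _ hv, ?_⟩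
    rw [neg_add]; exact hK.add _ hu' _ hv'
  smul_mem' := by
    rintro c v ⟨hv, hv'⟩
    rcases le_total 0 c with hc | hc
    · refine ⟨hK.smul _ hv _ hc, ?_⟩
      rw [← smul_neg]; exact hK.smul _ hv' _ hc
    · constructor
      · have := hK.smul _ hv' (-c) (by linarith)
        simpa using this
      · have := hK.smul _ hv (-c) (by linarith)
        simpa using this

lemma CC.mem_lin (hK : CC K) {v : V} : v ∈ hK.lin ↔ v ∈ K ∧ -v ∈ K := Iff.rfl

/-- `(ξ, ℓ)` splits off a ray from the cone `K`. -/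
def Split (K : Set V) (ξ : V) (ℓ : V →ₗ[ℝ] ℝ) : Prop :=
  ξ ∈ K ∧ ℓ ξ = 1 ∧ (∀ v ∈ K, 0 ≤ ℓ v) ∧ ∀ v ∈ K, v - ℓ v • ξ ∈ K

lemma Split.eq_zero (hK : CC K) {ξ : V} {ℓ : V →ₗ[ℝ] ℝ} (h : Split K ξ ℓ) {w : V}
    (hw : w ∈ hK.lin) : ℓ w = 0 := by
  obtain ⟨h1, h2⟩ := hK.mem_lin.1 hw
  have h3 := h.2.2.1 w h1
  have h4 := h.2.2.1 (-w) h2
  rw [map_neg] at h4
  linarith

lemma Split.equiv (hK : CC K) {ξ ξ' : V} {ℓ ℓ' : V →ₗ[ℝ] ℝ} (h : Split K ξ ℓ)
    (h' : Split K ξ' ℓ') (hpos : 0 < ℓ' ξ) : ξ - ℓ' ξ • ξ' ∈ hK.lin := by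
  have hu : ξ' - ℓ ξ' • ξ ∈ K := h.2.2.2 _ h'.1
  have hu' : ξ - ℓ' ξ • ξ' ∈ K := h'.2.2.2 _ h.1
  have h1 := h.2.2.2 _ hu'
  have h2 : (ξ - ℓ' ξ • ξ') - ℓ (ξ - ℓ' ξ • ξ') • ξ = ℓ' ξ • (-(ξ' - ℓ ξ' • ξ)) := by
    simp only [map_sub, map_smul, h.2.1, smul_eq_mul, sub_smul, one_smul, smul_neg, smul_sub,
      smul_smul]
    abel
  rw [h2] at h1
  have h3 : -(ξ' - ℓ ξ' • ξ) ∈ K := by
    have := hK.smul _ h1 (ℓ' ξ)⁻¹ (inv_nonneg.2 hpos.le)
    rwa [smul_smul, inv_mul_cancel₀ hpos.ne', one_smul] at this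
  have hlin : ξ' - ℓ ξ' • ξ ∈ hK.lin := ⟨hu, h3⟩
  have h4 := h'.eq_zero hK hlin
  rw [map_sub, map_smul, h'.2.1, smul_eq_mul] at h4
  have h5 : ξ - ℓ' ξ • ξ' = -(ℓ' ξ) • (ξ' - ℓ ξ' • ξ) := by
    have h6 : ℓ' ξ * ℓ ξ' = 1 := by linarith
    rw [neg_smul, smul_sub, smul_smul, h6, one_smul]; abel
  rw [h5]
  exact hK.lin.smul_mem _ hlin

end Cone


section Limit

/-- The part of `v` orthogonal to `e`. -/
def hor (e v : V) : V := v - ⟪e, v⟫ • e

lemma hor_add (v : V) : hor e v + ⟪e, v⟫ • e = v := by simp [hor]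

include he in
lemma inner_hor (v : V) : ⟪e, hor e v⟫ = 0 := by
  rw [hor, inner_sub_right, inner_smul_right, inner_self_one he]; ring

lemma stretch_eq (γ : ℝ) (v : V) : stretch e γ v = γ • hor e v + ⟪e, v⟫ • e := by
  rw [stretch_apply, hor, smul_sub, sub_mul, sub_smul, smul_smul, one_mul]; abel

lemma continuous_hor : Continuous (hor e : V → V) := by
  unfold hor; fun_prop

/-- `v ↦ Q (stretch v)`. -/
def AA (e : V) (Q : V ≃ₗᵢ[ℝ] V) (γ : ℝ) : V →ₗ[ℝ] V :=
  Q.toLinearEquiv.toLinearMap ∘ₗ stretch e γ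

/-- The inverse of `AA`. -/
noncomputable def BB (e : V) (Q : V ≃ₗᵢ[ℝ] V) (γ : ℝ) : V →ₗ[ℝ] V :=
  stretch e γ⁻¹ ∘ₗ Q.symm.toLinearEquiv.toLinearMap

lemma AA_apply (Q : V ≃ₗᵢ[ℝ] V) (γ : ℝ) (v : V) : AA e Q γ v = Q (stretch e γ v) := rfl
lemma BB_apply (Q : V ≃ₗᵢ[ℝ] V) (γ : ℝ) (v : V) : BB e Q γ v = stretch e γ⁻¹ (Q.symm v) := rfl

include he in
lemma AA_BB (Q : V ≃ₗᵢ[ℝ] V) {γ : ℝ} (hγ : γ ≠ 0) (v : V) : AA e Q γ (BB e Q γ v) = v := by
  rw [AA_apply, BB_apply, stretch_stretch_inv he hγ, LinearIsometryEquiv.apply_symm_apply]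

include he in
lemma BB_AA (Q : V ≃ₗᵢ[ℝ] V) {γ : ℝ} (hγ : γ ≠ 0) (v : V) : BB e Q γ (AA e Q γ v) = v := by
  rw [AA_apply, BB_apply, LinearIsometryEquiv.symm_apply_apply, stretch_inv_stretch he hγ]

lemma Split.transport {K : Set V} {ξ : V} {ℓ : V →ₗ[ℝ] ℝ} (h : Split K ξ ℓ) {A B : V →ₗ[ℝ] V}
    (hAB : ∀ v, A (B v) = v) (hA : ∀ v, v ∈ K ↔ A v ∈ K) :
    Split K (B ξ) (ℓ ∘ₗ A) := by
  refine ⟨?_, ?_, ?_, ?_⟩
  · rw [hA, hAB]; exact h.1
  · rw [LinearMap.comp_apply, hAB]; exact h.2.1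
  · intro v hv
    exact h.2.2.1 _ ((hA v).1 hv)
  · intro v hv
    rw [hA, map_sub, map_smul, hAB]
    exact h.2.2.2 _ ((hA v).1 hv)

variable {ι : Type*} {l : Filter ι} {γ : ι → ℝ} {Q : ι → V ≃ₗᵢ[ℝ] V} {Q' : V ≃ₗᵢ[ℝ] V}

lemma tendsto_apply (hQ : ∀ v, Tendsto (fun k => Q k v) l (𝓝 (Q' v))) {u : ι → V} {u0 : V}
    (hu : Tendsto u l (𝓝 u0)) : Tendsto (fun k => Q k (u k)) l (𝓝 (Q' u0)) := by
  have h1 : Tendsto (fun k => Q k (u k) - Q k u0) l (𝓝 0) := by
    rw [tendsto_zero_iff_norm_tendsto_zero]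
    have h2 : (fun k => ‖Q k (u k) - Q k u0‖) = fun k => ‖u k - u0‖ := by
      ext k
      rw [← map_sub, LinearIsometryEquiv.norm_map]
    rw [h2, ← tendsto_zero_iff_norm_tendsto_zero]
    simpa using hu.sub_const u0
  have h3 := h1.add (hQ u0)
  simpa using h3

lemma tendsto_symm (hQ : ∀ v, Tendsto (fun k => Q k v) l (𝓝 (Q' v))) (v : V) :
    Tendsto (fun k => (Q k).symm v) l (𝓝 (Q'.symm v)) := by
  rw [tendsto_iff_norm_sub_tendsto_zero]
  have h2 : (fun k => ‖(Q k).symm v - Q'.symm v‖) = fun k => ‖Q k (Q'.symm v) - v‖ := by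
    ext k
    rw [← (Q k).norm_map, map_sub, LinearIsometryEquiv.apply_symm_apply, norm_sub_rev]
  rw [h2, ← tendsto_iff_norm_sub_tendsto_zero]
  simpa using hQ (Q'.symm v)

variable [l.NeBot] {K : Set V}

include he in
lemma split_lim (hK : CC K) (heK : e ∈ K) (hne : ∀ t : ℝ, t • e ∈ K → 0 ≤ t)
    (hγ0 : ∀ k, 0 < γ k) (hγ : Tendsto γ l atTop)
    (hQ : ∀ v, Tendsto (fun k => Q k v) l (𝓝 (Q' v)))
    (hA : ∀ k v, v ∈ K ↔ AA e (Q k) (γ k) v ∈ K) :
    Split K (Q' e) (innerₗ V (Q' e)) := by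
  have hinv : Tendsto (fun k => (γ k)⁻¹) l (𝓝 0) := tendsto_inv_atTop_zero.comp hγ
  -- `Q' e ∈ K`
  have h1 : Q' e ∈ K := by
    refine hK.closed.mem_of_tendsto (hQ e) (Eventually.of_forall fun k => ?_)
    have := (hA k e).1 heK
    rwa [AA_apply, stretch_self he] at this
  have h2 : ∀ v ∈ K, Q' (hor e v) ∈ K := by
    intro v hv
    have h3 : Tendsto (fun k => Q k (hor e v + ((γ k)⁻¹ * ⟪e, v⟫) • e)) l (𝓝 (Q' (hor e v))) := by
      refine tendsto_apply hQ ?_
      have := (((hinv.mul_const ⟪e, v⟫).smul_const e).const_add (hor e v))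
      simpa using this
    refine hK.closed.mem_of_tendsto h3 (Eventually.of_forall fun k => ?_)
    have h4 := hK.smul _ ((hA k v).1 hv) (γ k)⁻¹ (inv_nonneg.2 (hγ0 k).le)
    rwa [AA_apply, ← map_smul, stretch_eq, smul_add, smul_smul, smul_smul,
      inv_mul_cancel₀ (hγ0 k).ne', one_smul] at h4
  have h3 : ∀ v ∈ K, 0 ≤ ⟪e, Q'.symm v⟫ ∧ Q' (hor e (Q'.symm v)) ∈ K := by
    intro v hv
    have hv2 : ∀ k, BB e (Q k) (γ k) v ∈ K := by
      intro k
      rw [hA k, AA_BB he _ (hγ0 k).ne']; exact hv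
    have h4 : Tendsto (fun k => (Q k).symm v) l (𝓝 (Q'.symm v)) := tendsto_symm hQ v
    have h5 : Tendsto (fun k => BB e (Q k) (γ k) v) l (𝓝 (⟪e, Q'.symm v⟫ • e)) := by
      have h6 : (fun k => BB e (Q k) (γ k) v) =
          fun k => (γ k)⁻¹ • hor e ((Q k).symm v) + ⟪e, (Q k).symm v⟫ • e := by
        ext k; rw [BB_apply, stretch_eq]
      rw [h6]
      have h7 : Tendsto (fun k => (γ k)⁻¹ • hor e ((Q k).symm v)) l
          (𝓝 ((0 : ℝ) • hor e (Q'.symm v))) :=
        hinv.smul ((continuous_hor.tendsto _).comp h4)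
      have h8 : Tendsto (fun k => ⟪e, (Q k).symm v⟫ • e) l (𝓝 (⟪e, Q'.symm v⟫ • e)) :=
        (tendsto_const_nhds.inner h4).smul_const e
      simpa using h7.add h8
    refine ⟨hne _ (hK.closed.mem_of_tendsto h5 (Eventually.of_forall hv2)), ?_⟩
    have h9 : Tendsto (fun k => Q' (hor e ((Q k).symm v))) l (𝓝 (Q' (hor e (Q'.symm v)))) :=
      ((Q'.continuous.comp continuous_hor).tendsto _).comp h4
    refine hK.closed.mem_of_tendsto h9 (Eventually.of_forall fun k => ?_)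
    have h10 := hK.smul _ (h2 _ (hv2 k)) (γ k) (hγ0 k).le
    rw [← map_smul] at h10
    convert h10 using 2
    have h11 : (Q k).symm v = stretch e (γ k) (BB e (Q k) (γ k) v) := by
      rw [BB_apply, stretch_stretch_inv he (hγ0 k).ne']
    rw [h11]
    generalize BB e (Q k) (γ k) v = u
    rw [hor, inner_stretch he, stretch_eq]; abel
  have h4 : ∀ v, ⟪Q' e, v⟫ = ⟪e, Q'.symm v⟫ := by
    intro v
    rw [← Q'.symm.inner_map_map, LinearIsometryEquiv.symm_apply_apply]
  refine ⟨h1, ?_, ?_, ?_⟩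
  · rw [innerₗ_apply_apply, h4, LinearIsometryEquiv.symm_apply_apply, inner_self_one he]
  · intro v hv
    rw [innerₗ_apply_apply, h4]; exact (h3 v hv).1
  · intro v hv
    rw [innerₗ_apply_apply, h4]
    have := (h3 v hv).2
    rwa [hor, map_sub, map_smul, LinearIsometryEquiv.apply_symm_apply] at this


omit [l.NeBot] in
include he in
lemma tendsto_BB (hγ : Tendsto γ l atTop)
    (hQ : ∀ v, Tendsto (fun k => Q k v) l (𝓝 (Q' v))) :
    Tendsto (fun k => BB e (Q k) (γ k) (Q' e)) l (𝓝 e) := by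
  have hinv : Tendsto (fun k => (γ k)⁻¹) l (𝓝 0) := tendsto_inv_atTop_zero.comp hγ
  have h4 : Tendsto (fun k => (Q k).symm (Q' e)) l (𝓝 e) := by
    simpa using tendsto_symm hQ (Q' e)
  have h6 : (fun k => BB e (Q k) (γ k) (Q' e)) =
      fun k => (γ k)⁻¹ • hor e ((Q k).symm (Q' e)) + ⟪e, (Q k).symm (Q' e)⟫ • e := by
    ext k; rw [BB_apply, stretch_eq]
  rw [h6]
  have h7 : Tendsto (fun k => (γ k)⁻¹ • hor e ((Q k).symm (Q' e))) l
      (𝓝 ((0 : ℝ) • hor e e)) :=
    hinv.smul ((continuous_hor.tendsto _).comp h4)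
  have h8 : Tendsto (fun k => ⟪e, (Q k).symm (Q' e)⟫ • e) l (𝓝 (⟪e, e⟫ • e)) :=
    (tendsto_const_nhds.inner h4).smul_const e
  have h9 := h7.add h8
  rwa [inner_self_one he, zero_smul, zero_add, one_smul] at h9

include he in
lemma exists_split_e (hK : CC K) (heK : e ∈ K) (hne : ∀ t : ℝ, t • e ∈ K → 0 ≤ t)
    (hγ0 : ∀ k, 0 < γ k) (hγ : Tendsto γ l atTop)
    (hQ : ∀ v, Tendsto (fun k => Q k v) l (𝓝 (Q' v)))
    (hA : ∀ k v, v ∈ K ↔ AA e (Q k) (γ k) v ∈ K) [FiniteDimensional ℝ V] :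
    ∃ ℓ : V →ₗ[ℝ] ℝ, Split K e ℓ ∧
      ∀ x, ⟪e, x⟫ = 0 → (∀ w ∈ hK.lin, ⟪w, x⟫ = 0) → ℓ x = 0 := by
  have hs := split_lim he hK heK hne hγ0 hγ hQ hA
  have hξ := tendsto_BB he hγ hQ
  generalize hη : Q' e = η at hs hξ
  have hηη : ⟪η, η⟫ = 1 := hs.2.1
  have hsk : ∀ k, Split K (BB e (Q k) (γ k) η) (innerₗ V η ∘ₗ AA e (Q k) (γ k)) :=
    fun k => hs.transport (AA_BB he _ (hγ0 k).ne') (hA k)
  have hℓ : Tendsto (fun k => ⟪η, AA e (Q k) (γ k) e⟫) l (𝓝 1) := by
    have h1 : (fun k => ⟪η, AA e (Q k) (γ k) e⟫) = fun k => ⟪η, Q k e⟫ := by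
      ext k; rw [AA_apply, stretch_self he]
    rw [h1, ← hηη]
    refine tendsto_const_nhds.inner ?_
    rw [← hη]; exact hQ e
  obtain ⟨j, hj⟩ : ∃ j, 0 < ⟪η, AA e (Q j) (γ j) e⟫ :=
    (hℓ.eventually (lt_mem_nhds one_pos)).exists
  obtain ⟨β, hβ⟩ : ∃ β : ℝ, β = ⟪η, AA e (Q j) (γ j) e⟫ := ⟨_, rfl⟩
  rw [← hβ] at hj
  have hsj := hsk j
  obtain ⟨ℓj, hℓj⟩ : ∃ ℓj : V →ₗ[ℝ] ℝ, ℓj = innerₗ V η ∘ₗ AA e (Q j) (γ j) := ⟨_, rfl⟩
  rw [← hℓj] at hsj
  have hℓje : ℓj e = β := by rw [hβ, hℓj]; rfl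
  have hcont : Continuous ℓj := ℓj.continuous_of_finiteDimensional
  have hlim : Tendsto (fun k => ℓj (BB e (Q k) (γ k) η)) l (𝓝 β) := by
    rw [← hℓje]
    exact (hcont.tendsto _).comp hξ
  obtain ⟨ξj, hξj⟩ : ∃ ξj : V, ξj = BB e (Q j) (γ j) η := ⟨_, rfl⟩
  rw [← hξj] at hsj
  have hev : ∀ᶠ k in l, BB e (Q k) (γ k) η - ℓj (BB e (Q k) (γ k) η) • ξj ∈ hK.lin := by
    filter_upwards [hlim.eventually (lt_mem_nhds hj)] with k hk
    exact (hsk k).equiv hK hsj hk
  have hlim2 : Tendsto (fun k => BB e (Q k) (γ k) η - ℓj (BB e (Q k) (γ k) η) • ξj) l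
      (𝓝 (e - β • ξj)) := hξ.sub (hlim.smul_const ξj)
  have hw0 : e - β • ξj ∈ hK.lin := by
    constructor
    · exact hK.closed.mem_of_tendsto hlim2 (hev.mono fun k hk => hk.1)
    · exact hK.closed.mem_of_tendsto hlim2.neg (hev.mono fun k hk => hk.2)
  refine ⟨β⁻¹ • ℓj, ⟨heK, ?_, ?_, ?_⟩, ?_⟩
  · rw [LinearMap.smul_apply, hℓje, smul_eq_mul, inv_mul_cancel₀ hj.ne']
  · intro v hv
    rw [LinearMap.smul_apply]
    exact mul_nonneg (inv_nonneg.2 hj.le) (hsj.2.2.1 v hv)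
  · intro v hv
    have h1 := hsj.2.2.2 v hv
    have h2 : v - (β⁻¹ • ℓj) v • e = (v - ℓj v • ξj) + (-(β⁻¹ * ℓj v)) • (e - β • ξj) := by
      rw [LinearMap.smul_apply, smul_eq_mul, smul_sub, smul_smul, neg_smul, neg_mul, neg_smul]
      have h3 : β⁻¹ * ℓj v * β = ℓj v := by field_simp
      rw [h3]; abel
    rw [h2]
    exact hK.add _ h1 _ (hK.lin.smul_mem _ hw0).1
  · intro x hx hxW
    have h1 : ⟪ξj, x⟫ = 0 := by
      have h2 : ⟪e - β • ξj, x⟫ = 0 := hxW _ hw0
      rw [inner_sub_left, hx, real_inner_smul_left] at h2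
      have h3 : β * ⟪ξj, x⟫ = 0 := by linarith
      exact (mul_eq_zero.1 h3).resolve_left hj.ne'
    have h4 : ℓj x = 0 := by
      rw [hℓj, LinearMap.comp_apply, innerₗ_apply_apply, AA_apply,
        stretch_of_orthogonal _ hx, ← (Q j).symm.inner_map_map,
        LinearIsometryEquiv.symm_apply_apply, real_inner_smul_right]
      have h5 : (Q j).symm η = stretch e (γ j) ξj := by
        rw [hξj, BB_apply, stretch_stretch_inv he (hγ0 j).ne']
      rw [h5, stretch_symm, stretch_of_orthogonal _ hx, real_inner_smul_right, h1]; ring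
    rw [LinearMap.smul_apply, h4, smul_zero]

end Limit

section Sim

/-- There is a bijective similarity `ψ` of ratio `ρ` with `φ ∘ ψ = a φ + d`. -/
def Sim {X : Type*} [MetricSpace X] (φ : X → ℝ) (ρ a : ℝ) : Prop :=
  ∃ ψ : X ≃ X, (∀ x y, dist (ψ x) (ψ y) = ρ * dist x y) ∧ ∃ d : ℝ, ∀ x, φ (ψ x) = a * φ x + d

variable {X : Type*} [MetricSpace X] {φ : X → ℝ} {ρ a ρ' a' : ℝ}

lemma Sim.mul (h : Sim φ ρ a) (h' : Sim φ ρ' a') : Sim φ (ρ * ρ') (a * a') := by
  obtain ⟨ψ, h1, d, h2⟩ := h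
  obtain ⟨ψ', h1', d', h2'⟩ := h'
  refine ⟨ψ'.trans ψ, ?_, a * d' + d, ?_⟩
  · intro x y
    simp only [Equiv.trans_apply, h1, h1']; ring
  · intro x
    simp only [Equiv.trans_apply, h2, h2']; ring

lemma Sim.inv (h : Sim φ ρ a) (hρ : ρ ≠ 0) (ha : a ≠ 0) : Sim φ ρ⁻¹ a⁻¹ := by
  obtain ⟨ψ, h1, d, h2⟩ := h
  refine ⟨ψ.symm, ?_, -(a⁻¹ * d), ?_⟩
  · intro x y
    have := h1 (ψ.symm x) (ψ.symm y)
    simp only [Equiv.apply_symm_apply] at this
    rw [this, ← mul_assoc, inv_mul_cancel₀ hρ, one_mul]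
  · intro x
    have := h2 (ψ.symm x)
    simp only [Equiv.apply_symm_apply] at this
    rw [this]
    field_simp
    ring

lemma Sim.pow (h : Sim φ ρ a) (m : ℕ) : Sim φ (ρ ^ m) (a ^ m) := by
  induction m with
  | zero => exact ⟨Equiv.refl _, by simp, 0, by simp⟩
  | succ m ih =>
    rw [pow_succ, pow_succ]
    exact ih.mul h

lemma Sim.const [CompleteSpace X] [Nonempty X] (hφ : Continuous φ) (h : Sim φ ρ a)
    (hρ : 1 < ρ) (ha : |a| ≤ 1) : ∃ c, ∀ x, φ x = c := by
  obtain ⟨ψ, h1, d, h2⟩ := h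
  have hρ0 : 0 < ρ := by linarith
  have hlip : ∀ x y, dist (ψ.symm x) (ψ.symm y) = ρ⁻¹ * dist x y := by
    intro x y
    have := h1 (ψ.symm x) (ψ.symm y)
    simp only [Equiv.apply_symm_apply] at this
    rw [this, ← mul_assoc, inv_mul_cancel₀ hρ0.ne', one_mul]
  have hc : ContractingWith (Real.toNNReal ρ⁻¹) (ψ.symm : X → X) := by
    constructor
    · rw [← NNReal.coe_lt_coe, Real.coe_toNNReal _ (inv_nonneg.2 hρ0.le)]
      exact inv_lt_one_of_one_lt₀ hρ
    · refine LipschitzWith.of_dist_le_mul fun x y => ?_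
      rw [hlip, Real.coe_toNNReal _ (inv_nonneg.2 hρ0.le)]
  obtain ⟨y, hy, -⟩ : ∃ y, ψ.symm y = y ∧ True :=
    ⟨ContractingWith.fixedPoint _ hc, hc.fixedPoint_isFixedPt, trivial⟩
  refine ⟨φ y, fun x => ?_⟩
  have hψy : ψ y = y := by
    conv_lhs => rw [← hy]
    exact ψ.apply_symm_apply y
  have hstep : ∀ z, φ z - φ y = a * (φ (ψ.symm z) - φ y) := by
    intro z
    have e1 := h2 (ψ.symm z)
    have e2 := h2 y
    rw [Equiv.apply_symm_apply] at e1
    rw [hψy] at e2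
    linear_combination e1 - e2
  have hiter : ∀ m : ℕ, φ x - φ y = a ^ m * (φ ((ψ.symm : X → X)^[m] x) - φ y) := by
    intro m
    induction m with
    | zero => simp
    | succ m ih =>
      rw [ih, hstep, Function.iterate_succ_apply', pow_succ]; ring
  have hlim : Tendsto (fun m : ℕ => (ψ.symm : X → X)^[m] x) atTop (𝓝 y) := by
    have h3 := hc.tendsto_iterate_fixedPoint x
    have h4 : ContractingWith.fixedPoint (ψ.symm : X → X) hc = y :=
      (hc.fixedPoint_unique hy).symm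
    rwa [h4] at h3
  have hlim2 : Tendsto (fun m : ℕ => |φ ((ψ.symm : X → X)^[m] x) - φ y|) atTop (𝓝 0) := by
    have h5 := (((hφ.tendsto y).comp hlim).sub_const (φ y)).abs
    simpa using h5
  have hle : |φ x - φ y| ≤ 0 := by
    refine ge_of_tendsto hlim2 (Eventually.of_forall fun m => ?_)
    rw [hiter m, abs_mul, abs_pow]
    exact mul_le_of_le_one_left (abs_nonneg _) (pow_le_one₀ (abs_nonneg _) ha)
  have := abs_nonpos_iff.1 hle
  linarith

lemma Sim.const_of_tendsto [CompleteSpace X] [Nonempty X] (hφ : Continuous φ)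
    {ι : Type*} {l : Filter ι} [l.NeBot] {ρ a : ι → ℝ} (hρ : Tendsto ρ l atTop) {A : ℝ}
    (h : ∀ᶠ k in l, 0 < a k ∧ a k ≤ A ∧ Sim φ (ρ k) (a k)) : ∃ c, ∀ x, φ x = c := by
  obtain ⟨k1, hk1, hρ1⟩ := (h.and (hρ.eventually (eventually_gt_atTop 1))).exists
  rcases le_or_gt (a k1) 1 with ha | ha
  · exact hk1.2.2.const hφ hρ1 (by rw [abs_of_pos hk1.1]; exact ha)
  · obtain ⟨m, hm⟩ := pow_unbounded_of_one_lt A ha
    obtain ⟨k2, hk2, hρ2⟩ := (h.and (hρ.eventually (eventually_gt_atTop (ρ k1 ^ m)))).exists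
    have hρ1' : 0 < ρ k1 ^ m := pow_pos (by linarith) m
    have ha1' : 0 < a k1 ^ m := pow_pos hk1.1 m
    have h3 := hk2.2.2.mul ((hk1.2.2.pow m).inv hρ1'.ne' ha1'.ne')
    refine h3.const hφ ?_ ?_
    · rw [← div_eq_mul_inv, one_lt_div hρ1']; exact hρ2
    · rw [← div_eq_mul_inv, abs_of_pos (div_pos hk2.1 ha1'), div_le_one ha1']
      exact hk2.2.1.trans hm.le

end Sim

section Main

variable [FiniteDimensional ℝ V]

lemma exists_limit (U : Ultrafilter ℕ) (Q : ℕ → V ≃ₗᵢ[ℝ] V) :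
    ∃ Q' : V ≃ₗᵢ[ℝ] V, ∀ v, Tendsto (fun k => Q k v) U (𝓝 (Q' v)) := by
  have : ProperSpace (V →L[ℝ] V) := FiniteDimensional.proper_real _
  let q : ℕ → (V →L[ℝ] V) := fun k => (Q k).toLinearIsometry.toContinuousLinearMap
  have hq : ∀ k, q k ∈ Metric.closedBall (0 : V →L[ℝ] V) 1 := by
    intro k
    rw [mem_closedBall_zero_iff]
    exact (Q k).toLinearIsometry.norm_toContinuousLinearMap_le
  obtain ⟨T, -, hlim⟩ := (isCompact_closedBall (0 : V →L[ℝ] V) 1).ultrafilter_le_nhds' (U.map q)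
    (Ultrafilter.mem_map.2 (Filter.mem_of_superset Filter.univ_mem (fun k _ => hq k)))
  have hlim' : Tendsto q U (𝓝 T) := hlim
  have hpt : ∀ v, Tendsto (fun k => Q k v) U (𝓝 (T v)) := by
    intro v
    have h1 : Continuous fun S : V →L[ℝ] V => S v := by fun_prop
    exact (h1.tendsto T).comp hlim'
  have hnorm : ∀ v, ‖T v‖ = ‖v‖ := by
    intro v
    have h1 := (hpt v).norm
    simp only [LinearIsometryEquiv.norm_map] at h1
    exact (tendsto_nhds_unique h1 tendsto_const_nhds)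
  let L : V →ₗᵢ[ℝ] V := ⟨T.toLinearMap, hnorm⟩
  refine ⟨L.toLinearIsometryEquiv rfl, fun v => ?_⟩
  have : (L.toLinearIsometryEquiv rfl) v = T v := rfl
  rw [this]
  exact hpt v


lemma orient {F : V → ℝ} (he : ‖e‖ = 1) (hF : Continuous F)
    (hFe : ∀ v s, F (v + s • e) = F v + s) {γ : ℝ} (hγ : γ ≠ 0) (O : V ≃ₗᵢ[ℝ] V) (τ : V)
    (hg : ∀ v, F v = 0 ↔ F (O (stretch e γ v) + τ) = 0) :
    ∃ (Q : V ≃ₗᵢ[ℝ] V) (ε : ℝ), (ε = 1 ∨ ε = -1) ∧ (∀ v, O v = ε • Q v) ∧
      ∀ v, v ∈ Rec F ↔ AA e Q γ v ∈ Rec F := by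
  have hsurj : Function.Surjective (fun v => O (stretch e γ v)) := by
    intro v
    exact ⟨BB e O γ v, AA_BB he O hγ v⟩
  have hsurj' : Function.Surjective (fun v => O (stretch e γ v) + τ) := by
    intro v
    obtain ⟨w, hw⟩ := hsurj (v - τ)
    refine ⟨w, ?_⟩
    have hw' : O (stretch e γ w) = v - τ := hw
    show O (stretch e γ w) + τ = v
    rw [hw']; abel
  have hcont : Continuous (fun v => O (stretch e γ v) + τ) := by
    have h1 : Continuous (stretch e γ) := (stretch e γ).continuous_of_finiteDimensional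
    exact (O.continuous.comp h1).add continuous_const
  rcases sign_lemma hF hFe hcont hsurj' hg with h | h
  · refine ⟨O, 1, Or.inl rfl, fun v => by simp, fun v => ?_⟩
    exact rec_equiv_pos hFe (A := fun v => O (stretch e γ v)) (τ := τ)
      (fun u v => by simp only [map_add]) (fun r v => by simp only [map_smul]) hsurj hg h v
  · refine ⟨O.trans (LinearIsometryEquiv.neg ℝ), -1, Or.inr rfl, fun v => by simp, fun v => ?_⟩
    exact rec_equiv_neg hFe (A := fun v => O (stretch e γ v)) (τ := τ)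
      (fun u v => by simp only [map_add]) (fun r v => by simp only [map_smul]) hsurj hg h v

omit [FiniteDimensional ℝ V] in
lemma F_add_lin {F : V → ℝ} (hF : Continuous F) {w : V} (hw : w ∈ (rec_cc hF).lin) (v : V) :
    F (v + w) = F v := by
  have h1 := hw.1 v 1 zero_le_one
  have h2 := hw.2 (v + w) 1 zero_le_one
  rw [one_smul] at h1 h2
  rw [add_neg_cancel_right] at h2
  exact le_antisymm h2 h1

omit [FiniteDimensional ℝ V] in
lemma stretch_mem {W : Submodule ℝ V} (γ : ℝ) {m : V} (hm : m ∈ W ⊔ (ℝ ∙ e)) :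
    stretch e γ m ∈ W ⊔ (ℝ ∙ e) := by
  rw [stretch_apply]
  refine Submodule.add_mem _ (Submodule.smul_mem _ _ hm) (Submodule.smul_mem _ _ ?_)
  exact Submodule.mem_sup_right (Submodule.mem_span_singleton_self e)

omit [FiniteDimensional ℝ V] in
lemma R_mem (he : ‖e‖ = 1) {W : Submodule ℝ V} {Q1 Q2 : V ≃ₗᵢ[ℝ] V} {γ1 γ2 : ℝ}
    (hγ1 : γ1 ≠ 0) (hγ2 : γ2 ≠ 0)
    (hW1 : ∀ w, w ∈ W ↔ AA e Q1 γ1 w ∈ W) (hW2 : ∀ w, w ∈ W ↔ AA e Q2 γ2 w ∈ W)
    {a : ℝ} (ha : Q2 e - a • Q1 e ∈ W) {m : V} (hm : m ∈ W ⊔ (ℝ ∙ e)) :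
    Q1.symm (Q2 m) ∈ W ⊔ (ℝ ∙ e) := by
  -- `Q1.symm` maps `W` into `M`
  have h1 : ∀ w ∈ W, Q1.symm w ∈ W ⊔ (ℝ ∙ e) := by
    intro w hw
    have h2 : BB e Q1 γ1 w ∈ W := by rw [hW1, AA_BB he _ hγ1]; exact hw
    have h3 : Q1.symm w = stretch e γ1 (BB e Q1 γ1 w) := by
      rw [BB_apply, stretch_stretch_inv he hγ1]
    rw [h3]
    exact stretch_mem _ (Submodule.mem_sup_left h2)
  have heM : e ∈ W ⊔ (ℝ ∙ e) := Submodule.mem_sup_right (Submodule.mem_span_singleton_self e)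
  have h4 : Q1.symm (Q2 e) ∈ W ⊔ (ℝ ∙ e) := by
    have h5 : Q1.symm (Q2 e) = Q1.symm (Q2 e - a • Q1 e) + a • e := by
      rw [map_sub, map_smul, LinearIsometryEquiv.symm_apply_apply]; abel
    rw [h5]
    exact Submodule.add_mem _ (h1 _ ha) (Submodule.smul_mem _ _ heM)
  have h6 : m = stretch e γ2 (stretch e γ2⁻¹ m) := (stretch_stretch_inv he hγ2 m).symm
  have h7 : stretch e γ2⁻¹ m ∈ W ⊔ (ℝ ∙ e) := stretch_mem _ hm
  obtain ⟨w, hw, y, hy, hwy⟩ := Submodule.mem_sup.1 h7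
  obtain ⟨s, rfl⟩ := Submodule.mem_span_singleton.1 hy
  rw [h6, ← hwy, map_add, map_add, map_add, map_smul, stretch_self he, map_smul, map_smul]
  refine Submodule.add_mem _ (h1 _ ?_) (Submodule.smul_mem _ _ h4)
  exact (hW2 w).1 hw

theorem abstract_main (he : ‖e‖ = 1) {F : V → ℝ} (hF : Continuous F)
    (hFe : ∀ v s, F (v + s • e) = F v + s) {γ : ℕ → ℝ} (hγ0 : ∀ k, 0 < γ k)
    (hγ : Tendsto γ atTop atTop) (O : ℕ → V ≃ₗᵢ[ℝ] V) (τ : ℕ → V)
    (hg : ∀ k v, F v = 0 ↔ F (O k (stretch e (γ k) v) + τ k) = 0) :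
    ∃ (ℓ : V →ₗ[ℝ] ℝ) (c : ℝ), ∀ v, F v = ℓ v + c := by
  choose Q ε hε hOQ hA using fun k => orient he hF hFe (hγ0 k).ne' (O k) (τ k) (hg k)
  obtain ⟨U, hU⟩ : ∃ U : Ultrafilter ℕ, (U : Filter ℕ) ≤ atTop :=
    ⟨Ultrafilter.of atTop, Ultrafilter.of_le _⟩
  have hγU : Tendsto γ U atTop := hγ.mono_left hU
  obtain ⟨Q', hQ⟩ := exists_limit U Q
  have hK : CC (Rec F) := rec_cc hF
  have heK : e ∈ Rec F := e_mem_rec hFe
  have hne : ∀ t : ℝ, t • e ∈ Rec F → 0 ≤ t := fun t ht => nonneg_of_smul_e_mem hFe ht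
  obtain ⟨ε0, hε0⟩ : ∃ ε0 : ℝ, ∀ᶠ k in (U : Filter ℕ), ε k = ε0 := by
    have h1 : ∀ᶠ k in (U : Filter ℕ), ε k = 1 ∨ ε k = -1 := Eventually.of_forall hε
    rcases Ultrafilter.eventually_or.1 h1 with h | h
    · exact ⟨1, h⟩
    · exact ⟨-1, h⟩
  obtain ⟨ℓ, hsplit, hℓX⟩ := exists_split_e he hK heK hne hγ0 hγU hQ hA
  have hcont : Continuous ℓ := ℓ.continuous_of_finiteDimensional
  have hξ := tendsto_BB he hγU hQ
  have hℓξ : Tendsto (fun k => ℓ (BB e (Q k) (γ k) (Q' e))) U (𝓝 1) := by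
    rw [← hsplit.2.1]
    exact (hcont.tendsto _).comp hξ
  obtain ⟨j, hεj, hj⟩ : ∃ j, ε j = ε0 ∧ 0 < ℓ (BB e (Q j) (γ j) (Q' e)) :=
    (hε0.and (hℓξ.eventually (lt_mem_nhds one_pos))).exists
  obtain ⟨α, hα⟩ : ∃ α : ℝ, α = ℓ (BB e (Q j) (γ j) (Q' e)) := ⟨_, rfl⟩
  rw [← hα] at hj
  have hBcont : Continuous (BB e (Q j) (γ j)) := (BB e (Q j) (γ j)).continuous_of_finiteDimensional
  have ha : Tendsto (fun k => ℓ (BB e (Q j) (γ j) (Q k e))) U (𝓝 α) := by
    rw [hα]
    exact ((hcont.comp hBcont).tendsto _).comp (hQ e)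
  -- invariance of the lineality space
  have hW : ∀ k w, w ∈ hK.lin ↔ AA e (Q k) (γ k) w ∈ hK.lin := by
    intro k w
    rw [hK.mem_lin, hK.mem_lin, hA k w, hA k (-w), map_neg]
  -- the complement
  obtain ⟨M, hM⟩ : ∃ M : Submodule ℝ V, M = hK.lin ⊔ (ℝ ∙ e) := ⟨_, rfl⟩
  have heM : e ∈ M := by
    rw [hM]; exact Submodule.mem_sup_right (Submodule.mem_span_singleton_self e)
  have hWM : ∀ w ∈ hK.lin, w ∈ M := fun w hw => by rw [hM]; exact Submodule.mem_sup_left hw
  have hdec : ∀ v : V, ∃ x : Mᗮ, ∃ w ∈ hK.lin, ∃ s : ℝ, v = x + w + s • e := by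
    intro v
    obtain ⟨m, hm, x, hx, hv⟩ := M.exists_add_mem_mem_orthogonal v
    rw [hM] at hm
    obtain ⟨w, hw, y, hy, hwy⟩ := Submodule.mem_sup.1 hm
    obtain ⟨s, rfl⟩ := Submodule.mem_span_singleton.1 hy
    refine ⟨⟨x, hx⟩, w, hw, s, ?_⟩
    rw [hv, ← hwy]; abel
  have heX : ∀ x : Mᗮ, ⟪e, (x : V)⟫ = 0 := fun x => (Submodule.mem_orthogonal M _).1 x.2 e heM
  -- the function on the complement
  have hconst : ∃ c, ∀ x : Mᗮ, F (x : V) = c := by
    refine Sim.const_of_tendsto (X := Mᗮ) (φ := fun x => F (x : V))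
      (hF.comp continuous_subtype_val) (l := (U : Filter ℕ)) (ρ := fun k => γ k / γ j)
      (a := fun k => ℓ (BB e (Q j) (γ j) (Q k e))) (A := α + 1) ?_ ?_
    · exact hγU.atTop_div_const (hγ0 j)
    · filter_upwards [hε0, ha.eventually (lt_mem_nhds hj),
        ha.eventually (gt_mem_nhds (lt_add_one α))] with k hεk hk1 hk2
      refine ⟨hk1, hk2.le, ?_⟩
      obtain ⟨a, hak⟩ : ∃ a : ℝ, a = ℓ (BB e (Q j) (γ j) (Q k e)) := ⟨_, rfl⟩
      rw [← hak] at hk1 hk2 ⊢
      -- split rays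
      have hsk : Split (Rec F) (Q k e) (ℓ ∘ₗ BB e (Q k) (γ k)) := by
        have h1 := hsplit.transport (A := BB e (Q k) (γ k)) (B := AA e (Q k) (γ k))
          (BB_AA he _ (hγ0 k).ne') (fun v => by rw [hA k (BB e (Q k) (γ k) v), AA_BB he _ (hγ0 k).ne'])
        rwa [AA_apply, stretch_self he] at h1
      have hsj : Split (Rec F) (Q j e) (ℓ ∘ₗ BB e (Q j) (γ j)) := by
        have h1 := hsplit.transport (A := BB e (Q j) (γ j)) (B := AA e (Q j) (γ j))
          (BB_AA he _ (hγ0 j).ne') (fun v => by rw [hA j (BB e (Q j) (γ j) v), AA_BB he _ (hγ0 j).ne'])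
        rwa [AA_apply, stretch_self he] at h1
      have hkj : Q k e - a • Q j e ∈ hK.lin := by
        have h1 := hsk.equiv hK hsj (by rw [LinearMap.comp_apply, ← hak]; exact hk1)
        rwa [LinearMap.comp_apply, ← hak] at h1
      have hjk : Q j e - a⁻¹ • Q k e ∈ hK.lin := by
        have h1 := hK.lin.smul_mem (-a⁻¹) hkj
        rw [smul_sub, smul_smul, neg_mul, inv_mul_cancel₀ hk1.ne', neg_smul, neg_smul,
          one_smul, sub_neg_eq_add, neg_add_eq_sub] at h1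
        exact h1
      -- the isometry `R` of `Mᗮ`
      have hR1 : ∀ m ∈ M, (Q j).symm (Q k m) ∈ M := by
        intro m hm
        rw [hM] at hm ⊢
        exact R_mem he (hγ0 j).ne' (hγ0 k).ne' (hW j) (hW k) hkj hm
      have hR2 : ∀ m ∈ M, (Q k).symm (Q j m) ∈ M := by
        intro m hm
        rw [hM] at hm ⊢
        exact R_mem he (hγ0 k).ne' (hγ0 j).ne' (hW k) (hW j) hjk hm
      have hR1' : ∀ x ∈ Mᗮ, (Q j).symm (Q k x) ∈ Mᗮ := by
        intro x hx
        rw [Submodule.mem_orthogonal] at hx ⊢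
        intro m hm
        have h1 : ⟪m, (Q j).symm (Q k x)⟫ = ⟪(Q k).symm (Q j m), x⟫ := by
          rw [← (Q j).inner_map_map, LinearIsometryEquiv.apply_symm_apply,
            ← (Q k).symm.inner_map_map, LinearIsometryEquiv.symm_apply_apply]
        rw [h1]
        exact hx _ (hR2 m hm)
      have hR2' : ∀ x ∈ Mᗮ, (Q k).symm (Q j x) ∈ Mᗮ := by
        intro x hx
        rw [Submodule.mem_orthogonal] at hx ⊢
        intro m hm
        have h1 : ⟪m, (Q k).symm (Q j x)⟫ = ⟪(Q j).symm (Q k m), x⟫ := by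
          rw [← (Q k).inner_map_map, LinearIsometryEquiv.apply_symm_apply,
            ← (Q j).symm.inner_map_map, LinearIsometryEquiv.symm_apply_apply]
        rw [h1]
        exact hx _ (hR1 m hm)
      -- translation part
      obtain ⟨σ, hσ⟩ : ∃ σ : V, σ = stretch e (γ j)⁻¹ ((O j).symm (τ k - τ j)) := ⟨_, rfl⟩
      obtain ⟨σx, σw, hσw, σs, hσd⟩ := hdec σ
      have hρ : γ k / γ j ≠ 0 := (div_pos (hγ0 k) (hγ0 j)).ne'
      let ψ : Mᗮ ≃ Mᗮ :=
        { toFun := fun x => ⟨(γ k / γ j) • (Q j).symm (Q k x), Submodule.smul_mem _ _ (hR1' _ x.2)⟩ + σx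
          invFun := fun y =>
            ⟨(γ k / γ j)⁻¹ • (Q k).symm (Q j ((y - σx : Mᗮ) : V)),
              Submodule.smul_mem _ _ (hR2' _ (y - σx).2)⟩
          left_inv := by
            intro x
            ext
            simp only [add_sub_cancel_right, map_smul, LinearIsometryEquiv.apply_symm_apply,
              LinearIsometryEquiv.symm_apply_apply, smul_smul, inv_mul_cancel₀ hρ, one_smul]
          right_inv := by
            intro y
            ext
            simp only [Submodule.coe_add, map_smul, LinearIsometryEquiv.apply_symm_apply,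
              LinearIsometryEquiv.symm_apply_apply, smul_smul, mul_inv_cancel₀ hρ, one_smul]
            simp }
      refine ⟨ψ, ?_, -σs, ?_⟩
      · intro x y
        have h1 : ψ x = ⟨(γ k / γ j) • (Q j).symm (Q k x), Submodule.smul_mem _ _ (hR1' _ x.2)⟩ + σx := rfl
        have h2 : ψ y = ⟨(γ k / γ j) • (Q j).symm (Q k y), Submodule.smul_mem _ _ (hR1' _ y.2)⟩ + σx := rfl
        rw [h1, h2, dist_add_right, Subtype.dist_eq, Subtype.dist_eq]
        simp only
        rw [dist_smul₀, LinearIsometryEquiv.dist_map, LinearIsometryEquiv.dist_map,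
          Real.norm_of_nonneg (div_pos (hγ0 k) (hγ0 j)).le]
      · intro x
        have h1 : ψ x = ⟨(γ k / γ j) • (Q j).symm (Q k x), Submodule.smul_mem _ _ (hR1' _ x.2)⟩ + σx := rfl
        simp only
        rw [h1, Submodule.coe_add]
        simp only
        have hv0 : F ((x : V) + (-F (x : V)) • e) = 0 := by rw [hFe]; ring
        have h2 := (hg k _).1 hv0
        obtain ⟨y, hy⟩ : ∃ y : V, y = stretch e (γ k) ((x : V) + (-F (x : V)) • e) := ⟨_, rfl⟩
        rw [← hy] at h2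
        have hy' : y = γ k • (x : V) + (-F (x : V)) • e := by
          rw [hy, map_add, map_smul, stretch_self he, stretch_of_orthogonal _ (heX x)]
        have hOO : (O j).symm (O k y) = (Q j).symm (Q k y) := by
          rw [LinearIsometryEquiv.symm_apply_eq, hOQ j, hOQ k, hεj, hεk,
            LinearIsometryEquiv.apply_symm_apply]
        have h3 : F (stretch e (γ j)⁻¹ ((O j).symm (O k y + (τ k - τ j)))) = 0 := by
          rw [hg j, stretch_stretch_inv he (hγ0 j).ne', LinearIsometryEquiv.apply_symm_apply]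
          rw [← h2]; congr 1; abel
        rw [map_add, map_add, ← hσ, hOO, hσd, hy'] at h3
        -- the image of `e`
        obtain ⟨w1, hw1⟩ : ∃ w1 : V, w1 = BB e (Q j) (γ j) (Q k e - a • Q j e) := ⟨_, rfl⟩
        have hw1W : w1 ∈ hK.lin := by
          rw [hW j, hw1, AA_BB he _ (hγ0 j).ne']; exact hkj
        have h4 : stretch e (γ j)⁻¹ ((Q j).symm (Q k e)) = w1 + a • e := by
          rw [hw1, map_sub, map_smul, BB_apply, BB_apply, LinearIsometryEquiv.symm_apply_apply,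
            stretch_self he]; abel
        have h5 : stretch e (γ j)⁻¹ ((Q j).symm (Q k (x : V))) =
            (γ j)⁻¹ • (Q j).symm (Q k (x : V)) :=
          stretch_of_orthogonal _ (heX ⟨_, hR1' _ x.2⟩)
        have h6 : stretch e (γ j)⁻¹ ((Q j).symm (Q k (γ k • (x : V) + (-F (x : V)) • e))) =
            (γ k / γ j) • (Q j).symm (Q k (x : V)) + (-F (x : V)) • (w1 + a • e) := by
          simp only [map_add, map_smul]
          rw [h4, h5, smul_smul, div_eq_mul_inv]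
        have h7 : (γ k / γ j) • (Q j).symm (Q k (x : V)) + (-F (x : V)) • (w1 + a • e) +
            ((σx : V) + σw + σs • e) =
            ((γ k / γ j) • (Q j).symm (Q k (x : V)) + (σx : V)) + (σw + (-F (x : V)) • w1) +
              (σs - F (x : V) * a) • e := by
          rw [smul_add, smul_smul, sub_smul, neg_mul, neg_smul (F (x : V) * a)]; abel
        rw [h6, h7, hFe, F_add_lin hF (hK.lin.add_mem hσw (hK.lin.smul_mem _ hw1W))] at h3
        linarith
  obtain ⟨c, hc⟩ := hconst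
  refine ⟨ℓ, c, fun v => ?_⟩
  obtain ⟨x, w, hw, s, rfl⟩ := hdec v
  rw [hFe, F_add_lin hF hw, hc, map_add, map_add, map_smul, hsplit.eq_zero hK hw, hsplit.2.1,
    hℓX x (heX x) (fun w hw => (Submodule.mem_orthogonal M _).1 x.2 w (hWM w hw))]
  simp; ring

end Main

end Abstract

end Pool.Agent.helper23.HRigid
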